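import Pool.Agent.Helper83.HLC.Defs

/-!
# Project DW (MP_e6fa8b_nt): prime tuples and dilated windows: definitions

Blackboard: `blackboard_DW.md` (team store).  `W d = ∏_{p ∣ d} (1 + 2 / p)` is `Helper83.HLC.W`,
`GG a n = ∏ Λ (n + a i)` is `Helper83.HLC.GG`.
-/

set_option autoImplicit false

namespace Pool.Agent.Helper8.DW

open Finset Pool.Agent.Helper83.HLC

open Classical in
/-- The indicator function of the `n ∈ [1, X]` with all `n + a i` prime. -/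
noncomputable def vv {k : ℕ} (a : Fin k → ℕ) (X n : ℕ) : ℝ :=
  if 1 ≤ n ∧ n ≤ X ∧ ∀ i, (n + a i).Prime then 1 else 0

/-- The number of pairs `(d, h)` with `d * m - h` counted by `vv`. -/
noncomputable def NN {k : ℕ} (a : Fin k → ℕ) (X : ℕ) (S : Finset ℕ) (y H m : ℕ) : ℝ :=
  ∑ d ∈ S, ∑ h ∈ Ioc y (y + H), vv a X (d * m - h)

/-- The multiples of `d` in `(n + y, n + y + H]`, as shifts `h`. -/
def mul (n d y H : ℕ) : Finset ℕ := (Ioc y (y + H)).filter (fun h => d ∣ n + h)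

/-- The windows of length `M`: the sum over the classes `s` of the normalised sums. -/
noncomputable def BB (q : ℕ) (b : ℕ → ℝ) (M j : ℕ) : ℝ :=
  (1 / (M : ℝ)) * ∑ s ∈ range q, |∑ i ∈ Icc 1 M, b (s + ArithmeticFunction.cardFactors (j + i))|

/-- The functions of `Ω mod q` with mean zero. -/
structure Per (q : ℕ) (b : ℕ → ℝ) : Prop where
  pos : 1 ≤ q
  le : ∀ m, |b m| ≤ 1
  per : ∀ m, b (m + q) = b m
  zero : ∑ i ∈ range q, b i = 0

theorem vv_nonneg {k : ℕ} (a : Fin k → ℕ) (X n : ℕ) : 0 ≤ vv a X n := by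
  unfold vv
  split_ifs <;> norm_num

theorem vv_le_one {k : ℕ} (a : Fin k → ℕ) (X n : ℕ) : vv a X n ≤ 1 := by
  unfold vv
  split_ifs <;> norm_num

theorem vv_zero {k : ℕ} (a : Fin k → ℕ) (X : ℕ) : vv a X 0 = 0 := by
  unfold vv
  rw [if_neg]
  rintro ⟨h, _⟩
  omega

theorem vv_pos_iff {k : ℕ} {a : Fin k → ℕ} {X n : ℕ} :
    vv a X n ≠ 0 ↔ 1 ≤ n ∧ n ≤ X ∧ ∀ i, (n + a i).Prime := by
  unfold vv
  split_ifs with h
  · exact ⟨fun _ => h, fun _ => one_ne_zero⟩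
  · exact ⟨fun h' => absurd rfl h', fun h' => absurd h' h⟩

theorem NN_nonneg {k : ℕ} (a : Fin k → ℕ) (X : ℕ) (S : Finset ℕ) (y H m : ℕ) :
    0 ≤ NN a X S y H m :=
  Finset.sum_nonneg fun _ _ => Finset.sum_nonneg fun _ _ => vv_nonneg _ _ _

theorem BB_nonneg (q : ℕ) (b : ℕ → ℝ) (M j : ℕ) : 0 ≤ BB q b M j := by
  unfold BB
  exact mul_nonneg (by positivity) (Finset.sum_nonneg fun _ _ => abs_nonneg _)

end Pool.Agent.Helper8.DW
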