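import Pool.Agent.Helper8.DW.Root

/-!
# DW-2: the sum over the pairs of shifts

Let `g = gcd d d'`, `d = g e`, `d' = g e'`.  Then `d' (h - u) - d (h' - u') = g τ`, `τ = e' (h - u) - e (h' - u')`, and
`W (|g τ|) ≤ W g * W |τ|` (`W_mul_le`, `Int.natAbs_mul`).  Group the pairs `(h, h')` by `τ`
(`Finset.sum_comp` or `Finset.sum_fiberwise_of_maps_to`):
* for fixed `τ` the class of `h` modulo `e` is fixed (`e' h ≡ τ + e' u (mod e)`, `gcd e e' = 1`) and `h'` is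
  determined by `h`; so there are at most `H / e + 1 ≤ 3 H / e` pairs (`e ≤ d ≤ 2 H`);
* `τ` lies in an interval `Ioc z (z + N)` of integers with `N = (e + e') * H + 1 ≤ 4 e H` (`e' ≤ 2 e` as `d' ≤ 2 d`):
  `h - u` runs over an interval of `H` integers and `h' - u'` too.  Sizes: `|τ| ≤ 2 * Y * (2 * Y + Y)`, all below `Y ^ 5` for `Y ≥ 2`
  (`6 Y ^ 2 ≤ Y ^ 5` holds for `Y ≥ 2`: `Y ^ 3 ≥ 8`), `N ≤ 2 * Y * H + 1 ≤ 4 Y ^ 2 + 1 ≤ Y ^ 5`; take `z = min value - 1`.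
  `c log Y ≤ H ^ 2 ≤ N ^ 2`.
So the sum is at most `W g ^ p * (3 H / e) * C (4 e H + ...) ≤ C' H ^ 2 W g ^ p`.
-/

set_option autoImplicit false

namespace Pool.Agent.Helper8.DW

open Finset Pool.Agent.Helper83.HLC

private lemma fiber_card {e e' : ℕ} (he : 0 < e) (hco : Nat.Coprime e e') (y H u u' : ℕ) (t : ℤ) :
    ((Ioc y (y + H) ×ˢ Ioc y (y + H)).filter
      (fun q : ℕ × ℕ => (e' : ℤ) * ((q.1 : ℤ) - u) - e * ((q.2 : ℤ) - u') = t)).card ≤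
      H / e + 1 := by
  rw [← Finset.card_range (H / e + 1)]
  refine Finset.card_le_card_of_injOn (fun q => (q.1 - y) / e) ?_ ?_
  · intro q hq
    simp only [Finset.coe_filter, Finset.mem_product, Finset.mem_Ioc, Set.mem_ofPred_eq] at hq
    simp only [Finset.coe_range, Set.mem_Iio]
    have h1 : q.1 - y ≤ H := by omega
    have h2 := Nat.div_le_div_right (c := e) h1
    omega
  · intro a ha b hb hab
    simp only [Finset.coe_filter, Finset.mem_product, Finset.mem_Ioc, Set.mem_ofPred_eq] at ha hb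
    have hab' : (a.1 - y) / e = (b.1 - y) / e := hab
    have e1 : (e' : ℤ) * ((a.1 : ℤ) - b.1) = e * ((a.2 : ℤ) - b.2) := by
      have h1 := ha.2
      have h2 := hb.2
      linarith
    have hdvd : (e : ℤ) ∣ (a.1 : ℤ) - b.1 := by
      have h3 : (e : ℤ) ∣ (e' : ℤ) * ((a.1 : ℤ) - b.1) := ⟨_, e1⟩
      exact (Nat.Coprime.isCoprime hco).dvd_of_dvd_mul_left h3
    have hm : (a.1 - y) % e = (b.1 - y) % e := by
      have h4 : ((a.1 - y : ℕ) : ℤ) - ((b.1 - y : ℕ) : ℤ) = (a.1 : ℤ) - b.1 := by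
        rw [Nat.cast_sub (by omega), Nat.cast_sub (by omega)]
        ring
      have h5 : (b.1 - y) ≡ (a.1 - y) [MOD e] := by
        rw [Nat.modEq_iff_dvd, h4]
        exact hdvd
      exact h5.symm
    have h6 : a.1 - y = b.1 - y := by
      rw [← Nat.div_add_mod (a.1 - y) e, ← Nat.div_add_mod (b.1 - y) e, hab', hm]
    have h7 : a.1 = b.1 := by omega
    have h8 : (a.2 : ℤ) = b.2 := by
      rw [h7, sub_self, mul_zero] at e1
      have h9 : (e : ℤ) ≠ 0 := by exact_mod_cast he.ne'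
      have h10 := (mul_eq_zero.1 e1.symm).resolve_left h9
      linarith
    exact Prod.ext h7 (by exact_mod_cast h8)

private lemma size_bound {Y e e' y H u u' : ℕ} (hY : 2 ≤ Y) (hY5 : 8 * Y ^ 2 ≤ Y ^ 5)
    (he0 : 0 < e) (he0' : 0 < e') (heY : e ≤ Y) (heY' : e' ≤ Y) (hyH : y + H ≤ 2 * Y)
    (hu : u ≤ Y) (hu' : u' ≤ Y) (hH : 1 ≤ H) :
    |(e' : ℤ) * ((y : ℤ) + 1 - u) - e * ((y : ℤ) + H - u') - 1| ≤ (Y : ℤ) ^ 5 := by
  have h1 : (8 : ℤ) * Y ^ 2 ≤ Y ^ 5 := by exact_mod_cast hY5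
  have c1 : (1 : ℤ) ≤ e' := by exact_mod_cast he0'
  have c2 : (1 : ℤ) ≤ e := by exact_mod_cast he0
  have c3 : (e' : ℤ) ≤ Y := by exact_mod_cast heY'
  have c4 : (e : ℤ) ≤ Y := by exact_mod_cast heY
  have c5 : (y : ℤ) + H ≤ 2 * Y := by exact_mod_cast hyH
  have c6 : (u : ℤ) ≤ Y := by exact_mod_cast hu
  have c7 : (u' : ℤ) ≤ Y := by exact_mod_cast hu'
  have c8 : (1 : ℤ) ≤ H := by exact_mod_cast hH
  have c9 : (0 : ℤ) ≤ y := Int.natCast_nonneg y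
  have c10 : (0 : ℤ) ≤ u := Int.natCast_nonneg u
  have c11 : (0 : ℤ) ≤ u' := Int.natCast_nonneg u'
  have c12 : (2 : ℤ) ≤ Y := by exact_mod_cast hY
  have d1 : |(y : ℤ) + 1 - u| ≤ 2 * Y := by rw [abs_le]; constructor <;> linarith
  have d2 : |(y : ℤ) + H - u'| ≤ 2 * Y := by rw [abs_le]; constructor <;> linarith
  have d3 : |(e' : ℤ) * ((y : ℤ) + 1 - u)| ≤ Y * (2 * Y) := by
    rw [abs_mul, abs_of_nonneg (by linarith : (0 : ℤ) ≤ e')]
    exact mul_le_mul c3 d1 (abs_nonneg _) (by linarith)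
  have d4 : |(e : ℤ) * ((y : ℤ) + H - u')| ≤ Y * (2 * Y) := by
    rw [abs_mul, abs_of_nonneg (by linarith : (0 : ℤ) ≤ e)]
    exact mul_le_mul c4 d2 (abs_nonneg _) (by linarith)
  have d5 : (1 : ℤ) ≤ 4 * Y ^ 2 := by nlinarith
  have d6 : (Y : ℤ) * (2 * Y) = 2 * Y ^ 2 := by ring
  rw [d6] at d3 d4
  generalize (e' : ℤ) * ((y : ℤ) + 1 - u) = A at d3 ⊢
  generalize (e : ℤ) * ((y : ℤ) + H - u') = B at d4 ⊢
  rw [abs_le] at d3 d4 ⊢
  constructor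
  · linarith [d3.1, d4.2]
  · linarith [d3.2, d4.1]

private lemma range_bound {e e' y H u u' a b : ℤ} (he0 : 1 ≤ e) (he0' : 1 ≤ e')
    (a1 : y + 1 ≤ a) (a2 : a ≤ y + H) (a3 : y + 1 ≤ b) (a4 : b ≤ y + H) :
    e' * (y + 1 - u) - e * (y + H - u') - 1 < e' * (a - u) - e * (b - u') ∧
      e' * (a - u) - e * (b - u') ≤
        e' * (y + 1 - u) - e * (y + H - u') - 1 + (e + e') * H := by
  have h1 := mul_le_mul_of_nonneg_left (show y + 1 - u ≤ a - u by linarith)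
    (by linarith : (0 : ℤ) ≤ e')
  have h2 := mul_le_mul_of_nonneg_left (show b - u' ≤ y + H - u' by linarith)
    (by linarith : (0 : ℤ) ≤ e)
  have h3 := mul_le_mul_of_nonneg_left (show a - u ≤ y + H - u by linarith)
    (by linarith : (0 : ℤ) ≤ e')
  have h4 := mul_le_mul_of_nonneg_left (show y + 1 - u' ≤ b - u' by linarith)
    (by linarith : (0 : ℤ) ≤ e)
  constructor
  · linarith
  · have h5 : e' * (y + H - u) = e' * (y + 1 - u) + e' * H - e' := by ring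
    have h6 : e * (y + 1 - u') = e * (y + H - u') - e * H + e := by ring
    have h7 : (e + e') * H = e * H + e' * H := by ring
    linarith

theorem pair_sum (p : ℕ) (c : ℝ) (hc : 0 < c) : ∃ C : ℝ, 0 < C ∧ ∀ Y : ℕ, 2 ≤ Y → ∀ y H d d' : ℕ,
    1 ≤ H → c * Real.log Y ≤ (H : ℝ) ^ 2 → 1 ≤ d → 1 ≤ d' → d ≤ 2 * H → d' ≤ 2 * d → d ≤ Y → d' ≤ Y →
    y + H ≤ 2 * Y → ∀ u u' : ℕ, u ≤ Y → u' ≤ Y →
      ∑ h ∈ Ioc y (y + H), ∑ h' ∈ Ioc y (y + H),
        W ((d' : ℤ) * ((h : ℤ) - u) - d * ((h' : ℤ) - u')).natAbs ^ p ≤ C * H ^ 2 * W (Nat.gcd d d') ^ p := by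
  obtain ⟨C₀, hC₀, h0⟩ := sum_W_int p c hc
  refine ⟨9 * C₀, by positivity, ?_⟩
  intro Y hY y H d d' hH hcH hd hd' hdH hdd hdY hdY' hyH u u' hu hu'
  obtain ⟨g, hg⟩ : ∃ g, g = Nat.gcd d d' := ⟨_, rfl⟩
  have hg0 : 0 < g := hg ▸ Nat.gcd_pos_of_pos_left _ (by omega)
  obtain ⟨e, he⟩ : g ∣ d := hg ▸ Nat.gcd_dvd_left _ _
  obtain ⟨e', he'⟩ : g ∣ d' := hg ▸ Nat.gcd_dvd_right _ _
  have hco : Nat.Coprime e e' := by
    have h1 := Nat.coprime_div_gcd_div_gcd (m := d) (n := d') (hg ▸ hg0)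
    rw [← hg] at h1
    have h2 : d / g = e := by rw [he, Nat.mul_div_cancel_left _ hg0]
    have h3 : d' / g = e' := by rw [he', Nat.mul_div_cancel_left _ hg0]
    rwa [h2, h3] at h1
  have he0 : 0 < e := by
    rcases Nat.eq_zero_or_pos e with h | h
    · rw [h, mul_zero] at he; omega
    · exact h
  have he0' : 0 < e' := by
    rcases Nat.eq_zero_or_pos e' with h | h
    · rw [h, mul_zero] at he'; omega
    · exact h
  have hee : e' ≤ 2 * e := by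
    have h1 : g * e' ≤ g * (2 * e) := by
      calc g * e' = d' := he'.symm
        _ ≤ 2 * d := hdd
        _ = g * (2 * e) := by rw [he]; ring
    exact Nat.le_of_mul_le_mul_left h1 hg0
  have hed : e ≤ d := by rw [he]; exact Nat.le_mul_of_pos_left _ hg0
  have hed' : e' ≤ d' := by rw [he']; exact Nat.le_mul_of_pos_left _ hg0
  have heY : e ≤ Y := hed.trans hdY
  have heY' : e' ≤ Y := hed'.trans hdY'
  have heH : e ≤ 2 * H := hed.trans hdH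
  rw [← hg]
  -- the function τ
  let τ : ℕ × ℕ → ℤ := fun q => (e' : ℤ) * ((q.1 : ℤ) - u) - e * ((q.2 : ℤ) - u')
  have hW0 : ∀ m : ℕ, 0 ≤ W m := fun m => zero_le_one.trans (one_le_W m)
  have hτ : ∀ q : ℕ × ℕ, ((d' : ℤ) * ((q.1 : ℤ) - u) - d * ((q.2 : ℤ) - u')).natAbs =
      g * (τ q).natAbs := by
    intro q
    have h1 : (d' : ℤ) * ((q.1 : ℤ) - u) - d * ((q.2 : ℤ) - u') = (g : ℤ) * τ q := by
      simp only [τ]
      rw [he, he']
      push_cast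
      ring
    rw [h1, Int.natAbs_mul, Int.natAbs_natCast]
  have step1 : ∑ h ∈ Ioc y (y + H), ∑ h' ∈ Ioc y (y + H),
      W ((d' : ℤ) * ((h : ℤ) - u) - d * ((h' : ℤ) - u')).natAbs ^ p ≤
      W g ^ p * ∑ q ∈ Ioc y (y + H) ×ˢ Ioc y (y + H), W (τ q).natAbs ^ p := by
    rw [← Finset.sum_product', Finset.mul_sum]
    refine Finset.sum_le_sum fun q _ => ?_
    rw [hτ q, ← mul_pow]
    exact pow_le_pow_left₀ (hW0 _) (W_mul_le _ _) p
  -- the interval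
  obtain ⟨z, hz⟩ : ∃ z : ℤ, z = (e' : ℤ) * ((y : ℤ) + 1 - u) - e * ((y : ℤ) + H - u') - 1 :=
    ⟨_, rfl⟩
  obtain ⟨N, hN⟩ : ∃ N : ℕ, N = (e + e') * H := ⟨_, rfl⟩
  have hmaps : ∀ q ∈ Ioc y (y + H) ×ˢ Ioc y (y + H), τ q ∈ Ioc z (z + N) := by
    intro q hq
    rw [Finset.mem_product, Finset.mem_Ioc, Finset.mem_Ioc] at hq
    obtain ⟨⟨h1, h2⟩, h3, h4⟩ := hq
    have a1 : (y : ℤ) + 1 ≤ q.1 := by exact_mod_cast h1
    have a2 : (q.1 : ℤ) ≤ y + H := by exact_mod_cast h2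
    have a3 : (y : ℤ) + 1 ≤ q.2 := by exact_mod_cast h3
    have a4 : (q.2 : ℤ) ≤ y + H := by exact_mod_cast h4
    have b2 : (1 : ℤ) ≤ e' := by exact_mod_cast he0'
    have b3 : (1 : ℤ) ≤ e := by exact_mod_cast he0
    have b4 := range_bound (u := u) (u' := u') b3 b2 a1 a2 a3 a4
    rw [Finset.mem_Ioc, hz, hN]
    push_cast
    exact b4
  have step2 : ∑ q ∈ Ioc y (y + H) ×ˢ Ioc y (y + H), W (τ q).natAbs ^ p ≤
      ((H / e + 1 : ℕ) : ℝ) * ∑ t ∈ Ioc z (z + N), W t.natAbs ^ p := by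
    rw [← Finset.sum_fiberwise_of_maps_to hmaps, Finset.mul_sum]
    refine Finset.sum_le_sum fun t _ => ?_
    have h1 : ∑ q ∈ (Ioc y (y + H) ×ˢ Ioc y (y + H)).filter (fun q => τ q = t),
        W (τ q).natAbs ^ p = ∑ q ∈ (Ioc y (y + H) ×ˢ Ioc y (y + H)).filter (fun q => τ q = t),
        W t.natAbs ^ p := by
      refine Finset.sum_congr rfl fun q hq => ?_
      rw [(Finset.mem_filter.1 hq).2]
    rw [h1, Finset.sum_const, nsmul_eq_mul]
    refine mul_le_mul_of_nonneg_right ?_ (pow_nonneg (hW0 _) _)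
    exact Nat.cast_le.2 (fiber_card he0 hco y H u u' t)
  have hH2Y : H ≤ 2 * Y := by omega
  have hY5 : 8 * Y ^ 2 ≤ Y ^ 5 := by
    have h1 : 8 ≤ Y ^ 3 := by
      calc 8 = 2 ^ 3 := by norm_num
        _ ≤ Y ^ 3 := Nat.pow_le_pow_left hY 3
    calc 8 * Y ^ 2 ≤ Y ^ 3 * Y ^ 2 := Nat.mul_le_mul_right _ h1
      _ = Y ^ 5 := by ring
  have hN1 : 1 ≤ N := by
    rw [hN]
    exact Nat.mul_pos (by omega) (by omega)
  have hNH : H ≤ N := by
    rw [hN]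
    exact Nat.le_mul_of_pos_left _ (by omega)
  have hNY : N ≤ Y ^ 5 := by
    refine le_trans ?_ hY5
    rw [hN]
    calc (e + e') * H ≤ (Y + Y) * (2 * Y) := Nat.mul_le_mul (by omega) hH2Y
      _ = 4 * Y ^ 2 := by ring
      _ ≤ 8 * Y ^ 2 := by omega
  have hzY : |z| ≤ (Y : ℤ) ^ 5 := by
    rw [hz]
    exact size_bound hY hY5 he0 he0' heY heY' hyH hu hu' hH
  have hcN : c * Real.log Y ≤ (N : ℝ) ^ 2 := by
    refine hcH.trans ?_
    have h1 : (H : ℝ) ≤ N := by exact_mod_cast hNH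
    exact pow_le_pow_left₀ (Nat.cast_nonneg _) h1 2
  have step3 := h0 Y hY z N hzY hNY hcN hN1
  -- assembly
  have hNe : (N : ℝ) ≤ 3 * e * H := by
    have h1 : N ≤ 3 * e * H := by
      rw [hN]
      exact Nat.mul_le_mul_right _ (by omega)
    exact_mod_cast h1
  have hHe : ((H / e + 1 : ℕ) : ℝ) * e ≤ 3 * H := by
    have h1 : (H / e + 1) * e ≤ 3 * H := by
      have h2 := Nat.div_mul_le_self H e
      calc (H / e + 1) * e = H / e * e + e := by ring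
        _ ≤ H + 2 * H := by omega
        _ = 3 * H := by ring
    exact_mod_cast h1
  have hsum : ((H / e + 1 : ℕ) : ℝ) * ∑ t ∈ Ioc z (z + N), W t.natAbs ^ p ≤ 9 * C₀ * H ^ 2 := by
    calc ((H / e + 1 : ℕ) : ℝ) * ∑ t ∈ Ioc z (z + N), W t.natAbs ^ p
        ≤ ((H / e + 1 : ℕ) : ℝ) * (C₀ * N) := mul_le_mul_of_nonneg_left step3 (by positivity)
      _ ≤ ((H / e + 1 : ℕ) : ℝ) * (C₀ * (3 * e * H)) := by gcongr
      _ = 3 * C₀ * H * (((H / e + 1 : ℕ) : ℝ) * e) := by ring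
      _ ≤ 3 * C₀ * H * (3 * H) := by gcongr
      _ = 9 * C₀ * H ^ 2 := by ring
  calc _ ≤ W g ^ p * ∑ q ∈ Ioc y (y + H) ×ˢ Ioc y (y + H), W (τ q).natAbs ^ p := step1
    _ ≤ W g ^ p * (9 * C₀ * H ^ 2) :=
      mul_le_mul_of_nonneg_left (step2.trans hsum) (pow_nonneg (hW0 _) _)
    _ = 9 * C₀ * H ^ 2 * W g ^ p := by ring

end Pool.Agent.Helper8.DW
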