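import Pool.Agent.Helper8.DW.Avg

/-!
# DW-16: products `e = d p`, `d ∈ [D, 2 D)`, `p` in a set `S` of primes of `[B, 2 B)`

The pairs `(d, p)` are split according to their rank, the number of primes of `S` which divide `d` and are smaller than `p`.
For pairs of fixed rank the map `(d, p) ↦ d p` is injective; few pairs have rank `≥ I`.
-/

set_option autoImplicit false

namespace Pool.Agent.Helper8.DW

open Finset Pool.Agent.Helper83.HLC

/-- The rank of a pair `(d, p)`. -/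
def rk (S : Finset ℕ) (x : ℕ × ℕ) : ℕ := (S.filter (fun p' => p' ∣ x.1 ∧ p' < x.2)).card

private theorem dvd_swap {S : Finset ℕ} (hS : ∀ p ∈ S, p.Prime) {x y : ℕ × ℕ} (hy : y.2 ∈ S)
    (h : x.1 * x.2 = y.1 * y.2) {p : ℕ} (hp : p ∈ S) (hpy : p < y.2) (hd : p ∣ x.1 * x.2) : p ∣ y.1 := by
  rw [h] at hd
  rcases (hS p hp).dvd_mul.1 hd with h1 | h1
  · exact h1
  · have := (Nat.prime_dvd_prime_iff_eq (hS p hp) (hS _ hy)).1 h1
    omega

private theorem rk_lt {S : Finset ℕ} (hS : ∀ p ∈ S, p.Prime) {x y : ℕ × ℕ} (hx : x.2 ∈ S) (hy : y.2 ∈ S)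
    (h : x.1 * x.2 = y.1 * y.2) (hlt : x.2 < y.2) : rk S x < rk S y := by
  unfold rk
  refine Finset.card_lt_card ⟨?_, ?_⟩
  · intro p hp
    rw [Finset.mem_filter] at hp ⊢
    refine ⟨hp.1, ?_, hp.2.2.trans hlt⟩
    exact dvd_swap hS hy h hp.1 (hp.2.2.trans hlt) (hp.2.1.mul_right _)
  · intro hsub
    have h1 : x.2 ∈ S.filter (fun p' => p' ∣ y.1 ∧ p' < y.2) := by
      rw [Finset.mem_filter]
      exact ⟨hx, dvd_swap hS hy h hx hlt (Dvd.intro_left _ rfl), hlt⟩
    have h2 := (Finset.mem_filter.1 (hsub h1)).2.2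
    omega

private theorem rk_inj {S : Finset ℕ} (hS : ∀ p ∈ S, p.Prime) {x y : ℕ × ℕ} (hx : x.2 ∈ S) (hy : y.2 ∈ S)
    (h : x.1 * x.2 = y.1 * y.2) (hr : rk S x = rk S y) : x = y := by
  rcases lt_trichotomy x.2 y.2 with h1 | h1 | h1
  · have := rk_lt hS hx hy h h1
    omega
  · rw [h1] at h
    exact Prod.ext (Nat.eq_of_mul_eq_mul_right (hS _ hy).pos h) h1
  · have := rk_lt hS hy hx h.symm h1
    omega

/-- The products of the pairs of rank `i`. -/
def Ei (A S : Finset ℕ) (i : ℕ) : Finset ℕ := ((A ×ˢ S).filter (fun x => rk S x = i)).image (fun x => x.1 * x.2)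

theorem split_rank (A S : Finset ℕ) (hS : ∀ p ∈ S, p.Prime) (I : ℕ) (F : ℕ → ℝ) :
    ∑ x ∈ A ×ˢ S, F (x.1 * x.2) = ∑ i ∈ range I, ∑ e ∈ Ei A S i, F e +
      ∑ x ∈ (A ×ˢ S).filter (fun x => I ≤ rk S x), F (x.1 * x.2) := by
  have h1 : ∀ i ∈ range I, ∑ e ∈ Ei A S i, F e =
      ∑ x ∈ ((A ×ˢ S).filter (fun x => rk S x < I)).filter (fun x => rk S x = i), F (x.1 * x.2) := by
    intro i hi
    rw [Finset.mem_range] at hi
    unfold Ei
    rw [Finset.sum_image]
    · rw [Finset.filter_filter]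
      refine Finset.sum_congr (Finset.filter_congr fun x _ => ?_) fun _ _ => rfl
      constructor
      · intro h
        exact ⟨by omega, h⟩
      · intro h
        exact h.2
    · intro x hx y hy h
      have hx' := Finset.mem_filter.1 hx
      have hy' := Finset.mem_filter.1 hy
      exact rk_inj hS (Finset.mem_product.1 hx'.1).2 (Finset.mem_product.1 hy'.1).2 h (hx'.2.trans hy'.2.symm)
  rw [Finset.sum_congr rfl h1, Finset.sum_fiberwise_of_maps_to (g := rk S)
    (fun x hx => Finset.mem_range.2 (Finset.mem_filter.1 hx).2),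
    ← Finset.sum_filter_add_sum_filter_not (A ×ˢ S) (fun x => rk S x < I)]
  congr 1
  exact Finset.sum_congr (Finset.filter_congr fun x _ => not_lt) fun _ _ => rfl

private theorem mult_le (A : Finset ℕ) (D p : ℕ) (_hD : 1 ≤ D) (hA : A ⊆ Ico D (2 * D)) :
    (((A.filter (fun d => p ∣ d)).card : ℕ) : ℝ) ≤ 2 * D / p := by
  have h1 : A.filter (fun d => p ∣ d) ⊆ (Ioc 0 (2 * D)).filter (fun d => p ∣ d) := by
    intro d hd
    rw [Finset.mem_filter] at hd ⊢
    have := Finset.mem_Ico.1 (hA hd.1)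
    refine ⟨Finset.mem_Ioc.2 ⟨?_, ?_⟩, hd.2⟩ <;> omega
  have h2 := Finset.card_le_card h1
  rw [Nat.Ioc_filter_dvd_card_eq_div] at h2
  calc (((A.filter (fun d => p ∣ d)).card : ℕ) : ℝ) ≤ ((2 * D / p : ℕ) : ℝ) := by exact_mod_cast h2
    _ ≤ ((2 * D : ℕ) : ℝ) / p := Nat.cast_div_le
    _ = _ := by push_cast; rfl

/-- Few pairs have large rank. -/
theorem card_rank (A S : Finset ℕ) (D B I : ℕ) (hD : 1 ≤ D) (hB : 1 ≤ B) (hA : A ⊆ Ico D (2 * D))
    (hS : S ⊆ Ico B (2 * B)) :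
    ((((A ×ˢ S).filter (fun x => I ≤ rk S x)).card : ℕ) : ℝ) * I ≤ 2 * D * S.card := by
  have hB0 : (0 : ℝ) < B := by exact_mod_cast hB
  have hScard : (S.card : ℝ) ≤ B := by
    have h1 := Finset.card_le_card hS
    rw [Nat.card_Ico] at h1
    have h2 : S.card ≤ B := by omega
    exact_mod_cast h2
  have h1 : ((((A ×ˢ S).filter (fun x => I ≤ rk S x)).card : ℕ) : ℝ) * I ≤
      ∑ x ∈ A ×ˢ S, (((S.filter (fun p => p ∣ x.1)).card : ℕ) : ℝ) := by
    calc ((((A ×ˢ S).filter (fun x => I ≤ rk S x)).card : ℕ) : ℝ) * I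
        = ∑ _x ∈ (A ×ˢ S).filter (fun x => I ≤ rk S x), (I : ℝ) := by
          rw [Finset.sum_const, nsmul_eq_mul]
      _ ≤ ∑ x ∈ (A ×ˢ S).filter (fun x => I ≤ rk S x), (((S.filter (fun p => p ∣ x.1)).card : ℕ) : ℝ) := by
          refine Finset.sum_le_sum fun x hx => ?_
          have h2 := (Finset.mem_filter.1 hx).2
          have h3 : rk S x ≤ (S.filter (fun p => p ∣ x.1)).card := by
            unfold rk
            refine Finset.card_le_card fun p hp => ?_
            rw [Finset.mem_filter] at hp ⊢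
            exact ⟨hp.1, hp.2.1⟩
          exact_mod_cast h2.trans h3
      _ ≤ _ := Finset.sum_le_sum_of_subset_of_nonneg (Finset.filter_subset _ _) fun _ _ _ => Nat.cast_nonneg _
  refine h1.trans ?_
  rw [Finset.sum_product]
  simp only [Finset.sum_const, nsmul_eq_mul]
  rw [← Finset.mul_sum]
  have h2 : ∑ d ∈ A, (((S.filter (fun p => p ∣ d)).card : ℕ) : ℝ) =
      ∑ p ∈ S, (((A.filter (fun d => p ∣ d)).card : ℕ) : ℝ) := by
    simp only [Finset.card_filter]
    push_cast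
    rw [Finset.sum_comm]
  have h3 : ∑ p ∈ S, (((A.filter (fun d => p ∣ d)).card : ℕ) : ℝ) ≤ 2 * D := by
    calc ∑ p ∈ S, (((A.filter (fun d => p ∣ d)).card : ℕ) : ℝ) ≤ ∑ _p ∈ S, 2 * (D : ℝ) / B := by
          refine Finset.sum_le_sum fun p hp => (mult_le A D p hD hA).trans ?_
          have h4 := (Finset.mem_Ico.1 (hS hp)).1
          exact div_le_div_of_nonneg_left (by positivity) hB0 (by exact_mod_cast h4)
      _ = 2 * D * (S.card / B) := by rw [Finset.sum_const, nsmul_eq_mul]; ring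
      _ ≤ 2 * D * 1 := mul_le_mul_of_nonneg_left ((div_le_one hB0).2 hScard) (by positivity)
      _ = 2 * D := mul_one _
  rw [h2, mul_comm]
  exact mul_le_mul_of_nonneg_right h3 (Nat.cast_nonneg _)

/-- `final` together with the trivial bound for small sets. -/
theorem set_bound {k : ℕ} (a : Fin k → ℕ) (ha : Function.Injective a) {q : ℕ} {b : ℕ → ℝ} (hb : Per q b) (C0 ε : ℝ)
    (hε : 0 < ε) : ∃ H0 X0 : ℕ, ∀ X : ℕ, X0 ≤ X → ∀ D H y : ℕ, 1 ≤ D → D ^ 2 ≤ X → H0 * D ≤ H → D ≤ H → H ≤ X → y ≤ X →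
      ∀ E ⊆ Ico D (2 * D), (∀ d ∈ E, (d : ℝ) ≤ C0 * Nat.totient d) → ∀ N : ℝ, (E.card : ℝ) ≤ N →
      Real.log X ^ k ≤ N * H → ∑ n ∈ Icc 1 X, GG a n * ∑ d ∈ E, Tm b y H n d ≤ ε * (N / D) * H * X := by
  obtain ⟨C, hC, X1, hGG⟩ := sum_GG a ha
  obtain ⟨H0, X2, hF⟩ := final a ha hb C0 (ε / (2 * C)) ε (by positivity) hε
  refine ⟨H0, max X1 X2, fun X hX D H y hD hDX hHD hDH hHX hyX E hE hφ N hN hlog => ?_⟩
  have hD0 : (0 : ℝ) < D := by exact_mod_cast hD
  have hN0 : 0 ≤ N := (Nat.cast_nonneg _).trans hN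
  have hsum := hGG X ((le_max_left _ _).trans hX)
  by_cases hrich : ε / (2 * C) * Real.log X ^ k ≤ (E.card : ℝ) * H
  · have h1 := hF X ((le_max_right _ _).trans hX) D H y hD hDX hHD hHX hyX E hE hφ hrich
    unfold Tm
    refine h1.trans ?_
    have h2 : (E.card : ℝ) / D ≤ N / D := div_le_div_of_nonneg_right hN hD0.le
    exact mul_le_mul_of_nonneg_right (mul_le_mul_of_nonneg_right (mul_le_mul_of_nonneg_left h2 hε.le)
      (Nat.cast_nonneg _)) (Nat.cast_nonneg _)
  · rw [not_le] at hrich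
    have hHR : (0 : ℝ) < H := by
      have : 0 < H := lt_of_lt_of_le hD hDH
      exact_mod_cast this
    have h1 : (E.card : ℝ) ≤ ε / (2 * C) * N := by
      have h2 : (E.card : ℝ) * H ≤ (ε / (2 * C) * N) * H := by
        calc (E.card : ℝ) * H ≤ ε / (2 * C) * Real.log X ^ k := hrich.le
          _ ≤ ε / (2 * C) * (N * H) := mul_le_mul_of_nonneg_left hlog (by positivity)
          _ = _ := by ring
      exact le_of_mul_le_mul_right h2 hHR
    have hT : ∀ n ∈ Icc 1 X, GG a n * ∑ d ∈ E, Tm b y H n d ≤ GG a n * ((E.card : ℝ) * (2 * H / D)) := by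
      intro n _
      refine mul_le_mul_of_nonneg_left ?_ (GG_nonneg a n)
      calc ∑ d ∈ E, Tm b y H n d ≤ ∑ _d ∈ E, 2 * (H : ℝ) / D :=
            Finset.sum_le_sum fun d hd => Tm_le hb y H n d D hD (Finset.mem_Ico.1 (hE hd)).1 hDH
        _ = _ := by rw [Finset.sum_const, nsmul_eq_mul]
    calc ∑ n ∈ Icc 1 X, GG a n * ∑ d ∈ E, Tm b y H n d
        ≤ ∑ n ∈ Icc 1 X, GG a n * ((E.card : ℝ) * (2 * H / D)) := Finset.sum_le_sum hT
      _ = (∑ n ∈ Icc 1 X, GG a n) * ((E.card : ℝ) * (2 * H / D)) := by rw [Finset.sum_mul]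
      _ ≤ (C * X) * ((ε / (2 * C) * N) * (2 * H / D)) :=
          mul_le_mul hsum (mul_le_mul_of_nonneg_right h1 (by positivity)) (by positivity) (by positivity)
      _ = ε * (N / D) * H * X := by
          field_simp

theorem pairs_bound {k : ℕ} (a : Fin k → ℕ) (ha : Function.Injective a) {q : ℕ} {b : ℕ → ℝ} (hb : Per q b) (C0 ε : ℝ)
    (hC0 : 0 ≤ C0) (hε : 0 < ε) : ∃ H0 X0 : ℕ, ∀ X : ℕ, X0 ≤ X → ∀ D B H y : ℕ, 1 ≤ D → 1 ≤ B → (2 * (B * D)) ^ 2 ≤ X →
      H0 * (2 * (B * D)) ≤ H → 2 * (B * D) ≤ H → H ≤ X → y ≤ X →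
      ∀ A ⊆ Ico D (2 * D), (∀ d ∈ A, (d : ℝ) ≤ C0 * Nat.totient d) →
      ∀ S ⊆ Ico B (2 * B), (∀ p ∈ S, p.Prime) → Real.log X ^ k ≤ D * S.card * H →
      ∑ n ∈ Icc 1 X, GG a n * ∑ d ∈ A, ∑ p ∈ S, Tm b y H n (d * p) ≤ ε * (S.card / B) * H * X := by
  obtain ⟨C, hC, X1, hGG⟩ := sum_GG a ha
  obtain ⟨I, hI⟩ := exists_nat_ge (8 * C / ε)
  have hI0 : (0 : ℝ) < I := lt_of_lt_of_le (by positivity) hI
  obtain ⟨H0, X2, hF⟩ := set_bound a ha hb (2 * C0) (ε / (4 * I)) (by positivity)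
  refine ⟨H0, max X1 X2, fun X hX D B H y hD hB hDX hHD hDH hHX hyX A hA hφ S hS hSp hlog => ?_⟩
  have hD0 : (0 : ℝ) < D := by exact_mod_cast hD
  have hB0 : (0 : ℝ) < B := by exact_mod_cast hB
  have hBD : 1 ≤ B * D := Nat.mul_pos hB hD
  have hsum := hGG X ((le_max_left _ _).trans hX)
  have hAcard : (A.card : ℝ) ≤ D := by
    have h1 := Finset.card_le_card hA
    rw [Nat.card_Ico] at h1
    have h2 : A.card ≤ D := by omega
    exact_mod_cast h2
  -- the sets `Ei`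
  have hEmem : ∀ i, ∀ e ∈ Ei A S i, B * D ≤ e ∧ e < 2 * (2 * (B * D)) ∧ (e : ℝ) ≤ 2 * C0 * Nat.totient e := by
    intro i e he
    unfold Ei at he
    rw [Finset.mem_image] at he
    obtain ⟨x, hx, rfl⟩ := he
    have hx1 := Finset.mem_product.1 (Finset.mem_filter.1 hx).1
    have h1 := Finset.mem_Ico.1 (hA hx1.1)
    have h2 := Finset.mem_Ico.1 (hS hx1.2)
    have hp := hSp _ hx1.2
    refine ⟨?_, ?_, ?_⟩
    · rw [mul_comm B D]
      exact Nat.mul_le_mul h1.1 h2.1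
    · calc x.1 * x.2 < (2 * D) * (2 * B) := Nat.mul_lt_mul'' h1.2 h2.2
        _ = _ := by ring
    · have h3 := hφ _ hx1.1
      have h4 : (x.2 : ℝ) ≤ 2 * ((x.2 - 1 : ℕ) : ℝ) := by
        have h5 := hp.two_le
        rw [Nat.cast_sub (by omega), Nat.cast_one]
        have h6 : (2 : ℝ) ≤ x.2 := by exact_mod_cast h5
        linarith
      have h5 : ((x.1.totient * (x.2 - 1) : ℕ) : ℝ) ≤ ((x.1 * x.2).totient : ℝ) := by
        have h6 := Nat.totient_super_multiplicative x.1 x.2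
        rw [Nat.totient_prime hp] at h6
        exact_mod_cast h6
      push_cast at h5 ⊢
      calc (x.1 : ℝ) * x.2 ≤ (C0 * x.1.totient) * (2 * ((x.2 - 1 : ℕ) : ℝ)) :=
            mul_le_mul h3 h4 (Nat.cast_nonneg _) (by positivity)
        _ = 2 * C0 * ((x.1.totient : ℝ) * ((x.2 - 1 : ℕ) : ℝ)) := by ring
        _ ≤ 2 * C0 * ((x.1 * x.2).totient : ℝ) := mul_le_mul_of_nonneg_left h5 (by positivity)
  have hEcard : ∀ i, ((Ei A S i).card : ℝ) ≤ D * S.card := by
    intro i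
    have h1 : (Ei A S i).card ≤ A.card * S.card := by
      unfold Ei
      refine Finset.card_image_le.trans ((Finset.card_filter_le _ _).trans (le_of_eq ?_))
      rw [Finset.card_product]
    calc ((Ei A S i).card : ℝ) ≤ (A.card : ℝ) * S.card := by exact_mod_cast h1
      _ ≤ D * S.card := mul_le_mul_of_nonneg_right hAcard (Nat.cast_nonneg _)
  have hE : ∀ i, ∑ n ∈ Icc 1 X, GG a n * ∑ e ∈ Ei A S i, Tm b y H n e ≤ ε / (2 * I) * (S.card / B) * H * X := by
    intro i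
    have h1 := hF X ((le_max_right _ _).trans hX) (B * D) H y hBD
      (le_trans (Nat.pow_le_pow_left (by omega) 2) hDX) (le_trans (Nat.mul_le_mul_left _ (by omega)) hHD)
      (by omega) hHX hyX ((Ei A S i).filter (fun e => e < 2 * (B * D)))
      (fun e he => by
        rw [Finset.mem_filter] at he
        exact Finset.mem_Ico.2 ⟨(hEmem i e he.1).1, he.2⟩)
      (fun e he => (hEmem i e (Finset.mem_filter.1 he).1).2.2) (D * S.card)
      (le_trans (by exact_mod_cast Finset.card_filter_le _ _) (hEcard i)) hlog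
    have h2 := hF X ((le_max_right _ _).trans hX) (2 * (B * D)) H y (by omega) hDX hHD hDH hHX hyX
      ((Ei A S i).filter (fun e => ¬ e < 2 * (B * D)))
      (fun e he => by
        rw [Finset.mem_filter, not_lt] at he
        exact Finset.mem_Ico.2 ⟨he.2, (hEmem i e he.1).2.1⟩)
      (fun e he => (hEmem i e (Finset.mem_filter.1 he).1).2.2) (D * S.card)
      (le_trans (by exact_mod_cast Finset.card_filter_le _ _) (hEcard i)) hlog
    have h3 : ∑ n ∈ Icc 1 X, GG a n * ∑ e ∈ Ei A S i, Tm b y H n e =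
        ∑ n ∈ Icc 1 X, GG a n * ∑ e ∈ (Ei A S i).filter (fun e => e < 2 * (B * D)), Tm b y H n e +
          ∑ n ∈ Icc 1 X, GG a n * ∑ e ∈ (Ei A S i).filter (fun e => ¬ e < 2 * (B * D)), Tm b y H n e := by
      rw [← Finset.sum_add_distrib]
      refine Finset.sum_congr rfl fun n _ => ?_
      rw [← mul_add, Finset.sum_filter_add_sum_filter_not]
    rw [h3]
    have h4 : (D : ℝ) * S.card / ((B * D : ℕ) : ℝ) = S.card / B := by
      push_cast
      field_simp
    have h5 : (D : ℝ) * S.card / ((2 * (B * D) : ℕ) : ℝ) ≤ S.card / B := by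
      rw [← h4]
      refine div_le_div_of_nonneg_left (by positivity) (by exact_mod_cast hBD) ?_
      push_cast
      have h6 : (0 : ℝ) ≤ B * D := by positivity
      linarith
    rw [h4] at h1
    have h7 : ε / (4 * I) * (D * S.card / ((2 * (B * D) : ℕ) : ℝ)) * H * X ≤ ε / (4 * I) * (S.card / B) * H * X :=
      mul_le_mul_of_nonneg_right (mul_le_mul_of_nonneg_right (mul_le_mul_of_nonneg_left h5 (by positivity))
        (Nat.cast_nonneg _)) (Nat.cast_nonneg _)
    calc _ ≤ ε / (4 * I) * (S.card / B) * H * X + ε / (4 * I) * (S.card / B) * H * X :=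
          add_le_add h1 (h2.trans h7)
      _ = ε / (2 * I) * (S.card / B) * H * X := by
          field_simp
          ring
  -- the pairs of large rank
  have hrank : ∑ n ∈ Icc 1 X, GG a n * ∑ x ∈ (A ×ˢ S).filter (fun x => I ≤ rk S x), Tm b y H n (x.1 * x.2) ≤
      ε / 2 * (S.card / B) * H * X := by
    have hcr := card_rank A S D B I hD hB hA hS
    have hT : ∀ n ∈ Icc 1 X, GG a n * ∑ x ∈ (A ×ˢ S).filter (fun x => I ≤ rk S x), Tm b y H n (x.1 * x.2) ≤
        GG a n * (((((A ×ˢ S).filter (fun x => I ≤ rk S x)).card : ℕ) : ℝ) * (2 * H / ((B * D : ℕ) : ℝ))) := by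
      intro n _
      refine mul_le_mul_of_nonneg_left ?_ (GG_nonneg a n)
      calc ∑ x ∈ (A ×ˢ S).filter (fun x => I ≤ rk S x), Tm b y H n (x.1 * x.2)
          ≤ ∑ _x ∈ (A ×ˢ S).filter (fun x => I ≤ rk S x), 2 * (H : ℝ) / ((B * D : ℕ) : ℝ) := by
            refine Finset.sum_le_sum fun x hx => Tm_le hb y H n _ (B * D) hBD ?_ (by omega)
            have hx1 := Finset.mem_product.1 (Finset.mem_filter.1 hx).1
            rw [mul_comm B D]
            exact Nat.mul_le_mul (Finset.mem_Ico.1 (hA hx1.1)).1 (Finset.mem_Ico.1 (hS hx1.2)).1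
        _ = _ := by rw [Finset.sum_const, nsmul_eq_mul]
    have hc2 : ((((A ×ˢ S).filter (fun x => I ≤ rk S x)).card : ℕ) : ℝ) ≤ 2 * D * S.card / I := by
      rw [le_div_iff₀ hI0]
      exact hcr
    calc _ ≤ ∑ n ∈ Icc 1 X, GG a n *
          (((((A ×ˢ S).filter (fun x => I ≤ rk S x)).card : ℕ) : ℝ) * (2 * H / ((B * D : ℕ) : ℝ))) :=
          Finset.sum_le_sum hT
      _ = (∑ n ∈ Icc 1 X, GG a n) *
          (((((A ×ˢ S).filter (fun x => I ≤ rk S x)).card : ℕ) : ℝ) * (2 * H / ((B * D : ℕ) : ℝ))) := by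
          rw [Finset.sum_mul]
      _ ≤ (C * X) * ((2 * D * S.card / I) * (2 * H / ((B * D : ℕ) : ℝ))) :=
          mul_le_mul hsum (mul_le_mul_of_nonneg_right hc2 (by positivity)) (by positivity) (by positivity)
      _ = (4 * C / I) * (S.card / B) * H * X := by
          push_cast
          field_simp
          ring
      _ ≤ ε / 2 * (S.card / B) * H * X := by
          have h8 : 4 * C / I ≤ ε / 2 := by
            rw [div_le_iff₀ hε] at hI
            rw [div_le_iff₀ hI0]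
            linarith
          exact mul_le_mul_of_nonneg_right (mul_le_mul_of_nonneg_right (mul_le_mul_of_nonneg_right h8 (by positivity))
            (Nat.cast_nonneg _)) (Nat.cast_nonneg _)
  have hsplit : ∑ n ∈ Icc 1 X, GG a n * ∑ d ∈ A, ∑ p ∈ S, Tm b y H n (d * p) =
      ∑ i ∈ range I, ∑ n ∈ Icc 1 X, GG a n * ∑ e ∈ Ei A S i, Tm b y H n e +
        ∑ n ∈ Icc 1 X, GG a n * ∑ x ∈ (A ×ˢ S).filter (fun x => I ≤ rk S x), Tm b y H n (x.1 * x.2) := by
    rw [Finset.sum_comm, ← Finset.sum_add_distrib]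
    refine Finset.sum_congr rfl fun n _ => ?_
    rw [← Finset.mul_sum, ← mul_add, ← split_rank A S hSp I (fun e => Tm b y H n e), Finset.sum_product]
  rw [hsplit]
  calc _ ≤ ∑ _i ∈ range I, ε / (2 * I) * (S.card / B) * H * X + ε / 2 * (S.card / B) * H * X :=
        add_le_add (Finset.sum_le_sum fun i _ => hE i) hrank
    _ = ε * (S.card / B) * H * X := by
        rw [Finset.sum_const, Finset.card_range, nsmul_eq_mul]
        field_simp
        ring

end Pool.Agent.Helper8.DW
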