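import Pool.Agent.Helper8.DW.Defs
import Pool.Agent.Helper83.HLD.SW

/-!
# DW-1: sums of `W ^ r` over intervals of length at least `√(c log Y)`

`sum_W_root`: exactly the proof of `Helper83.HLD.sum_W_short` (same file structure: copy it), only the
bound for the prime factors `p > N` of `d` changes.  There one needs
`∏_{p ∣ d, p > N} (1 + c' / p) ≤ exp (c' * K)` (`c' = 2 ^ (r + 1)`), i.e. `∑_{p ∣ d, p > N} 1 / p ≤ K` with
`K = 4 + 9 / c`:
* `N < p ≤ N ^ 2` (only for `N ≥ 2`): `∑ 1 / p ≤ (1 / log N) ∑_{p ≤ N ^ 2} log p / p ≤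
  (2 log N + log 4) / log N ≤ 4` (`Pool.Agent.Helper10.mertens_upper`, `log 4 ≤ 2 log N`);
* `p > N ^ 2`: there are at most `log d / log 2 ≤ 6 log Y / log 2 ≤ 9 log Y ≤ (9 / c) N ^ 2` prime factors
  (`Helper83.HLD.card_primeFactors_le`), each has `1 / p ≤ 1 / N ^ 2`.
`sum_W_int`: the integers of an interval: the negative ones and the positive ones are mapped by `natAbs`
injectively into an interval of naturals of length `N` (`z' + N ≤ 2 * Y ^ 5`), zero contributes `W 0 ^ r = 1`;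
so apply `sum_W_root` twice; total `≤ 2 C N + 1 ≤ (2 C + 1) N`.
-/

set_option autoImplicit false

namespace Pool.Agent.Helper8.DW

open Finset Pool.Agent.Helper83.HLC

private theorem sum_mid (N : ℕ) (hN : 1 ≤ N) (T : Finset ℕ)
    (hT : ∀ p ∈ T, p.Prime ∧ N < p ∧ p ≤ N ^ 2) : ∑ p ∈ T, (1 : ℝ) / p ≤ 4 := by
  rcases Nat.lt_or_ge N 2 with h | h
  · have hN1 : N = 1 := by omega
    subst hN1
    have hT0 : T = ∅ := by
      rw [Finset.eq_empty_iff_forall_notMem]
      intro p hp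
      have := hT p hp
      omega
    rw [hT0, Finset.sum_empty]
    norm_num
  · have hNR : (2 : ℝ) ≤ N := by exact_mod_cast h
    have hlog2 : 0 < Real.log 2 := Real.log_pos (by norm_num)
    have hlogN : Real.log 2 ≤ Real.log N := Real.log_le_log (by norm_num) hNR
    have hlogN0 : 0 < Real.log N := by linarith
    have h1 : Real.log N * ∑ p ∈ T, (1 : ℝ) / p ≤ Real.log ((N ^ 2 : ℕ) : ℝ) + Real.log 4 := by
      refine le_trans ?_ (Pool.Agent.Helper10.mertens_upper (N ^ 2) (Nat.one_le_pow _ _ (by omega)))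
      rw [Finset.mul_sum]
      have h2 : T ⊆ (Icc 1 (N ^ 2)).filter Nat.Prime := by
        intro p hp
        have h3 := hT p hp
        rw [Finset.mem_filter, Finset.mem_Icc]
        exact ⟨⟨h3.1.one_lt.le, h3.2.2⟩, h3.1⟩
      refine le_trans ?_ (Finset.sum_le_sum_of_subset_of_nonneg h2 fun p _ _ =>
        div_nonneg (Real.log_natCast_nonneg p) (Nat.cast_nonneg p))
      refine Finset.sum_le_sum fun p hp => ?_
      have h3 := hT p hp
      have hp0 : (0 : ℝ) < p := by exact_mod_cast h3.1.pos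
      have hNp : (N : ℝ) ≤ p := by exact_mod_cast h3.2.1.le
      rw [mul_one_div]
      exact div_le_div_of_nonneg_right (Real.log_le_log (by linarith) hNp) hp0.le
    have h2 : Real.log ((N ^ 2 : ℕ) : ℝ) = 2 * Real.log N := by
      rw [Nat.cast_pow, Real.log_pow]
      norm_num
    have h3 : Real.log 4 = 2 * Real.log 2 := by
      rw [show (4 : ℝ) = 2 ^ 2 by norm_num, Real.log_pow]
      norm_num
    rw [h2, h3] at h1
    have h4 : Real.log N * ∑ p ∈ T, (1 : ℝ) / p ≤ Real.log N * 4 := by linarith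
    exact le_of_mul_le_mul_left h4 hlogN0

private theorem sum_big (Y N d : ℕ) (c : ℝ) (hc : 0 < c) (hY : 2 ≤ Y) (hN : 1 ≤ N) (hd0 : d ≠ 0)
    (hd : d ≤ Y ^ 6) (hcY : c * Real.log Y ≤ (N : ℝ) ^ 2) (T : Finset ℕ)
    (hT : ∀ p ∈ T, p ∈ d.primeFactors ∧ N ^ 2 < p) : ∑ p ∈ T, (1 : ℝ) / p ≤ 9 / c := by
  have hNR : (1 : ℝ) ≤ N := by exact_mod_cast hN
  have hN2 : (0 : ℝ) < (N : ℝ) ^ 2 := by positivity
  have h1 : ∑ p ∈ T, (1 : ℝ) / p ≤ ∑ _p ∈ T, (1 : ℝ) / (N : ℝ) ^ 2 := by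
    refine Finset.sum_le_sum fun p hp => ?_
    have h2 : ((N : ℝ)) ^ 2 ≤ p := by exact_mod_cast (hT p hp).2.le
    exact one_div_le_one_div_of_le hN2 h2
  refine h1.trans ?_
  rw [Finset.sum_const, nsmul_eq_mul, mul_one_div, div_le_div_iff₀ hN2 hc]
  have hsub : T ⊆ d.primeFactors := fun p hp => (hT p hp).1
  have h2 : (T.card : ℝ) ≤ d.primeFactors.card := by exact_mod_cast Finset.card_le_card hsub
  have h3 := Pool.Agent.Helper83.HLD.card_primeFactors_le d hd0
  have hdR : (0 : ℝ) < d := by exact_mod_cast Nat.pos_of_ne_zero hd0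
  have hd6 : (d : ℝ) ≤ (Y : ℝ) ^ 6 := by exact_mod_cast hd
  have h4 : Real.log d ≤ 6 * Real.log Y := by
    have := Real.log_le_log hdR hd6
    rw [Real.log_pow] at this
    exact_mod_cast this
  have h5 := Real.log_two_gt_d9
  have h0 : (0 : ℝ) ≤ d.primeFactors.card := Nat.cast_nonneg _
  have hlogY : 0 ≤ Real.log Y := Real.log_natCast_nonneg Y
  have h6 : (d.primeFactors.card : ℝ) * (2 / 3) ≤ 6 * Real.log Y := by nlinarith
  have h7 : (d.primeFactors.card : ℝ) ≤ 9 * Real.log Y := by linarith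
  have h8 : (T.card : ℝ) * c ≤ 9 * Real.log Y * c :=
    mul_le_mul_of_nonneg_right (h2.trans h7) hc.le
  have h9 : 9 * Real.log Y * c = 9 * (c * Real.log Y) := by ring
  rw [h9] at h8
  linarith

theorem sum_W_root (r : ℕ) (c : ℝ) (hc : 0 < c) : ∃ C : ℝ, 0 < C ∧ ∀ Y : ℕ, 2 ≤ Y → ∀ z N : ℕ,
    z + N ≤ Y ^ 6 → c * Real.log Y ≤ (N : ℝ) ^ 2 → 1 ≤ N → ∑ d ∈ Ioc z (z + N), W d ^ r ≤ C * N := by
  set c' : ℝ := 2 ^ (r + 1) with hc'
  have hc0 : 0 ≤ c' := by positivity
  obtain ⟨C1, hC1, h1⟩ := Pool.Agent.Helper83.HLD.prod_primes_le c' hc0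
  refine ⟨Real.exp (c' * (4 + 9 / c)) * (Real.exp (c' * 2) + C1), by positivity,
    fun Y hY z N hzN hlog hN => ?_⟩
  have hYR : (2 : ℝ) ≤ Y := by exact_mod_cast hY
  have hNR : (1 : ℝ) ≤ N := by exact_mod_cast hN
  have hN0 : (0 : ℝ) < N := by linarith
  set P : Finset ℕ := (Icc 1 N).filter Nat.Prime with hP
  -- the large primes
  have hlarge : ∀ d ∈ Ioc z (z + N), W d ^ r ≤
      Real.exp (c' * (4 + 9 / c)) *
        ∏ p ∈ d.primeFactors.filter (fun p => p ∈ P), (1 + c' / (p : ℝ)) := by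
    intro d hd
    rw [Finset.mem_Ioc] at hd
    have hd0 : d ≠ 0 := by omega
    refine (W_pow_le r d).trans ?_
    rw [← Finset.prod_filter_mul_prod_filter_not d.primeFactors (fun p => p ∈ P), mul_comm]
    refine mul_le_mul_of_nonneg_right ?_ (Finset.prod_nonneg fun p _ => by positivity)
    set Q : Finset ℕ := d.primeFactors.filter (fun p => ¬ p ∈ P) with hQ
    have hQN : ∀ p ∈ Q, p.Prime ∧ p ∈ d.primeFactors ∧ N < p := by
      intro p hp
      rw [hQ, Finset.mem_filter] at hp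
      have hpp := Nat.prime_of_mem_primeFactors hp.1
      refine ⟨hpp, hp.1, ?_⟩
      by_contra hcon
      apply hp.2
      rw [hP, Finset.mem_filter, Finset.mem_Icc]
      exact ⟨⟨hpp.one_lt.le, not_lt.1 hcon⟩, hpp⟩
    have hsum : ∑ p ∈ Q, (1 : ℝ) / p ≤ 4 + 9 / c := by
      rw [← Finset.sum_filter_add_sum_filter_not Q (fun p => p ≤ N ^ 2)]
      refine add_le_add ?_ ?_
      · apply sum_mid N hN
        intro p hp
        rw [Finset.mem_filter] at hp
        have h3 := hQN p hp.1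
        exact ⟨h3.1, h3.2.2, hp.2⟩
      · apply sum_big Y N d c hc hY hN hd0 (hd.2.trans hzN) hlog
        intro p hp
        rw [Finset.mem_filter] at hp
        have h3 := hQN p hp.1
        exact ⟨h3.2.1, not_le.1 hp.2⟩
    calc ∏ p ∈ Q, (1 + (2 : ℝ) ^ (r + 1) / (p : ℝ)) ≤ ∏ p ∈ Q, Real.exp (c' * (1 / (p : ℝ))) := by
          refine Finset.prod_le_prod (fun p _ => by positivity) fun p _ => ?_
          rw [← hc', mul_one_div]
          have e2 := Real.add_one_le_exp (c' / (p : ℝ))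
          linarith
      _ = Real.exp (c' * ∑ p ∈ Q, (1 : ℝ) / p) := by
          rw [← Real.exp_sum, Finset.mul_sum]
      _ ≤ Real.exp (c' * (4 + 9 / c)) :=
          Real.exp_le_exp.2 (mul_le_mul_of_nonneg_left hsum hc0)
  refine (Finset.sum_le_sum hlarge).trans ?_
  rw [← Finset.mul_sum, mul_assoc]
  refine mul_le_mul_of_nonneg_left ?_ (Real.exp_pos _).le
  have h2 : ∑ d ∈ Ioc z (z + N), ∏ p ∈ d.primeFactors.filter (fun p => p ∈ P), (1 + c' / (p : ℝ)) ≤
      ∑ d ∈ Ioc z (z + N), ∑ T ∈ P.powerset, if T ⊆ d.primeFactors then ∏ p ∈ T, c' / (p : ℝ) else 0 := by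
    apply Finset.sum_le_sum
    intro d _
    refine le_of_eq ?_
    rw [Finset.prod_one_add, ← Finset.sum_filter]
    apply Finset.sum_congr
    · ext T
      simp only [mem_powerset, mem_filter, Finset.subset_iff]
      constructor
      · intro h
        exact ⟨fun x hx => (h hx).2, fun x hx => (h hx).1⟩
      · intro h x hx
        exact ⟨h.2 hx, h.1 hx⟩
    · intro _ _
      rfl
  refine h2.trans ?_
  rw [Finset.sum_comm]
  have h3 : ∀ T ∈ P.powerset,
      (∑ d ∈ Ioc z (z + N), if T ⊆ d.primeFactors then ∏ p ∈ T, c' / (p : ℝ) else 0) ≤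
        N * ∏ p ∈ T, c' / (p : ℝ) ^ 2 + ∏ p ∈ T, c' / (p : ℝ) := by
    intro T hT
    have hTp : ∀ p ∈ T, p.Prime := by
      intro p hp
      have := (mem_powerset.1 hT) hp
      simp only [hP, mem_filter] at this
      exact this.2
    rw [← Finset.sum_filter, Finset.sum_const, nsmul_eq_mul]
    have h3 := Pool.Agent.Helper83.HLD.card_mult_short z N T hTp
    have h4 : 0 ≤ ∏ p ∈ T, c' / (p : ℝ) := Finset.prod_nonneg fun p _ => by positivity
    calc _ ≤ (N / (∏ p ∈ T, (p : ℝ)) + 1) * ∏ p ∈ T, c' / (p : ℝ) :=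
          mul_le_mul_of_nonneg_right h3 h4
      _ = _ := by
          rw [add_mul, one_mul]
          congr 1
          rw [div_mul_eq_mul_div, mul_div_assoc, ← Finset.prod_div_distrib]
          congr 1
          apply Finset.prod_congr rfl
          intro p _
          rw [div_div, sq]
  refine (Finset.sum_le_sum h3).trans ?_
  rw [Finset.sum_add_distrib, ← Finset.mul_sum, ← Finset.prod_one_add, ← Finset.prod_one_add, add_mul]
  refine add_le_add ?_ (h1 N hN)
  rw [mul_comm]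
  apply mul_le_mul_of_nonneg_right _ (Nat.cast_nonneg N)
  calc ∏ p ∈ P, (1 + c' / (p : ℝ) ^ 2) ≤ ∏ p ∈ P, Real.exp (c' / (p : ℝ) ^ 2) := by
        apply Finset.prod_le_prod
        · intro p _
          positivity
        · intro p _
          rw [add_comm]
          exact Real.add_one_le_exp _
    _ = Real.exp (∑ p ∈ P, c' / (p : ℝ) ^ 2) := (Real.exp_sum _ _).symm
    _ ≤ Real.exp (c' * 2) := by
        apply Real.exp_le_exp.2
        calc ∑ p ∈ P, c' / (p : ℝ) ^ 2 ≤ ∑ p ∈ Icc 1 N, c' / (p : ℝ) ^ 2 :=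
              Finset.sum_le_sum_of_subset_of_nonneg (Finset.filter_subset _ _)
                (fun p _ _ => by positivity)
          _ = c' * ∑ p ∈ Icc 1 N, (1 : ℝ) / (p : ℝ) ^ 2 := by
              rw [Finset.mul_sum]
              apply Finset.sum_congr rfl
              intro p _
              ring
          _ ≤ c' * 2 := by
              apply mul_le_mul_of_nonneg_left _ hc0
              have := sum_inv_sq_le N
              have h5 : (0 : ℝ) ≤ 1 / (N : ℝ) := by positivity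
              linarith

theorem sum_W_int (r : ℕ) (c : ℝ) (hc : 0 < c) : ∃ C : ℝ, 0 < C ∧ ∀ Y : ℕ, 2 ≤ Y → ∀ (z : ℤ) (N : ℕ),
    |z| ≤ (Y : ℤ) ^ 5 → N ≤ Y ^ 5 → c * Real.log Y ≤ (N : ℝ) ^ 2 → 1 ≤ N →
      ∑ t ∈ Ioc z (z + N), W t.natAbs ^ r ≤ C * N := by
  obtain ⟨C, hC, h⟩ := sum_W_root r c hc
  refine ⟨2 * C + 1, by positivity, fun Y hY z N hz hNY hlog hN => ?_⟩
  have hNR : (1 : ℝ) ≤ N := by exact_mod_cast hN
  have hW : ∀ d, 0 ≤ W d ^ r := fun d => pow_nonneg (zero_le_one.trans (one_le_W d)) _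
  have hY6 : 2 * Y ^ 5 ≤ Y ^ 6 := by
    rw [pow_succ Y 5, mul_comm]
    exact Nat.mul_le_mul_left _ hY
  have hz2 : z ≤ ((Y ^ 5 : ℕ) : ℤ) := by
    push_cast
    exact (le_abs_self z).trans hz
  have hz3 : -z ≤ ((Y ^ 5 : ℕ) : ℤ) := by
    push_cast
    exact (neg_le_abs z).trans hz
  set M : ℕ := Y ^ 5 with hM
  have key : ∀ (G : Finset ℤ) (z' : ℕ), z' + N ≤ 2 * M → Set.InjOn (fun t : ℤ => t.natAbs) G →
      (∀ t ∈ G, t.natAbs ∈ Ioc z' (z' + N)) → ∑ t ∈ G, W t.natAbs ^ r ≤ C * N := by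
    intro G z' hz' hG hm
    have h1 : ∑ d ∈ G.image (fun t : ℤ => t.natAbs), W d ^ r = ∑ t ∈ G, W t.natAbs ^ r :=
      Finset.sum_image hG
    rw [← h1]
    refine le_trans (Finset.sum_le_sum_of_subset_of_nonneg ?_ fun d _ _ => hW d)
      (h Y hY z' N (hz'.trans hY6) hlog hN)
    intro d hd
    rw [Finset.mem_image] at hd
    obtain ⟨b, hb, rfl⟩ := hd
    exact hm b hb
  rw [← Finset.sum_filter_add_sum_filter_not (Ioc z (z + N)) (fun t => 0 < t),
    ← Finset.sum_filter_add_sum_filter_not ((Ioc z (z + N)).filter (fun t => ¬ 0 < t)) (fun t => t < 0)]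
  have h1 := key ((Ioc z (z + N)).filter (fun t => 0 < t)) z.toNat (by omega) (by
    intro t ht t' ht' htt
    rw [Finset.mem_coe, Finset.mem_filter] at ht ht'
    have htt' : t.natAbs = t'.natAbs := htt
    omega) (by
    intro t ht
    rw [Finset.mem_filter, Finset.mem_Ioc] at ht
    rw [Finset.mem_Ioc]
    omega)
  have h2 := key (((Ioc z (z + N)).filter (fun t => ¬ 0 < t)).filter (fun t => t < 0))
    (-z - N - 1).toNat (by omega) (by
    intro t ht t' ht' htt
    rw [Finset.mem_coe, Finset.mem_filter] at ht ht'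
    have htt' : t.natAbs = t'.natAbs := htt
    omega) (by
    intro t ht
    rw [Finset.mem_filter, Finset.mem_filter, Finset.mem_Ioc] at ht
    rw [Finset.mem_Ioc]
    omega)
  have h3 : ∑ t ∈ ((Ioc z (z + N)).filter (fun t => ¬ 0 < t)).filter (fun t => ¬ t < 0),
      W t.natAbs ^ r ≤ 1 := by
    have hsub : ((Ioc z (z + N)).filter (fun t => ¬ 0 < t)).filter (fun t => ¬ t < 0) ⊆ {0} := by
      intro t ht
      rw [Finset.mem_filter, Finset.mem_filter] at ht
      rw [Finset.mem_singleton]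
      omega
    refine (Finset.sum_le_sum_of_subset_of_nonneg hsub fun d _ _ => hW _).trans ?_
    rw [Finset.sum_singleton, Int.natAbs_zero]
    simp [W]
  have h4 : (2 * C + 1) * (N : ℝ) = C * N + (C * N + N) := by ring
  rw [h4]
  linarith

/-- `W` is submultiplicative (the prime factors of `m n` are those of `m` and those of `n`, all factors are
at least `1`; also for `m = 0` or `n = 0`, as `W 0 = 1`). -/
theorem W_mul_le (m n : ℕ) : W (m * n) ≤ W m * W n := by
  have h1 := one_le_W m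
  have h2 := one_le_W n
  rcases Nat.eq_zero_or_pos m with rfl | hm
  · rw [zero_mul]
    have h3 : W 0 = 1 := by simp [W]
    rw [h3]
    nlinarith
  rcases Nat.eq_zero_or_pos n with rfl | hn
  · rw [mul_zero]
    have h3 : W 0 = 1 := by simp [W]
    rw [h3]
    nlinarith
  have h3 : (m * n).primeFactors = m.primeFactors ∪ n.primeFactors :=
    Nat.primeFactors_mul hm.ne' hn.ne'
  unfold W
  rw [h3]
  have h4 := Finset.prod_union_inter (s₁ := m.primeFactors) (s₂ := n.primeFactors)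
    (f := fun p : ℕ => (1 + 2 / (p : ℝ)))
  rw [← h4]
  have h5 : 1 ≤ ∏ p ∈ m.primeFactors ∩ n.primeFactors, (1 + 2 / (p : ℝ)) := by
    calc (1 : ℝ) = ∏ _p ∈ m.primeFactors ∩ n.primeFactors, (1 : ℝ) := by simp
      _ ≤ _ := Finset.prod_le_prod (fun _ _ => zero_le_one) fun p _ => by
        have : 0 ≤ 2 / (p : ℝ) := by positivity
        linarith
  have h6 : 0 ≤ ∏ p ∈ m.primeFactors ∪ n.primeFactors, (1 + 2 / (p : ℝ)) :=
    Finset.prod_nonneg fun p _ => by positivity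
  exact le_mul_of_one_le_right h6 h5

/-- `primeFactors` is monotone for divisibility. -/
theorem W_le_of_dvd {m n : ℕ} (h : m ∣ n) (hn : n ≠ 0) : W m ≤ W n := by
  have h1 : m.primeFactors ⊆ n.primeFactors := Nat.primeFactors_mono h hn
  unfold W
  rw [← Finset.prod_sdiff h1]
  have h5 : 1 ≤ ∏ p ∈ n.primeFactors \ m.primeFactors, (1 + 2 / (p : ℝ)) := by
    calc (1 : ℝ) = ∏ _p ∈ n.primeFactors \ m.primeFactors, (1 : ℝ) := by simp
      _ ≤ _ := Finset.prod_le_prod (fun _ _ => zero_le_one) fun p _ => by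
        have : 0 ≤ 2 / (p : ℝ) := by positivity
        linarith
  have h6 : 0 ≤ ∏ p ∈ m.primeFactors, (1 + 2 / (p : ℝ)) :=
    Finset.prod_nonneg fun p _ => by positivity
  exact le_mul_of_one_le_left h6 h5

/-- `1 + 2 / p ≤ (1 + 1 / (p - 1)) ^ 2`, and `d / φ(d) = ∏ (1 - 1 / p)⁻¹` (`Nat.totient_eq_mul_prod_factors`). -/
theorem W_le_totient {d : ℕ} {C : ℝ} (hd : 1 ≤ d) (h : (d : ℝ) ≤ C * Nat.totient d) : W d ≤ C ^ 2 := by
  have hdR : (0 : ℝ) < d := by exact_mod_cast hd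
  have h1 : ((Nat.totient d : ℕ) : ℝ) = d * ∏ p ∈ d.primeFactors, (1 - (p : ℝ)⁻¹) := by
    have h2 := Nat.totient_eq_mul_prod_factors d
    have h3 : (((Nat.totient d : ℕ) : ℚ) : ℝ) =
        ((d * ∏ p ∈ d.primeFactors, (1 - (p : ℚ)⁻¹) : ℚ) : ℝ) := by rw [h2]
    push_cast at h3
    exact h3
  set P : ℝ := ∏ p ∈ d.primeFactors, (1 - (p : ℝ)⁻¹) with hP
  rw [h1] at h
  have h2 : 1 ≤ C * P := by
    have h3 : (d : ℝ) * 1 ≤ d * (C * P) := by linarith
    exact le_of_mul_le_mul_left h3 hdR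
  have h3 : W d * P ^ 2 ≤ 1 := by
    unfold W
    rw [hP, ← Finset.prod_pow, ← Finset.prod_mul_distrib]
    have h4 : ∀ p ∈ d.primeFactors, 0 ≤ (1 + 2 / (p : ℝ)) * (1 - (p : ℝ)⁻¹) ^ 2 ∧
        (1 + 2 / (p : ℝ)) * (1 - (p : ℝ)⁻¹) ^ 2 ≤ 1 := by
      intro p hp
      have hp2 := (Nat.prime_of_mem_primeFactors hp).two_le
      have hp0 : (0 : ℝ) < p := by
        have : (2 : ℝ) ≤ p := by exact_mod_cast hp2
        linarith
      have hx0 : 0 ≤ (p : ℝ)⁻¹ := inv_nonneg.2 hp0.le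
      have hx1 : (p : ℝ)⁻¹ ≤ 1 := by
        rw [inv_le_one₀ hp0]
        have : (2 : ℝ) ≤ p := by exact_mod_cast hp2
        linarith
      rw [div_eq_mul_inv]
      refine ⟨by positivity, ?_⟩
      nlinarith [mul_nonneg (sq_nonneg (p : ℝ)⁻¹) (by linarith : (0 : ℝ) ≤ 3 - 2 * (p : ℝ)⁻¹)]
    calc ∏ p ∈ d.primeFactors, ((1 + 2 / (p : ℝ)) * (1 - (p : ℝ)⁻¹) ^ 2) ≤
        ∏ _p ∈ d.primeFactors, (1 : ℝ) :=
          Finset.prod_le_prod (fun p hp => (h4 p hp).1) fun p hp => (h4 p hp).2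
      _ = 1 := by simp
  have h5 := one_le_W d
  have h6 : 1 ≤ (C * P) ^ 2 := one_le_pow₀ h2
  calc W d = W d * 1 := (mul_one _).symm
    _ ≤ W d * (C * P) ^ 2 := mul_le_mul_of_nonneg_left h6 (by linarith)
    _ = C ^ 2 * (W d * P ^ 2) := by ring
    _ ≤ C ^ 2 * 1 := mul_le_mul_of_nonneg_left h3 (sq_nonneg C)
    _ = C ^ 2 := mul_one _

end Pool.Agent.Helper8.DW
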