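import Pool.Agent.Helper32.M3.Two

/-!
# DW-14: the primes in `(Z, Z ^ r]`

`prm_mass`: `∑ 1 / p = log r + o(1)` as `Z → ∞` (Mertens).
`root_exists`: the integer `Z` with `Z ^ (2 r) ≤ H < (Z + 1) ^ (2 r)`.
`few_blocks`: the number of dyadic blocks is at most `2 r log Z + 1 = o(√Z)`.
-/

set_option autoImplicit false

namespace Pool.Agent.Helper8.DW

open Finset Filter Topology

/-- The primes in `(Z, Z ^ r]`. -/
def PZ (Z r : ℕ) : Finset ℕ := (Ioc Z (Z ^ r)).filter Nat.Prime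

theorem prm_mass (r : ℕ) (hr : 1 ≤ r) : ∃ Z0 : ℕ, ∀ Z : ℕ, Z0 ≤ Z → Real.log r - 1 ≤ ∑ p ∈ PZ Z r, (1 : ℝ) / p := by
  obtain ⟨c, hc⟩ := Pool.Agent.Helper32.M3.W_tendsto
  have h1 : ∀ᶠ n : ℕ in atTop, |Pool.Agent.Helper16.UB.W n - Real.log (Real.log n) - c| ≤ 1 / 2 := by
    have h2 := hc (Metric.closedBall_mem_nhds c (by norm_num : (0 : ℝ) < 1 / 2))
    filter_upwards [h2] with n hn
    rw [Set.mem_preimage, Metric.mem_closedBall, Real.dist_eq] at hn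
    exact hn
  obtain ⟨Z1, hZ1⟩ := eventually_atTop.1 h1
  refine ⟨max Z1 3, fun Z hZ => ?_⟩
  have hZ3 : 3 ≤ Z := (le_max_right _ _).trans hZ
  have hZZ : Z1 ≤ Z := (le_max_left _ _).trans hZ
  have hZr : Z ≤ Z ^ r := Nat.le_self_pow (by omega) Z
  have h2 := hZ1 Z hZZ
  have h3 := hZ1 (Z ^ r) (hZZ.trans hZr)
  rw [abs_le] at h2 h3
  have hZR : (3 : ℝ) ≤ Z := by exact_mod_cast hZ3
  have hlog : 0 < Real.log Z := Real.log_pos (by linarith)
  have hr0 : (0 : ℝ) < r := by exact_mod_cast hr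
  have h4 : Real.log (Real.log ((Z ^ r : ℕ) : ℝ)) = Real.log r + Real.log (Real.log Z) := by
    push_cast
    rw [Real.log_pow, Real.log_mul hr0.ne' hlog.ne']
  have h5 : Pool.Agent.Helper16.UB.W (Z ^ r) = Pool.Agent.Helper16.UB.W Z + ∑ p ∈ PZ Z r, (1 : ℝ) / p := by
    unfold Pool.Agent.Helper16.UB.W Pool.Agent.Helper16.UB.PL PZ
    rw [← Finset.sum_union]
    · refine Finset.sum_congr ?_ fun _ _ => rfl
      ext p
      simp only [Finset.mem_filter, Finset.mem_union, Finset.mem_Ioc, Finset.mem_Icc]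
      constructor
      · rintro ⟨h6, h7⟩
        have := h7.one_lt
        by_cases h8 : p ≤ Z
        · left; refine ⟨?_, h7⟩; omega
        · right; refine ⟨?_, h7⟩; omega
      · rintro (⟨h6, h7⟩ | ⟨h6, h7⟩)
        · refine ⟨?_, h7⟩; omega
        · refine ⟨?_, h7⟩; omega
    · rw [Finset.disjoint_left]
      intro p hp hp'
      simp only [Finset.mem_filter, Finset.mem_Ioc, Finset.mem_Icc] at hp hp'
      omega
  linarith [h2.1, h2.2, h3.1, h3.2]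

theorem root_exists (r : ℕ) (hr : 1 ≤ r) (Z0 : ℕ) (hZ0 : 1 ≤ Z0) (H : ℕ) (hH : Z0 ^ (2 * r) ≤ H) :
    ∃ Z : ℕ, Z0 ≤ Z ∧ Z ^ (2 * r) ≤ H ∧ H < (2 * Z) ^ (2 * r) := by
  have h0 : 0 < 2 * r := by omega
  obtain ⟨Z, hZ1, hZ2⟩ : ∃ Z : ℕ, Z ^ (2 * r) ≤ H ∧ H < (Z + 1) ^ (2 * r) := by
    have hex : ∃ n : ℕ, H < (n + 1) ^ (2 * r) := ⟨H, lt_of_lt_of_le (Nat.lt_succ_self H) (Nat.le_self_pow h0.ne' _)⟩
    classical
    refine ⟨Nat.find hex, ?_, Nat.find_spec hex⟩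
    rcases Nat.eq_zero_or_pos (Nat.find hex) with h | h
    · rw [h, zero_pow h0.ne']
      exact Nat.zero_le _
    · obtain ⟨m, hm⟩ : ∃ m, Nat.find hex = m + 1 := ⟨Nat.find hex - 1, by omega⟩
      have h2 : ¬ H < (m + 1) ^ (2 * r) := Nat.find_min hex (by omega)
      rw [hm]
      exact not_lt.1 h2
  have hZ : Z0 ≤ Z := by
    by_contra h
    have h3 : (Z + 1) ^ (2 * r) ≤ Z0 ^ (2 * r) := Nat.pow_le_pow_left (by omega) _
    omega
  refine ⟨Z, hZ, hZ1, lt_of_lt_of_le hZ2 (Nat.pow_le_pow_left (by omega) _)⟩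

theorem few_blocks (r : ℕ) (η : ℝ) (hη : 0 < η) : ∃ Z0 : ℕ, ∀ Z : ℕ, Z0 ≤ Z →
    ((Nat.log 2 (Z ^ r) + 1 : ℕ) : ℝ) / √Z ≤ η := by
  have h1 : Tendsto (fun x : ℝ => (2 * r * Real.log x + 1) / √x) atTop (𝓝 0) := by
    have h2 : Tendsto (fun x : ℝ => Real.log x / x ^ (1 / 2 : ℝ)) atTop (𝓝 0) :=
      (isLittleO_log_rpow_atTop (by norm_num)).tendsto_div_nhds_zero
    have h3 : Tendsto (fun x : ℝ => 1 / x ^ (1 / 2 : ℝ)) atTop (𝓝 0) := by
      simp only [one_div]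
      exact tendsto_inv_atTop_zero.comp (tendsto_rpow_atTop (by norm_num))
    have h4 := (h2.const_mul (2 * (r : ℝ))).add h3
    rw [mul_zero, add_zero] at h4
    refine h4.congr fun x => ?_
    rw [Real.sqrt_eq_rpow]
    ring
  have h2 := h1.comp (tendsto_natCast_atTop_atTop (R := ℝ))
  obtain ⟨Z1, hZ1⟩ := eventually_atTop.1 (h2.eventually (ge_mem_nhds hη))
  refine ⟨max Z1 1, fun Z hZ => ?_⟩
  have hZ0 : 1 ≤ Z := (le_max_right _ _).trans hZ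
  have h3 := hZ1 Z ((le_max_left _ _).trans hZ)
  simp only [Function.comp_apply] at h3
  refine le_trans ?_ h3
  refine div_le_div_of_nonneg_right ?_ (Real.sqrt_nonneg _)
  have hZR : (1 : ℝ) ≤ Z := by exact_mod_cast hZ0
  have hpow : 0 < Z ^ r := Nat.pow_pos (by omega)
  have h4 : (2 : ℝ) ^ Nat.log 2 (Z ^ r) ≤ (Z : ℝ) ^ r := by
    exact_mod_cast Nat.pow_log_le_self 2 hpow.ne'
  have h5 := Real.log_le_log (by positivity) h4
  rw [Real.log_pow, Real.log_pow] at h5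
  have h6 := Real.log_two_gt_d9
  have h7 : (0 : ℝ) ≤ Nat.log 2 (Z ^ r) := Nat.cast_nonneg _
  have h8 : (Nat.log 2 (Z ^ r) : ℝ) * (1 / 2) ≤ (Nat.log 2 (Z ^ r) : ℝ) * Real.log 2 :=
    mul_le_mul_of_nonneg_left (by linarith) h7
  push_cast
  linarith

end Pool.Agent.Helper8.DW
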