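import Pool.Agent.Helper8.DW.Window

/-!
# DW-7: windows of length `M` inside a window

`smooth_gen`: for `g : ℕ → ℝ` with `|g| ≤ 1`: `∑_{m ∈ (u, v]} ∑_{i = 1..M} g (m - 1 + i) = ∑_{i = 1..M} ∑_{m ∈ (u + i - 1, v + i - 1]} g m`, and for each `i` the
inner sum differs from `∑_{(u, v]} g` by at most `2 (i - 1)` (remove `i - 1` terms at the left, add `i - 1` at the right; if `v ≤ u` both sums are
empty); `∑_{i ≤ M} 2 (i - 1) ≤ M ^ 2`.  Divide by `M`.
`smooth`: the map `h ↦ (n + h) / d` is a bijection from `mul n d y H` to `Ioc ((n + y) / d) ((n + y + H) / d)`; with `m = (n + h) / d` one has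
`n + h = d m`, `m ≥ 1` and `Ω (n + h) = Ω d + Ω m` (`ArithmeticFunction.cardFactors_mul`).  Apply `smooth_gen` to `g m = b (Ω d + Ω m)`;
`|∑_{i ≤ M} b (Ω d + Ω (m - 1 + i))| ≤ ∑_{s < q} |∑_{i ≤ M} b (s + Ω (m - 1 + i))| = M * BB q b M (m - 1)` as `b (t + x) = b (t % q + x)`.
`card_mul`: `|mul n d y H| ≤ H / d + 1`.
-/

set_option autoImplicit false

namespace Pool.Agent.Helper8.DW

open Finset

private theorem sm_Icc (f : ℕ → ℝ) (M : ℕ) : ∑ i ∈ Icc 1 M, f i = ∑ i ∈ range M, f (i + 1) := by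
  induction M with
  | zero => simp
  | succ M ih => rw [Finset.sum_Icc_succ_top (by omega), ih, Finset.sum_range_succ]

private theorem sm_tel (f : ℕ → ℝ) {u v : ℕ} (h : u ≤ v) :
    ∑ m ∈ Ioc u v, (f (m + 1) - f m) = f (v + 1) - f (u + 1) := by
  induction v, h using Nat.le_induction with
  | base => simp
  | succ v hv ih => rw [Finset.sum_Ioc_succ_top hv, ih]; ring

private theorem sm_shift (g : ℕ → ℝ) (hg : ∀ m, |g m| ≤ 1) (u v i : ℕ) :
    |∑ m ∈ Ioc u v, g (m + i) - ∑ m ∈ Ioc u v, g m| ≤ 2 * i := by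
  induction i with
  | zero => simp
  | succ i ih =>
    have h1 : |∑ m ∈ Ioc u v, g (m + (i + 1)) - ∑ m ∈ Ioc u v, g (m + i)| ≤ 2 := by
      rcases le_or_gt u v with h | h
      · rw [← Finset.sum_sub_distrib]
        have h2 := sm_tel (fun m => g (m + i)) h
        have h3 : ∑ m ∈ Ioc u v, (g (m + (i + 1)) - g (m + i)) =
            g (v + 1 + i) - g (u + 1 + i) := by
          rw [← h2]
          refine Finset.sum_congr rfl fun m _ => ?_
          rw [show m + (i + 1) = m + 1 + i by ring]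
        rw [h3]
        have h4 := abs_le.1 (hg (v + 1 + i))
        have h5 := abs_le.1 (hg (u + 1 + i))
        rw [abs_le]
        constructor <;> linarith
      · rw [Finset.Ioc_eq_empty (by omega)]
        simp
    push_cast
    rw [abs_le] at h1 ih ⊢
    constructor <;> linarith [h1.1, h1.2, ih.1, ih.2]

private theorem sm_two (M : ℕ) : ∑ i ∈ range M, (2 * (i : ℝ)) ≤ (M : ℝ) * M := by
  induction M with
  | zero => simp
  | succ M ih =>
    rw [Finset.sum_range_succ]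
    push_cast
    nlinarith

theorem smooth_gen (g : ℕ → ℝ) (hg : ∀ m, |g m| ≤ 1) (M : ℕ) (hM : 1 ≤ M) (u v : ℕ) :
    |∑ m ∈ Ioc u v, g m| ≤ ∑ m ∈ Ioc u v, (1 / (M : ℝ)) * |∑ i ∈ Icc 1 M, g (m - 1 + i)| + M := by
  have hM0 : (0 : ℝ) < M := by exact_mod_cast hM
  have h1 : ∀ m ∈ Ioc u v, ∑ i ∈ Icc 1 M, g (m - 1 + i) = ∑ i ∈ range M, g (m + i) := by
    intro m hm
    rw [sm_Icc]
    refine Finset.sum_congr rfl fun i _ => ?_
    have := (Finset.mem_Ioc.1 hm).1
    rw [show m - 1 + (i + 1) = m + i by omega]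
  have h2 : (M : ℝ) * ∑ m ∈ Ioc u v, g m =
      ∑ m ∈ Ioc u v, ∑ i ∈ range M, g (m + i) -
        ∑ i ∈ range M, (∑ m ∈ Ioc u v, g (m + i) - ∑ m ∈ Ioc u v, g m) := by
    rw [Finset.sum_comm, Finset.sum_sub_distrib, Finset.sum_const, Finset.card_range,
      nsmul_eq_mul]
    ring
  have h3 : |∑ i ∈ range M, (∑ m ∈ Ioc u v, g (m + i) - ∑ m ∈ Ioc u v, g m)| ≤ (M : ℝ) * M := by
    refine (Finset.abs_sum_le_sum_abs _ _).trans ?_
    exact (Finset.sum_le_sum fun i _ => sm_shift g hg u v i).trans (sm_two M)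
  have h4 : |∑ m ∈ Ioc u v, ∑ i ∈ range M, g (m + i)| ≤
      ∑ m ∈ Ioc u v, |∑ i ∈ range M, g (m + i)| := Finset.abs_sum_le_sum_abs _ _
  have h5 : (M : ℝ) * |∑ m ∈ Ioc u v, g m| ≤
      ∑ m ∈ Ioc u v, |∑ i ∈ range M, g (m + i)| + (M : ℝ) * M := by
    have h6 : (M : ℝ) * |∑ m ∈ Ioc u v, g m| = |(M : ℝ) * ∑ m ∈ Ioc u v, g m| := by
      rw [abs_mul, abs_of_pos hM0]
    rw [h6, h2]
    exact (abs_sub _ _).trans (add_le_add h4 h3)
  have h7 : ∑ m ∈ Ioc u v, (1 / (M : ℝ)) * |∑ i ∈ Icc 1 M, g (m - 1 + i)| =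
      (1 / (M : ℝ)) * ∑ m ∈ Ioc u v, |∑ i ∈ range M, g (m + i)| := by
    rw [Finset.mul_sum]
    exact Finset.sum_congr rfl fun m hm => by rw [h1 m hm]
  rw [h7]
  have h8 : |∑ m ∈ Ioc u v, g m| =
      (1 / (M : ℝ)) * ((M : ℝ) * |∑ m ∈ Ioc u v, g m|) := by
    field_simp
  rw [h8]
  calc (1 / (M : ℝ)) * ((M : ℝ) * |∑ m ∈ Ioc u v, g m|)
      ≤ (1 / (M : ℝ)) * (∑ m ∈ Ioc u v, |∑ i ∈ range M, g (m + i)| + (M : ℝ) * M) :=
        mul_le_mul_of_nonneg_left h5 (by positivity)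
    _ = (1 / (M : ℝ)) * ∑ m ∈ Ioc u v, |∑ i ∈ range M, g (m + i)| + M := by
        field_simp

private theorem sm_bij {n d y H : ℕ} (hd : 1 ≤ d) :
    mul n d y H = ((Ioc ((n + y) / d) ((n + y + H) / d)).image (fun m => d * m - n)) := by
  ext h
  unfold mul
  simp only [Finset.mem_filter, Finset.mem_Ioc, Finset.mem_image]
  constructor
  · rintro ⟨⟨h1, h2⟩, ⟨m, hm⟩⟩
    refine ⟨m, ⟨?_, ?_⟩, ?_⟩
    · rw [Nat.div_lt_iff_lt_mul (by omega)]
      rw [mul_comm m d]
      omega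
    · rw [Nat.le_div_iff_mul_le (by omega)]
      rw [mul_comm m d]
      omega
    · omega
  · rintro ⟨m, ⟨h1, h2⟩, h3⟩
    rw [Nat.div_lt_iff_lt_mul (by omega), mul_comm m d] at h1
    rw [Nat.le_div_iff_mul_le (by omega), mul_comm m d] at h2
    refine ⟨⟨by omega, by omega⟩, ⟨m, by omega⟩⟩

private theorem sm_inj {n d y H : ℕ} (hd : 1 ≤ d) :
    Set.InjOn (fun m => d * m - n) (Ioc ((n + y) / d) ((n + y + H) / d) : Finset ℕ) := by
  intro a ha b hb hab
  have ha1 := (Finset.mem_Ioc.1 (Finset.mem_coe.1 ha)).1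
  have hb1 := (Finset.mem_Ioc.1 (Finset.mem_coe.1 hb)).1
  rw [Nat.div_lt_iff_lt_mul (by omega), mul_comm _ d] at ha1 hb1
  simp only at hab
  have h1 : d * a = d * b := by omega
  exact Nat.eq_of_mul_eq_mul_left (by omega) h1

private theorem sm_sum {n d y H : ℕ} (hd : 1 ≤ d) (F : ℕ → ℝ) :
    ∑ h ∈ mul n d y H, F ((n + h) / d) = ∑ m ∈ Ioc ((n + y) / d) ((n + y + H) / d), F m := by
  rw [sm_bij hd, Finset.sum_image (sm_inj hd)]
  refine Finset.sum_congr rfl fun m hm => ?_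
  have h1 := (Finset.mem_Ioc.1 hm).1
  rw [Nat.div_lt_iff_lt_mul (by omega), mul_comm _ d] at h1
  rw [show n + (d * m - n) = d * m by omega, Nat.mul_div_cancel_left _ (by omega)]

private theorem sm_per {q : ℕ} {b : ℕ → ℝ} (hb : Per q b) (t x : ℕ) :
    b (t + x) = b (t % q + x) := by
  have h1 : ∀ k x : ℕ, b (x + q * k) = b x := by
    intro k
    induction k with
    | zero => intro x; simp
    | succ k ih =>
      intro x
      rw [show x + q * (k + 1) = (x + q * k) + q by ring, hb.per, ih]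
  have h2 : t + x = (t % q + x) + q * (t / q) := by
    have := Nat.mod_add_div t q
    omega
  rw [h2, h1]

private theorem sm_BB {q : ℕ} {b : ℕ → ℝ} (hb : Per q b) (M t j : ℕ) :
    (1 / (M : ℝ)) * |∑ i ∈ Icc 1 M, b (t + ArithmeticFunction.cardFactors (j + i))| ≤
      BB q b M j := by
  unfold BB
  refine mul_le_mul_of_nonneg_left ?_ (by positivity)
  have h1 : ∑ i ∈ Icc 1 M, b (t + ArithmeticFunction.cardFactors (j + i)) =
      ∑ i ∈ Icc 1 M, b (t % q + ArithmeticFunction.cardFactors (j + i)) :=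
    Finset.sum_congr rfl fun i _ => sm_per hb _ _
  rw [h1]
  exact Finset.single_le_sum
    (f := fun s => |∑ i ∈ Icc 1 M, b (s + ArithmeticFunction.cardFactors (j + i))|)
    (fun s _ => abs_nonneg _) (Finset.mem_range.2 (Nat.mod_lt _ hb.pos))

theorem smooth {q : ℕ} {b : ℕ → ℝ} (hb : Per q b) (M : ℕ) (hM : 1 ≤ M) (n d y H : ℕ) (hn : 1 ≤ n) (hd : 1 ≤ d) :
    |∑ h ∈ mul n d y H, b (ArithmeticFunction.cardFactors (n + h))| ≤
      ∑ h ∈ mul n d y H, BB q b M ((n + h) / d - 1) + M := by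
  have h1 : ∑ h ∈ mul n d y H, b (ArithmeticFunction.cardFactors (n + h)) =
      ∑ h ∈ mul n d y H, b (ArithmeticFunction.cardFactors d +
        ArithmeticFunction.cardFactors ((n + h) / d)) := by
    refine Finset.sum_congr rfl fun h hh => ?_
    unfold mul at hh
    obtain ⟨m, hm⟩ := (Finset.mem_filter.1 hh).2
    have hm0 : m ≠ 0 := by
      rintro rfl
      omega
    rw [hm, Nat.mul_div_cancel_left _ (by omega),
      ArithmeticFunction.cardFactors_mul (by omega) hm0]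
  rw [h1, sm_sum hd (fun m => b (ArithmeticFunction.cardFactors d +
    ArithmeticFunction.cardFactors m)), sm_sum hd (fun m => BB q b M (m - 1))]
  refine (smooth_gen (fun m => b (ArithmeticFunction.cardFactors d +
    ArithmeticFunction.cardFactors m)) (fun m => hb.le _) M hM _ _).trans ?_
  exact add_le_add (Finset.sum_le_sum fun m _ => sm_BB hb M _ (m - 1)) le_rfl

private theorem sm_card {n d y H : ℕ} (hd : 1 ≤ d) :
    (mul n d y H).card = (n + y + H) / d - (n + y) / d := by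
  rw [sm_bij hd, Finset.card_image_of_injOn (sm_inj hd), Nat.card_Ioc]

theorem card_mul (n d y H : ℕ) (hd : 1 ≤ d) : ((mul n d y H).card : ℝ) ≤ (H : ℝ) / d + 1 := by
  have hd0 : (0 : ℝ) < d := by exact_mod_cast hd
  rw [sm_card hd, Nat.cast_sub (Nat.div_le_div_right (by omega))]
  have h1 : (((n + y + H) / d : ℕ) : ℝ) * d ≤ n + y + H := by
    exact_mod_cast Nat.div_mul_le_self (n + y + H) d
  have h2 : (n : ℝ) + y ≤ (((n + y) / d : ℕ) : ℝ) * d + d := by
    have h3 : n + y ≤ (n + y) / d * d + d := by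
      have h4 := Nat.div_add_mod' (n + y) d
      have h5 := Nat.mod_lt (n + y) (show 0 < d by omega)
      omega
    exact_mod_cast h3
  rw [← sub_nonneg]
  have h6 : (H : ℝ) / d + 1 - ((((n + y + H) / d : ℕ) : ℝ) - (((n + y) / d : ℕ) : ℝ)) =
      (H + d - ((((n + y + H) / d : ℕ) : ℝ) * d - (((n + y) / d : ℕ) : ℝ) * d)) / d := by
    field_simp
  rw [h6]
  exact div_nonneg (by linarith) hd0.le

/-- `H / d - 1 ≤ |mul n d y H|`. -/
theorem le_card_mul (n d y H : ℕ) (hd : 1 ≤ d) : (H : ℝ) / d - 1 ≤ (mul n d y H).card := by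
  have hd0 : (0 : ℝ) < d := by exact_mod_cast hd
  rw [sm_card hd, Nat.cast_sub (Nat.div_le_div_right (by omega))]
  have h1 : (((n + y) / d : ℕ) : ℝ) * d ≤ n + y := by
    exact_mod_cast Nat.div_mul_le_self (n + y) d
  have h2 : (n : ℝ) + y + H ≤ (((n + y + H) / d : ℕ) : ℝ) * d + d := by
    have h3 : n + y + H ≤ (n + y + H) / d * d + d := by
      have h4 := Nat.div_add_mod' (n + y + H) d
      have h5 := Nat.mod_lt (n + y + H) (show 0 < d by omega)
      omega
    exact_mod_cast h3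
  rw [← sub_nonneg]
  have h6 : ((((n + y + H) / d : ℕ) : ℝ) - (((n + y) / d : ℕ) : ℝ)) - ((H : ℝ) / d - 1) =
      (((((n + y + H) / d : ℕ) : ℝ) * d - (((n + y) / d : ℕ) : ℝ) * d) - H + d) / d := by
    field_simp
    ring
  rw [h6]
  exact div_nonneg (by linarith) hd0.le

end Pool.Agent.Helper8.DW
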