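import Pool.Agent.Helper8.DW.Cnt

/-!
# DW-9: the prime powers

`GG_good`: if all `n + a i` are prime, `n ≤ X`, `∑ a i ≤ X`, `X ≥ 2`: `Λ (n + a i) ≤ log (2 X) ≤ 2 log X`.
`GG_bad`: the `n ≤ X` such that some `n + a i` is not prime: `GG a n ≤ ∑_i Λ (n + a i) [n + a i not prime] (2 log X) ^ k` (other factors `≤ 2 log X`, `2 log X ≥ 1`),
and `∑_{m ≤ 2 X, m not prime} Λ m ≤ 2 √(2 X) log (2 X)` (`Chebyshev.abs_psi_sub_theta_le_sqrt_mul_log`, see the private lemmas `sum_nonprime_le`,
`shift_nonprime_le` in `Helper83/HLC/Weighted.lean`: copy them).  So the sum is at most `k * 2 √(2 X) * log (2 X) * (2 log X) ^ k = o(X)`.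
`sum_vv`: `cn1_le` with `d = 1`, `h = 0`, `M = X`, `C0 = 1` (`W 1 = 1`).
-/

set_option autoImplicit false

namespace Pool.Agent.Helper8.DW

open Finset Pool.Agent.Helper83.HLC

/-- the sum of `Λ` over the prime powers up to `Y` which are not prime -/
private lemma sum_nonprime_le (Y : ℕ) (hY : 1 ≤ Y) :
    ∑ k ∈ (Ioc 0 Y).filter (fun k => ¬ k.Prime), ArithmeticFunction.vonMangoldt k ≤
      2 * √(Y : ℝ) * Real.log Y := by
  have h1 := Chebyshev.abs_psi_sub_theta_le_sqrt_mul_log (x := (Y : ℝ)) (by exact_mod_cast hY)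
  have h2 : Chebyshev.psi (Y : ℝ) - Chebyshev.theta (Y : ℝ) =
      ∑ k ∈ (Ioc 0 Y).filter (fun k => ¬ k.Prime), ArithmeticFunction.vonMangoldt k := by
    unfold Chebyshev.psi Chebyshev.theta
    rw [Nat.floor_natCast, ← Finset.sum_filter_add_sum_filter_not (Ioc 0 Y) (fun k => k.Prime)]
    have h3 : ∑ k ∈ (Ioc 0 Y).filter (fun k => k.Prime), ArithmeticFunction.vonMangoldt k =
        ∑ k ∈ (Ioc 0 Y).filter (fun k => k.Prime), Real.log k := by
      refine Finset.sum_congr rfl fun k hk => ?_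
      exact ArithmeticFunction.vonMangoldt_apply_prime (Finset.mem_filter.1 hk).2
    rw [h3]
    ring
  rw [← h2]
  exact (le_abs_self _).trans h1

private lemma shift_nonprime_le (X i : ℕ) (hi : i ≤ X) (hX : 2 ≤ X) :
    ∑ n ∈ (Icc 1 X).filter (fun n => ¬ (n + i).Prime), ArithmeticFunction.vonMangoldt (n + i) ≤
      2 * √((2 * X : ℕ) : ℝ) * Real.log ((2 * X : ℕ) : ℝ) := by
  refine le_trans ?_ (sum_nonprime_le (2 * X) (by omega))
  have h1 : ∑ n ∈ (Icc 1 X).filter (fun n => ¬ (n + i).Prime),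
      ArithmeticFunction.vonMangoldt (n + i) =
      ∑ k ∈ ((Icc 1 X).filter (fun n => ¬ (n + i).Prime)).image (· + i),
        ArithmeticFunction.vonMangoldt k := by
    rw [Finset.sum_image]
    intro a _ b _ hab
    exact Nat.add_right_cancel hab
  rw [h1]
  refine Finset.sum_le_sum_of_subset_of_nonneg ?_
    (fun _ _ _ => ArithmeticFunction.vonMangoldt_nonneg)
  intro k hk
  rw [Finset.mem_image] at hk
  obtain ⟨n, hn, rfl⟩ := hk
  rw [Finset.mem_filter, Finset.mem_Icc] at hn
  rw [Finset.mem_filter, Finset.mem_Ioc]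
  exact ⟨⟨by omega, by omega⟩, hn.2⟩

private lemma vm_le (X n i : ℕ) (hX : 2 ≤ X) (hn : n ∈ Icc 1 X) (hi : i ≤ X) :
    ArithmeticFunction.vonMangoldt (n + i) ≤ 2 * Real.log X := by
  rw [Finset.mem_Icc] at hn
  refine ArithmeticFunction.vonMangoldt_le_log.trans ?_
  have hX0 : (2 : ℝ) ≤ X := by exact_mod_cast hX
  have h1 : ((n + i : ℕ) : ℝ) ≤ X * X := by
    have : n + i ≤ X * X := by nlinarith
    exact_mod_cast this
  have h0 : (0 : ℝ) < ((n + i : ℕ) : ℝ) := by
    have : 0 < n + i := by omega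
    exact_mod_cast this
  calc Real.log ((n + i : ℕ) : ℝ) ≤ Real.log (X * X) := Real.log_le_log h0 h1
    _ = 2 * Real.log X := by
      rw [Real.log_mul (by linarith) (by linarith)]
      ring

private lemma le_sum_shift {k : ℕ} (a : Fin k → ℕ) (i : Fin k) : a i ≤ ∑ i, a i :=
  Finset.single_le_sum (f := a) (fun _ _ => Nat.zero_le _) (Finset.mem_univ i)

theorem GG_good {k : ℕ} (a : Fin k → ℕ) (X n : ℕ) (hX : 2 ≤ X) (ha : ∑ i, a i ≤ X) (hn : n ∈ Icc 1 X) (h : vv a X n ≠ 0) :
    GG a n ≤ (2 * Real.log X) ^ k * vv a X n := by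
  have h1 : vv a X n = 1 := by
    unfold vv
    rw [if_pos (vv_pos_iff.1 h)]
  rw [h1, mul_one]
  unfold GG
  calc ∏ i, ArithmeticFunction.vonMangoldt (n + a i) ≤ ∏ _i : Fin k, (2 * Real.log X) :=
        Finset.prod_le_prod (fun _ _ => ArithmeticFunction.vonMangoldt_nonneg)
          fun i _ => vm_le X n (a i) hX hn ((le_sum_shift a i).trans ha)
    _ = (2 * Real.log X) ^ k := by rw [Finset.prod_const, Finset.card_univ, Fintype.card_fin]

/-- the bound for the sum over the bad `n` -/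
private lemma bad_le {k : ℕ} (a : Fin k → ℕ) (X : ℕ) (hX : 2 ≤ X) (ha : ∑ i, a i ≤ X) :
    ∑ n ∈ (Icc 1 X).filter (fun n => vv a X n = 0), GG a n ≤
      k * (4 * √(X : ℝ) * (2 * Real.log X) ^ (k + 1)) := by
  classical
  have hX2 : (2 : ℝ) ≤ X := by exact_mod_cast hX
  have hX0 : (0 : ℝ) < X := by linarith
  have hlogX : 1 / 2 < Real.log X := by
    have h1 := Real.log_two_gt_d9
    have h2 : Real.log 2 ≤ Real.log X := Real.log_le_log (by norm_num) hX2
    linarith
  have hL1 : (1 : ℝ) ≤ 2 * Real.log X := by linarith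
  have hL0 : (0 : ℝ) < Real.log X := by linarith
  have haX : ∀ i, a i ≤ X := fun i => (le_sum_shift a i).trans ha
  have h1 : ∀ n ∈ (Icc 1 X).filter (fun n => vv a X n = 0),
      GG a n ≤
      ∑ i, (if (n + a i).Prime then 0 else ArithmeticFunction.vonMangoldt (n + a i)) *
        (2 * Real.log X) ^ k := by
    intro n hn
    rw [Finset.mem_filter] at hn
    obtain ⟨hnX, hnv⟩ := hn
    have hnp : ∃ j, ¬ (n + a j).Prime := by
      by_contra hcon
      push Not at hcon
      refine vv_pos_iff.2 ⟨(Finset.mem_Icc.1 hnX).1, (Finset.mem_Icc.1 hnX).2, hcon⟩ hnv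
    obtain ⟨j, hjp⟩ := hnp
    have h2 : GG a n ≤
        ArithmeticFunction.vonMangoldt (n + a j) * (2 * Real.log X) ^ k := by
      unfold GG
      rw [← Finset.mul_prod_erase Finset.univ _ (Finset.mem_univ j)]
      refine mul_le_mul_of_nonneg_left ?_ ArithmeticFunction.vonMangoldt_nonneg
      calc ∏ i ∈ Finset.univ.erase j, ArithmeticFunction.vonMangoldt (n + a i)
          ≤ ∏ _i ∈ Finset.univ.erase j, (2 * Real.log X) :=
            Finset.prod_le_prod (fun _ _ => ArithmeticFunction.vonMangoldt_nonneg)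
              fun i hi => vm_le X n (a i) hX hnX (haX i)
        _ = (2 * Real.log X) ^ (Finset.univ.erase j).card := by rw [Finset.prod_const]
        _ ≤ (2 * Real.log X) ^ k := by
          refine pow_le_pow_right₀ hL1 ?_
          refine (Finset.card_le_card (Finset.erase_subset _ _)).trans ?_
          rw [Finset.card_univ, Fintype.card_fin]
    refine h2.trans ?_
    have h3 := Finset.single_le_sum (f := fun i =>
      (if (n + a i).Prime then 0 else ArithmeticFunction.vonMangoldt (n + a i)) *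
        (2 * Real.log X) ^ k) (s := Finset.univ) (fun i _ => by
        refine mul_nonneg ?_ (by positivity)
        split_ifs
        · exact le_rfl
        · exact ArithmeticFunction.vonMangoldt_nonneg) (Finset.mem_univ j)
    refine le_trans (le_of_eq ?_) h3
    simp only [if_neg hjp]
  calc ∑ n ∈ (Icc 1 X).filter (fun n => vv a X n = 0), GG a n
      ≤ ∑ n ∈ (Icc 1 X).filter (fun n => vv a X n = 0),
        ∑ i, (if (n + a i).Prime then 0 else ArithmeticFunction.vonMangoldt (n + a i)) *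
        (2 * Real.log X) ^ k := Finset.sum_le_sum h1
    _ ≤ ∑ n ∈ Icc 1 X,
        ∑ i, (if (n + a i).Prime then 0 else ArithmeticFunction.vonMangoldt (n + a i)) *
        (2 * Real.log X) ^ k := by
        refine Finset.sum_le_sum_of_subset_of_nonneg (Finset.filter_subset _ _) ?_
        intro n _ _
        refine Finset.sum_nonneg fun i _ => mul_nonneg ?_ (by positivity)
        split_ifs
        · exact le_rfl
        · exact ArithmeticFunction.vonMangoldt_nonneg
    _ = ∑ i, (∑ n ∈ (Icc 1 X).filter (fun n => ¬ (n + a i).Prime),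
          ArithmeticFunction.vonMangoldt (n + a i)) * (2 * Real.log X) ^ k := by
        rw [Finset.sum_comm]
        refine Finset.sum_congr rfl fun i _ => ?_
        rw [← Finset.sum_mul, Finset.sum_filter]
        congr 1
        refine Finset.sum_congr rfl fun n _ => ?_
        by_cases hp : (n + a i).Prime
        · simp [hp]
        · simp [hp]
    _ ≤ ∑ _i : Fin k, (4 * √(X : ℝ) * (2 * Real.log X) ^ (k + 1)) := by
        refine Finset.sum_le_sum fun i hi => ?_
        have h4 := shift_nonprime_le X (a i) (haX i) hX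
        have h5 : Real.log ((2 * X : ℕ) : ℝ) ≤ 2 * Real.log X := by
          push_cast
          rw [Real.log_mul (by norm_num) (by linarith)]
          have : Real.log 2 ≤ Real.log X := Real.log_le_log (by norm_num) hX2
          linarith
        have h6 : √((2 * X : ℕ) : ℝ) ≤ 2 * √(X : ℝ) := by
          rw [Real.sqrt_le_left (by positivity), mul_pow, Real.sq_sqrt hX0.le]
          push_cast
          linarith
        calc (∑ n ∈ (Icc 1 X).filter (fun n => ¬ (n + a i).Prime),
              ArithmeticFunction.vonMangoldt (n + a i)) * (2 * Real.log X) ^ k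
            ≤ (2 * (2 * √(X : ℝ)) * (2 * Real.log X)) * (2 * Real.log X) ^ k := by
              refine mul_le_mul_of_nonneg_right (h4.trans ?_) (by positivity)
              have : 0 ≤ Real.log ((2 * X : ℕ) : ℝ) := Real.log_natCast_nonneg _
              gcongr
          _ = 4 * √(X : ℝ) * (2 * Real.log X) ^ (k + 1) := by ring
    _ = k * (4 * √(X : ℝ) * (2 * Real.log X) ^ (k + 1)) := by
        rw [Finset.sum_const, Finset.card_univ, Fintype.card_fin, nsmul_eq_mul]

theorem GG_bad {k : ℕ} (a : Fin k → ℕ) (η : ℝ) (hη : 0 < η) : ∃ X0 : ℕ, ∀ X : ℕ, X0 ≤ X →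
    ∑ n ∈ (Icc 1 X).filter (fun n => vv a X n = 0), GG a n ≤ η * X := by
  obtain ⟨D, hD⟩ : ∃ D : ℝ, D = (k : ℝ) * (4 * 2 ^ (k + 1)) := ⟨_, rfl⟩
  have hD0 : 0 ≤ D := by rw [hD]; positivity
  obtain ⟨δ, hδ⟩ : ∃ δ : ℝ, δ = η / (D + 1) := ⟨_, rfl⟩
  have hδ0 : 0 < δ := by rw [hδ]; positivity
  have hlo := (Real.isLittleO_pow_log_id_atTop (n := 2 * (k + 1))).comp_tendsto
    (tendsto_natCast_atTop_atTop (R := ℝ))
  have hev := hlo.bound (sq_pos_of_pos hδ0)
  obtain ⟨X1, hX1⟩ := Filter.eventually_atTop.1 hev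
  refine ⟨max X1 (max 2 (∑ i, a i)), fun X hX => ?_⟩
  have h1 : X1 ≤ X := (le_max_left _ _).trans hX
  have h2 : 2 ≤ X := ((le_max_left _ _).trans (le_max_right _ _)).trans hX
  have h3 : ∑ i, a i ≤ X := ((le_max_right _ _).trans (le_max_right _ _)).trans hX
  refine (bad_le a X h2 h3).trans ?_
  have hX2 : (2 : ℝ) ≤ X := by exact_mod_cast h2
  have hX0 : (0 : ℝ) < X := by linarith
  have hL0 : 0 ≤ Real.log X := Real.log_natCast_nonneg _
  have h4 := hX1 X h1
  simp only [Function.comp_apply, id_eq, Real.norm_eq_abs] at h4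
  rw [abs_of_nonneg (by positivity), abs_of_nonneg hX0.le] at h4
  have h5 : Real.log X ^ (k + 1) ≤ δ * √(X : ℝ) := by
    refine le_of_sq_le_sq ?_ (by positivity)
    rw [mul_pow, Real.sq_sqrt hX0.le, ← pow_mul, mul_comm (k + 1) 2]
    exact h4
  calc (k : ℝ) * (4 * √(X : ℝ) * (2 * Real.log X) ^ (k + 1))
      = D * (√(X : ℝ) * Real.log X ^ (k + 1)) := by rw [hD, mul_pow]; ring
    _ ≤ D * (√(X : ℝ) * (δ * √(X : ℝ))) := by gcongr
    _ = D * δ * (√(X : ℝ) * √(X : ℝ)) := by ring
    _ = D * δ * X := by rw [Real.mul_self_sqrt hX0.le]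
    _ ≤ η * X := by
      refine mul_le_mul_of_nonneg_right ?_ hX0.le
      rw [hδ, mul_div_assoc', div_le_iff₀ (by positivity)]
      nlinarith

theorem sum_vv {k : ℕ} (a : Fin k → ℕ) (ha : Function.Injective a) : ∃ C : ℝ, 0 < C ∧ ∀ X : ℕ, 2 ≤ X →
    ∑ n ∈ Icc 1 X, vv a X n ≤ C * X / Real.log X ^ k := by
  obtain ⟨C, hC, h⟩ := cn1_le a ha 1
  refine ⟨C, hC, fun X hX => ?_⟩
  have h1 := h X X hX hX (by nlinarith) 1 0 le_rfl (by simp [W])
  simpa using h1

end Pool.Agent.Helper8.DW
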