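import Mathlib

/-!
# DW-13: the Turán-Kubilius inequality in a window

`P` a set of primes with `p ^ 2 ≤ H`, `M = ∑ 1 / p ≥ 1`, `ω m` the number of `p ∈ P` dividing `m`:
`∑_{N < m ≤ N + H} (ω m - M) ^ 2 ≤ 4 H M`, so for `|f| ≤ 1` the sum of `f` over the window is
`(1 / M) ∑_p (sum of f over the multiples of p)` up to `2 H / √M`.
-/

set_option autoImplicit false

namespace Pool.Agent.Helper8.DW

open Finset

private theorem cnt_eq (d N H : ℕ) :
    ((Ioc N (N + H)).filter (fun m => d ∣ m)).card + N / d = (N + H) / d := by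
  rw [← Nat.Ioc_filter_dvd_card_eq_div (N + H) d, ← Nat.Ioc_filter_dvd_card_eq_div N d,
    ← Finset.card_union_of_disjoint, ← Finset.filter_union]
  · congr 1
    ext m
    simp only [Finset.mem_filter, Finset.mem_union, Finset.mem_Ioc]
    omega
  · rw [Finset.disjoint_left]
    intro m hm hm'
    simp only [Finset.mem_filter, Finset.mem_Ioc] at hm hm'
    omega

/-- The number of multiples of `d` in the window. -/
private theorem cnt_le {d : ℕ} (hd : 1 ≤ d) (N H : ℕ) :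
    ((((Ioc N (N + H)).filter (fun m => d ∣ m)).card : ℕ) : ℝ) ≤ H / d + 1 := by
  have hd0 : (0 : ℝ) < d := by exact_mod_cast hd
  have h : ((((Ioc N (N + H)).filter (fun m => d ∣ m)).card : ℕ) : ℝ) + ((N / d : ℕ) : ℝ) = (((N + H) / d : ℕ) : ℝ) := by
    exact_mod_cast cnt_eq d N H
  have h1 : (((N + H) / d : ℕ) : ℝ) ≤ ((N + H : ℕ) : ℝ) / d := Nat.cast_div_le
  have h2 : (N : ℝ) / d < ((N / d : ℕ) : ℝ) + 1 := by
    rw [div_lt_iff₀ hd0]
    have := Nat.lt_mul_div_succ N (show 0 < d by omega)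
    have h3 : (N : ℝ) < (d : ℝ) * (((N / d : ℕ) : ℝ) + 1) := by exact_mod_cast this
    linarith
  push_cast at h1
  rw [add_div] at h1
  linarith

private theorem cnt_ge {d : ℕ} (hd : 1 ≤ d) (N H : ℕ) :
    (H : ℝ) / d - 1 ≤ (((Ioc N (N + H)).filter (fun m => d ∣ m)).card : ℕ) := by
  have hd0 : (0 : ℝ) < d := by exact_mod_cast hd
  have h : ((((Ioc N (N + H)).filter (fun m => d ∣ m)).card : ℕ) : ℝ) + ((N / d : ℕ) : ℝ) = (((N + H) / d : ℕ) : ℝ) := by
    exact_mod_cast cnt_eq d N H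
  have h1 : ((N / d : ℕ) : ℝ) ≤ (N : ℝ) / d := Nat.cast_div_le
  have h2 : ((N + H : ℕ) : ℝ) / d < (((N + H) / d : ℕ) : ℝ) + 1 := by
    rw [div_lt_iff₀ hd0]
    have := Nat.lt_mul_div_succ (N + H) (show 0 < d by omega)
    have h3 : ((N + H : ℕ) : ℝ) < (d : ℝ) * ((((N + H) / d : ℕ) : ℝ) + 1) := by exact_mod_cast this
    linarith
  push_cast at h2
  rw [add_div] at h2
  linarith

private theorem om_eq (P : Finset ℕ) (m : ℕ) :
    (((P.filter (fun p => p ∣ m)).card : ℕ) : ℝ) = ∑ p ∈ P, if p ∣ m then (1 : ℝ) else 0 := by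
  rw [Finset.card_filter]
  push_cast
  rfl

private theorem card_sq {P : Finset ℕ} {H : ℕ} (hP : ∀ p ∈ P, p.Prime) (hPH : ∀ p ∈ P, p ^ 2 ≤ H) :
    ((P.card : ℕ) : ℝ) ^ 2 ≤ H := by
  have h1 : P ⊆ Finset.Ioc 0 (Nat.sqrt H) := by
    intro p hp
    rw [Finset.mem_Ioc]
    exact ⟨(hP p hp).pos, Nat.le_sqrt'.2 (hPH p hp)⟩
  have h2 : P.card ≤ Nat.sqrt H := by
    have := Finset.card_le_card h1
    rwa [Nat.card_Ioc, Nat.sub_zero] at this
  have h3 : P.card ^ 2 ≤ H := (Nat.pow_le_pow_left h2 2).trans (Nat.sqrt_le' H)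
  exact_mod_cast h3

theorem tk_var {P : Finset ℕ} (hP : ∀ p ∈ P, p.Prime) {H : ℕ} (hPH : ∀ p ∈ P, p ^ 2 ≤ H) (hM : 1 ≤ ∑ p ∈ P, (1 : ℝ) / p)
    (N : ℕ) : ∑ m ∈ Ioc N (N + H), ((((P.filter (fun p => p ∣ m)).card : ℕ) : ℝ) - ∑ p ∈ P, (1 : ℝ) / p) ^ 2 ≤
      4 * H * ∑ p ∈ P, (1 : ℝ) / p := by
  set M : ℝ := ∑ p ∈ P, (1 : ℝ) / p with hMdef
  set K : ℝ := ((P.card : ℕ) : ℝ) with hK
  have hH0 : (0 : ℝ) ≤ H := Nat.cast_nonneg H
  have hK0 : 0 ≤ K := Nat.cast_nonneg _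
  have hK2 : K ^ 2 ≤ H := card_sq hP hPH
  have hKH : K ≤ H := by
    rcases Nat.eq_zero_or_pos P.card with h | h
    · rw [hK, h]
      simp
    · have h1 : (1 : ℝ) ≤ K := by
        rw [hK]
        exact_mod_cast h
      nlinarith
  -- first moment
  have hfirst : H * M - K ≤ ∑ m ∈ Ioc N (N + H), (((P.filter (fun p => p ∣ m)).card : ℕ) : ℝ) := by
    have h1 : ∑ m ∈ Ioc N (N + H), (((P.filter (fun p => p ∣ m)).card : ℕ) : ℝ) =
        ∑ p ∈ P, ((((Ioc N (N + H)).filter (fun m => p ∣ m)).card : ℕ) : ℝ) := by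
      rw [Finset.sum_congr rfl fun m _ => om_eq P m, Finset.sum_comm]
      refine Finset.sum_congr rfl fun p _ => ?_
      rw [Finset.card_filter]
      push_cast
      rfl
    rw [h1]
    have h2 : H * M - K = ∑ p ∈ P, ((H : ℝ) / p - 1) := by
      rw [Finset.sum_sub_distrib, hMdef, Finset.mul_sum, hK]
      simp [div_eq_mul_inv]
    rw [h2]
    exact Finset.sum_le_sum fun p hp => cnt_ge (hP p hp).one_lt.le N H
  -- second moment
  have hsecond : ∑ m ∈ Ioc N (N + H), (((P.filter (fun p => p ∣ m)).card : ℕ) : ℝ) ^ 2 ≤ H * M ^ 2 + H * M + K ^ 2 := by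
    have h1 : ∑ m ∈ Ioc N (N + H), (((P.filter (fun p => p ∣ m)).card : ℕ) : ℝ) ^ 2 =
        ∑ p ∈ P, ∑ q ∈ P, ((((Ioc N (N + H)).filter (fun m => p ∣ m ∧ q ∣ m)).card : ℕ) : ℝ) := by
      have h3 : ∀ m ∈ Ioc N (N + H), (((P.filter (fun p => p ∣ m)).card : ℕ) : ℝ) ^ 2 =
          ∑ p ∈ P, ∑ q ∈ P, if p ∣ m ∧ q ∣ m then (1 : ℝ) else 0 := by
        intro m _
        rw [om_eq P m, pow_two, Finset.sum_mul_sum]
        refine Finset.sum_congr rfl fun p _ => Finset.sum_congr rfl fun q _ => ?_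
        by_cases h4 : p ∣ m <;> by_cases h5 : q ∣ m <;> simp [h4, h5]
      rw [Finset.sum_congr rfl h3, Finset.sum_comm]
      refine Finset.sum_congr rfl fun p _ => ?_
      rw [Finset.sum_comm]
      refine Finset.sum_congr rfl fun q _ => ?_
      rw [Finset.card_filter]
      push_cast
      rfl
    rw [h1]
    have h2 : ∀ p ∈ P, ∀ q ∈ P, ((((Ioc N (N + H)).filter (fun m => p ∣ m ∧ q ∣ m)).card : ℕ) : ℝ) ≤
        H * ((1 : ℝ) / p * (1 / q)) + (if p = q then (H : ℝ) / p else 0) + 1 := by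
      intro p hp q hq
      have hp0 : (0 : ℝ) < p := by exact_mod_cast (hP p hp).pos
      have hq0 : (0 : ℝ) < q := by exact_mod_cast (hP q hq).pos
      by_cases hpq : p = q
      · subst hpq
        rw [if_pos rfl]
        have h3 : (Ioc N (N + H)).filter (fun m => p ∣ m ∧ p ∣ m) = (Ioc N (N + H)).filter (fun m => p ∣ m) := by
          refine Finset.filter_congr fun m _ => ?_
          exact and_self_iff
        rw [h3]
        have h4 := cnt_le (hP p hp).one_lt.le N H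
        have h5 : 0 ≤ (H : ℝ) * ((1 : ℝ) / p * (1 / p)) := by positivity
        linarith
      · rw [if_neg hpq]
        have hco : Nat.Coprime p q := (Nat.coprime_primes (hP p hp) (hP q hq)).2 hpq
        have h3 : (Ioc N (N + H)).filter (fun m => p ∣ m ∧ q ∣ m) = (Ioc N (N + H)).filter (fun m => p * q ∣ m) := by
          refine Finset.filter_congr fun m _ => ?_
          exact ⟨fun h => hco.mul_dvd_of_dvd_of_dvd h.1 h.2,
            fun h => ⟨(Dvd.intro _ rfl).trans h, (Dvd.intro_left _ rfl).trans h⟩⟩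
        rw [h3]
        have h4 := cnt_le (d := p * q) (Nat.mul_pos (hP p hp).pos (hP q hq).pos) N H
        have h5 : (H : ℝ) / ((p * q : ℕ) : ℝ) = H * ((1 : ℝ) / p * (1 / q)) := by
          push_cast
          field_simp
        rw [h5] at h4
        linarith
    calc ∑ p ∈ P, ∑ q ∈ P, ((((Ioc N (N + H)).filter (fun m => p ∣ m ∧ q ∣ m)).card : ℕ) : ℝ)
        ≤ ∑ p ∈ P, ∑ q ∈ P, (H * ((1 : ℝ) / p * (1 / q)) + (if p = q then (H : ℝ) / p else 0) + 1) :=
          Finset.sum_le_sum fun p hp => Finset.sum_le_sum fun q hq => h2 p hp q hq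
      _ = H * M ^ 2 + H * M + K ^ 2 := by
          simp only [Finset.sum_add_distrib]
          congr 1
          · congr 1
            · rw [pow_two, hMdef, Finset.sum_mul_sum, Finset.mul_sum]
              refine Finset.sum_congr rfl fun p _ => ?_
              rw [Finset.mul_sum]
            · rw [hMdef, Finset.mul_sum]
              refine Finset.sum_congr rfl fun p hp => ?_
              rw [Finset.sum_ite_eq, if_pos hp]
              ring
          · simp only [Finset.sum_const, nsmul_eq_mul, mul_one]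
            rw [hK]
            ring
  have hcard : ((Ioc N (N + H)).card : ℝ) = H := by
    rw [Nat.card_Ioc]
    congr 1
    omega
  have hexp : ∑ m ∈ Ioc N (N + H), ((((P.filter (fun p => p ∣ m)).card : ℕ) : ℝ) - M) ^ 2 =
      ∑ m ∈ Ioc N (N + H), (((P.filter (fun p => p ∣ m)).card : ℕ) : ℝ) ^ 2 -
        2 * M * ∑ m ∈ Ioc N (N + H), (((P.filter (fun p => p ∣ m)).card : ℕ) : ℝ) + H * M ^ 2 := by
    rw [Finset.mul_sum, ← Finset.sum_sub_distrib, ← hcard, ← nsmul_eq_mul, ← Finset.sum_const,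
      ← Finset.sum_add_distrib]
    refine Finset.sum_congr rfl fun m _ => ?_
    ring
  rw [hexp]
  have hM0 : 0 ≤ M := by linarith
  have h5 : 2 * M * (H * M - K) ≤ 2 * M * ∑ m ∈ Ioc N (N + H), (((P.filter (fun p => p ∣ m)).card : ℕ) : ℝ) :=
    mul_le_mul_of_nonneg_left hfirst (by linarith)
  have h6 : K ^ 2 ≤ H * M := hK2.trans (by nlinarith)
  have h7 : 2 * M * K ≤ 2 * M * H := mul_le_mul_of_nonneg_left hKH (by linarith)
  nlinarith

theorem tk_window {P : Finset ℕ} (hP : ∀ p ∈ P, p.Prime) {H : ℕ} (hPH : ∀ p ∈ P, p ^ 2 ≤ H)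
    (hM : 1 ≤ ∑ p ∈ P, (1 : ℝ) / p) (N : ℕ) (f : ℕ → ℝ) (hf : ∀ n, |f n| ≤ 1) :
    |∑ m ∈ Ioc N (N + H), f m| ≤ (∑ p ∈ P, |∑ m ∈ (Ioc N (N + H)).filter (fun m => p ∣ m), f m|) / (∑ p ∈ P, (1 : ℝ) / p) +
      2 * H / √(∑ p ∈ P, (1 : ℝ) / p) := by
  set M : ℝ := ∑ p ∈ P, (1 : ℝ) / p with hMdef
  have hM0 : 0 < M := by linarith
  have hH0 : (0 : ℝ) ≤ H := Nat.cast_nonneg H
  have hid : M * ∑ m ∈ Ioc N (N + H), f m = ∑ p ∈ P, ∑ m ∈ (Ioc N (N + H)).filter (fun m => p ∣ m), f m -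
      ∑ m ∈ Ioc N (N + H), f m * ((((P.filter (fun p => p ∣ m)).card : ℕ) : ℝ) - M) := by
    have h1 : ∑ p ∈ P, ∑ m ∈ (Ioc N (N + H)).filter (fun m => p ∣ m), f m =
        ∑ m ∈ Ioc N (N + H), f m * (((P.filter (fun p => p ∣ m)).card : ℕ) : ℝ) := by
      rw [Finset.sum_congr rfl fun p _ => Finset.sum_filter _ _, Finset.sum_comm]
      refine Finset.sum_congr rfl fun m _ => ?_
      rw [om_eq, Finset.mul_sum]
      refine Finset.sum_congr rfl fun p _ => ?_
      by_cases h2 : p ∣ m <;> simp [h2]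
    rw [h1, Finset.mul_sum, ← Finset.sum_sub_distrib]
    refine Finset.sum_congr rfl fun m _ => ?_
    ring
  have hcard : ((Ioc N (N + H)).card : ℝ) = H := by
    rw [Nat.card_Ioc]
    congr 1
    omega
  have hcs : ∑ m ∈ Ioc N (N + H), |(((P.filter (fun p => p ∣ m)).card : ℕ) : ℝ) - M| ≤ 2 * H * √M := by
    have h1 := sq_sum_le_card_mul_sum_sq (s := Ioc N (N + H))
      (f := fun m => |(((P.filter (fun p => p ∣ m)).card : ℕ) : ℝ) - M|)
    rw [hcard] at h1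
    have h2 : ∑ m ∈ Ioc N (N + H), |(((P.filter (fun p => p ∣ m)).card : ℕ) : ℝ) - M| ^ 2 ≤ 4 * H * M := by
      rw [Finset.sum_congr rfl fun m _ => sq_abs _]
      exact tk_var hP hPH hM N
    have h3 : (∑ m ∈ Ioc N (N + H), |(((P.filter (fun p => p ∣ m)).card : ℕ) : ℝ) - M|) ^ 2 ≤ (2 * H * √M) ^ 2 := by
      calc _ ≤ (H : ℝ) * (4 * H * M) := h1.trans (mul_le_mul_of_nonneg_left h2 hH0)
        _ = _ := by rw [mul_pow, Real.sq_sqrt hM0.le]; ring
    exact le_of_sq_le_sq h3 (by positivity)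
  have hmain : M * |∑ m ∈ Ioc N (N + H), f m| ≤
      ∑ p ∈ P, |∑ m ∈ (Ioc N (N + H)).filter (fun m => p ∣ m), f m| + 2 * H * √M := by
    rw [← abs_of_pos hM0, ← abs_mul, abs_of_pos hM0, hid]
    refine (abs_sub _ _).trans (add_le_add (Finset.abs_sum_le_sum_abs _ _) ?_)
    refine (Finset.abs_sum_le_sum_abs _ _).trans (le_trans ?_ hcs)
    refine Finset.sum_le_sum fun m _ => ?_
    rw [abs_mul]
    calc |f m| * |(((P.filter (fun p => p ∣ m)).card : ℕ) : ℝ) - M|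
        ≤ 1 * |(((P.filter (fun p => p ∣ m)).card : ℕ) : ℝ) - M| :=
          mul_le_mul_of_nonneg_right (hf m) (abs_nonneg _)
      _ = _ := one_mul _
  have hsq : √M * √M = M := Real.mul_self_sqrt hM0.le
  have hs0 : 0 < √M := Real.sqrt_pos.2 hM0
  have h9 : 2 * (H : ℝ) / √M = (2 * H * √M) / M := by
    rw [div_eq_div_iff hs0.ne' hM0.ne', mul_assoc (2 * (H : ℝ)) (√M) (√M), hsq]
  rw [h9, ← add_div, le_div_iff₀ hM0]
  linarith

end Pool.Agent.Helper8.DW
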