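import Pool.Agent.Helper8.DW.Final
import Pool.Agent.Helper8.DW.TK
import Pool.Agent.Helper8.DW.Prm
import Pool.Agent.Helper83.HLC.RSum

/-!
# DW-15: averages over windows shorter than `(log X) ^ k` at prime `k`-tuples

`avg`: for every `ε` there is `s` such that the mean of a mean zero function of `Ω` mod `q` over the windows of length `H` at the prime
`k`-tuples `n ≤ X` is at most `ε` in absolute value as soon as `(log X) ^ k ≤ H ^ (1 + 1 / s)`.

Proof: Turán-Kubilius for the primes of `(Z, Z ^ r]`, `H ≍ Z ^ (2 r)`, in every window (`tk_window`), and `final` for the dyadic blocks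
`S` of these primes with `|S| H ≥ (log X) ^ k`. The other blocks have `|S| ≤ √(2 Z)`, so they are negligible.
-/

set_option autoImplicit false

namespace Pool.Agent.Helper8.DW

open Finset Pool.Agent.Helper83.HLC

/-- The absolute value of the sum over the multiples of `p`. -/
noncomputable def Tm (b : ℕ → ℝ) (y H n p : ℕ) : ℝ :=
  |∑ h ∈ mul n p y H, b (ArithmeticFunction.cardFactors (n + h))|

private theorem tk_n {q : ℕ} {b : ℕ → ℝ} (hb : Per q b) {P : Finset ℕ} (hP : ∀ p ∈ P, p.Prime) {H : ℕ}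
    (hPH : ∀ p ∈ P, p ^ 2 ≤ H) (hM : 1 ≤ ∑ p ∈ P, (1 : ℝ) / p) (n y : ℕ) :
    |∑ h ∈ Ioc y (y + H), b (ArithmeticFunction.cardFactors (n + h))| ≤
      (∑ p ∈ P, Tm b y H n p) / (∑ p ∈ P, (1 : ℝ) / p) + 2 * H / √(∑ p ∈ P, (1 : ℝ) / p) := by
  have himg : Ioc (n + y) (n + y + H) = (Ioc y (y + H)).image (fun h => n + h) := by
    rw [Finset.image_add_left_Ioc, add_assoc]
  have hinj : ∀ s : Finset ℕ, Set.InjOn (fun h : ℕ => n + h) (s : Set ℕ) := fun s x _ y _ h => by
    simpa using h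
  have h := tk_window hP hPH hM (n + y) (fun m => b (ArithmeticFunction.cardFactors m)) (fun m => hb.le _)
  have h1 : ∑ m ∈ Ioc (n + y) (n + y + H), b (ArithmeticFunction.cardFactors m) =
      ∑ h ∈ Ioc y (y + H), b (ArithmeticFunction.cardFactors (n + h)) := by
    rw [himg, Finset.sum_image (hinj _)]
  have h2 : ∀ p, |∑ m ∈ (Ioc (n + y) (n + y + H)).filter (fun m => p ∣ m), b (ArithmeticFunction.cardFactors m)| =
      Tm b y H n p := by
    intro p
    unfold Tm mul
    rw [himg, Finset.filter_image, Finset.sum_image (hinj _)]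
  rw [h1, Finset.sum_congr rfl fun p _ => h2 p] at h
  exact h

theorem Tm_le {q : ℕ} {b : ℕ → ℝ} (hb : Per q b) (y H n p D : ℕ) (hD : 1 ≤ D) (hDp : D ≤ p) (hDH : D ≤ H) :
    Tm b y H n p ≤ 2 * H / D := by
  have hD0 : (0 : ℝ) < D := by exact_mod_cast hD
  have h1 : Tm b y H n p ≤ (mul n p y H).card := by
    unfold Tm
    refine (Finset.abs_sum_le_sum_abs _ _).trans ?_
    calc ∑ h ∈ mul n p y H, |b (ArithmeticFunction.cardFactors (n + h))| ≤ ∑ _h ∈ mul n p y H, (1 : ℝ) :=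
          Finset.sum_le_sum fun h _ => hb.le _
      _ = _ := by simp
  have h2 := card_mul n p y H (hD.trans hDp)
  have h3 : (H : ℝ) / p ≤ H / D :=
    div_le_div_of_nonneg_left (Nat.cast_nonneg H) hD0 (by exact_mod_cast hDp)
  have h4 : (1 : ℝ) ≤ H / D := by
    rw [le_div_iff₀ hD0, one_mul]
    exact_mod_cast hDH
  have h5 : 2 * (H : ℝ) / D = H / D + H / D := by ring
  linarith

theorem avg {k : ℕ} (a : Fin k → ℕ) (ha : Function.Injective a) {q : ℕ} {b : ℕ → ℝ} (hb : Per q b) (ε : ℝ) (hε : 0 < ε) :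
    ∃ s : ℕ, 1 ≤ s ∧ ∃ H1 X0 : ℕ, ∀ X : ℕ, X0 ≤ X → ∀ H y : ℕ, H1 ≤ H → Real.log X ^ (k * s) ≤ (H : ℝ) ^ (s + 1) →
      H ≤ X → y ≤ X →
      ∑ n ∈ Icc 1 X, GG a n * |∑ h ∈ Ioc y (y + H), b (ArithmeticFunction.cardFactors (n + h))| ≤ ε * H * X := by
  obtain ⟨C, hC, X1, hGG⟩ := sum_GG a ha
  obtain ⟨r, hr1, hrM⟩ : ∃ r : ℕ, 1 ≤ r ∧ 1 + (6 * C / ε) ^ 2 ≤ Real.log r - 1 := by
    obtain ⟨r, hr⟩ := exists_nat_ge (Real.exp (2 + (6 * C / ε) ^ 2))
    have h1 : (1 : ℝ) ≤ r := (Real.one_le_exp (by positivity)).trans hr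
    refine ⟨r, by exact_mod_cast h1, ?_⟩
    have h2 := Real.log_le_log (Real.exp_pos _) hr
    rw [Real.log_exp] at h2
    linarith
  obtain ⟨H0, X2, hF⟩ := final a ha hb 2 1 (ε / 6) one_pos (by positivity)
  obtain ⟨Z1, hm⟩ := prm_mass r hr1
  obtain ⟨Z2, hfb⟩ := few_blocks r (ε / (18 * C)) (by positivity)
  refine ⟨4 * r, by omega, (Z1 + Z2 + H0 + 2) ^ (2 * r), max X1 X2, fun X hX H y hH hHL hHX hyX => ?_⟩
  obtain ⟨Z, hZ0, hZH, hHZ⟩ := root_exists r hr1 (Z1 + Z2 + H0 + 2) (by omega) H hH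
  have hZ1 : Z1 ≤ Z := by omega
  have hZ2 : Z2 ≤ Z := by omega
  have hZH0 : H0 ≤ Z := by omega
  have hZ2' : 2 ≤ Z := by omega
  have hZR : (2 : ℝ) ≤ Z := by exact_mod_cast hZ2'
  have hZpos : (0 : ℝ) < Z := by linarith
  have hZr : Z ≤ Z ^ r := Nat.le_self_pow (by omega) Z
  have hZrr : Z ^ r * Z ^ r ≤ H := by
    rw [← pow_add, ← two_mul]
    exact hZH
  have hHpos : 0 < H := lt_of_lt_of_le (Nat.mul_pos (by omega) (by omega)) hZrr
  have hHR : (0 : ℝ) < H := by exact_mod_cast hHpos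
  have hXR : (0 : ℝ) < X := by exact_mod_cast lt_of_lt_of_le hHpos hHX
  have hsum := hGG X ((le_max_left _ _).trans hX)
  set P : Finset ℕ := PZ Z r with hP
  have hPmem : ∀ p ∈ P, Z < p ∧ p ≤ Z ^ r ∧ p.Prime := by
    intro p hp
    rw [hP] at hp
    unfold PZ at hp
    rw [Finset.mem_filter, Finset.mem_Ioc] at hp
    exact ⟨hp.1.1, hp.1.2, hp.2⟩
  have hPH : ∀ p ∈ P, p ^ 2 ≤ H := fun p hp => by
    rw [pow_two]
    exact (Nat.mul_le_mul (hPmem p hp).2.1 (hPmem p hp).2.1).trans hZrr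
  set M : ℝ := ∑ p ∈ P, (1 : ℝ) / p with hMdef
  have hM1 : 1 + (6 * C / ε) ^ 2 ≤ M := hrM.trans (hm Z hZ1)
  have hM2 : 1 ≤ M := le_trans (by nlinarith [sq_nonneg (6 * C / ε)]) hM1
  have hM0 : 0 < M := by linarith
  -- blocks
  set J : ℕ := Nat.log 2 (Z ^ r) + 1 with hJ
  set S : ℕ → Finset ℕ := fun j => P.filter (fun p => Nat.log 2 p = j) with hS
  have hmaps : ∀ p ∈ P, Nat.log 2 p ∈ range J := by
    intro p hp
    rw [Finset.mem_range, hJ]
    exact Nat.lt_succ_of_le (Nat.log_mono_right (hPmem p hp).2.1)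
  have hSmem : ∀ j, ∀ p ∈ S j, p ∈ P ∧ 2 ^ j ≤ p ∧ p < 2 * 2 ^ j := by
    intro j p hp
    rw [hS] at hp
    simp only [Finset.mem_filter] at hp
    have h1 := (hPmem p hp.1).2.2.pos
    refine ⟨hp.1, ?_, ?_⟩
    · rw [← hp.2]
      exact Nat.pow_log_le_self 2 h1.ne'
    · have h2 := Nat.lt_pow_succ_log_self (b := 2) one_lt_two p
      rw [hp.2, pow_succ] at h2
      omega
  have hfib : ∀ g : ℕ → ℝ, ∑ j ∈ range J, ∑ p ∈ S j, g p = ∑ p ∈ P, g p := fun g =>
    Finset.sum_fiberwise_of_maps_to hmaps g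
  -- one block
  have hblock : ∀ j, ∑ n ∈ Icc 1 X, GG a n * ∑ p ∈ S j, Tm b y H n p ≤
      ε / 6 * ((S j).card / (2 ^ j : ℝ)) * H * X + 6 * C * H * X / √Z := by
    intro j
    have hsZ : 0 < √(Z : ℝ) := Real.sqrt_pos.2 hZpos
    have hpos2 : 0 ≤ 6 * C * H * X / √Z := by positivity
    have hpos1 : 0 ≤ ε / 6 * ((S j).card / (2 ^ j : ℝ)) * H * X := by positivity
    rcases (S j).eq_empty_or_nonempty with hemp | ⟨p0, hp0⟩
    · have h1 : ∑ n ∈ Icc 1 X, GG a n * ∑ p ∈ S j, Tm b y H n p = 0 := by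
        rw [hemp]
        simp
      rw [h1]
      linarith
    · obtain ⟨hp0P, hp0l, hp0u⟩ := hSmem j p0 hp0
      have hDZ : 2 ^ j ≤ Z ^ r := hp0l.trans (hPmem p0 hp0P).2.1
      have hD1 : 1 ≤ 2 ^ j := Nat.one_le_two_pow
      have hDH : 2 ^ j ≤ H := hDZ.trans ((Nat.le_mul_of_pos_left _ (by omega)).trans hZrr)
      have hDX : (2 ^ j) ^ 2 ≤ X := by
        rw [pow_two]
        exact ((Nat.mul_le_mul hDZ hDZ).trans hZrr).trans hHX
      have hH0D : H0 * 2 ^ j ≤ H := (Nat.mul_le_mul (hZH0.trans hZr) hDZ).trans hZrr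
      have hsub : S j ⊆ Ico (2 ^ j) (2 * 2 ^ j) := by
        intro p hp
        rw [Finset.mem_Ico]
        exact ⟨(hSmem j p hp).2.1, (hSmem j p hp).2.2⟩
      have htot : ∀ d ∈ S j, (d : ℝ) ≤ 2 * Nat.totient d := by
        intro d hd
        have hdp := (hPmem d (hSmem j d hd).1).2.2
        rw [Nat.totient_prime hdp]
        have h1 := hdp.two_le
        have h2 : ((d - 1 : ℕ) : ℝ) = (d : ℝ) - 1 := by
          rw [Nat.cast_sub (by omega), Nat.cast_one]
        rw [h2]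
        have h3 : (2 : ℝ) ≤ d := by exact_mod_cast h1
        linarith
      by_cases hrich : 1 * Real.log X ^ k ≤ ((S j).card : ℝ) * H
      · have h1 := hF X ((le_max_right _ _).trans hX) (2 ^ j) H y hD1 hDX hH0D hHX hyX (S j) hsub htot hrich
        push_cast at h1
        unfold Tm
        linarith
      · rw [not_le, one_mul] at hrich
        have hcard : ((S j).card : ℝ) / 2 ^ j ≤ 3 / √Z := by
          have h1 : ((S j).card : ℝ) ^ (4 * r) ≤ H := by
            have h2 : (((S j).card : ℝ) * H) ^ (4 * r) ≤ (Real.log X ^ k) ^ (4 * r) :=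
              pow_le_pow_left₀ (by positivity) hrich.le _
            rw [← pow_mul] at h2
            have h3 := h2.trans hHL
            rw [mul_pow, pow_succ (H : ℝ), mul_comm ((H : ℝ) ^ (4 * r)) (H : ℝ)] at h3
            exact le_of_mul_le_mul_right h3 (by positivity)
          have h4 : (S j).card ^ (4 * r) ≤ H := by exact_mod_cast h1
          have h5 : (S j).card ^ 2 < 2 * Z := by
            by_contra hcon
            rw [not_lt] at hcon
            have h6 : (2 * Z) ^ (2 * r) ≤ ((S j).card ^ 2) ^ (2 * r) := Nat.pow_le_pow_left hcon _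
            rw [← pow_mul, show 2 * (2 * r) = 4 * r by ring] at h6
            omega
          have h6 : ((S j).card : ℝ) ^ 2 ≤ 2 * Z := by exact_mod_cast h5.le
          have h7 : (Z : ℝ) ≤ 2 * 2 ^ j := by
            have h8 : Z ≤ 2 * 2 ^ j := (hPmem p0 hp0P).1.le.trans hp0u.le
            exact_mod_cast h8
          have h9 : (((S j).card : ℝ) / 2 ^ j) ^ 2 ≤ (3 / √Z) ^ 2 := by
            rw [div_pow, div_pow, Real.sq_sqrt hZpos.le, div_le_div_iff₀ (by positivity) hZpos]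
            have h10 : (Z : ℝ) ^ 2 ≤ (2 * 2 ^ j) ^ 2 := pow_le_pow_left₀ hZpos.le h7 2
            nlinarith [mul_le_mul_of_nonneg_right h6 hZpos.le]
          exact le_of_sq_le_sq h9 (by positivity)
        have hDR : (0 : ℝ) < 2 ^ j := by positivity
        have hT : ∀ n ∈ Icc 1 X, GG a n * ∑ p ∈ S j, Tm b y H n p ≤
            GG a n * (((S j).card : ℝ) * (2 * H / 2 ^ j)) := by
          intro n _
          refine mul_le_mul_of_nonneg_left ?_ (GG_nonneg a n)
          calc ∑ p ∈ S j, Tm b y H n p ≤ ∑ _p ∈ S j, 2 * (H : ℝ) / 2 ^ j := by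
                refine Finset.sum_le_sum fun p hp => ?_
                have h1 := Tm_le hb y H n p (2 ^ j) hD1 (hSmem j p hp).2.1 hDH
                push_cast at h1
                exact h1
            _ = _ := by rw [Finset.sum_const, nsmul_eq_mul]
        calc ∑ n ∈ Icc 1 X, GG a n * ∑ p ∈ S j, Tm b y H n p
            ≤ ∑ n ∈ Icc 1 X, GG a n * (((S j).card : ℝ) * (2 * H / 2 ^ j)) := Finset.sum_le_sum hT
          _ = (∑ n ∈ Icc 1 X, GG a n) * (2 * H * (((S j).card : ℝ) / 2 ^ j)) := by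
              rw [← Finset.sum_mul]
              ring
          _ ≤ (C * X) * (2 * H * (3 / √Z)) := by
              refine mul_le_mul hsum (mul_le_mul_of_nonneg_left hcard (by positivity)) (by positivity)
                (by positivity)
          _ = 6 * C * H * X / √Z := by ring
          _ ≤ _ := by linarith
  -- the sum over the blocks
  have hcardsum : ∑ j ∈ range J, ((S j).card / (2 ^ j : ℝ)) ≤ 2 * M := by
    calc ∑ j ∈ range J, ((S j).card / (2 ^ j : ℝ)) ≤ ∑ j ∈ range J, ∑ p ∈ S j, 2 * ((1 : ℝ) / p) := by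
          refine Finset.sum_le_sum fun j _ => ?_
          have h1 : ((S j).card / (2 ^ j : ℝ)) = ∑ _p ∈ S j, 1 / (2 ^ j : ℝ) := by
            rw [Finset.sum_const, nsmul_eq_mul]
            ring
          rw [h1]
          refine Finset.sum_le_sum fun p hp => ?_
          have h2 := (hSmem j p hp).2.2
          have h3 : 0 < p := (hPmem p (hSmem j p hp).1).2.2.pos
          have h4 : (0 : ℝ) < p := by exact_mod_cast h3
          have h5 : (p : ℝ) ≤ 2 * 2 ^ j := by exact_mod_cast h2.le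
          rw [mul_one_div, div_le_div_iff₀ (by positivity) h4]
          linarith
      _ = 2 * M := by
          rw [hfib (fun p => 2 * ((1 : ℝ) / p)), ← Finset.mul_sum]
  have hJb : (J : ℝ) / √Z ≤ ε / (18 * C) := hfb Z hZ2
  have hall : ∑ n ∈ Icc 1 X, GG a n * ∑ p ∈ P, Tm b y H n p ≤ ε / 3 * M * H * X + ε / 3 * H * X := by
    have h1 : ∑ n ∈ Icc 1 X, GG a n * ∑ p ∈ P, Tm b y H n p =
        ∑ j ∈ range J, ∑ n ∈ Icc 1 X, GG a n * ∑ p ∈ S j, Tm b y H n p := by
      rw [Finset.sum_comm]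
      refine Finset.sum_congr rfl fun n _ => ?_
      rw [← hfib (fun p => Tm b y H n p), Finset.mul_sum]
    rw [h1]
    calc ∑ j ∈ range J, ∑ n ∈ Icc 1 X, GG a n * ∑ p ∈ S j, Tm b y H n p
        ≤ ∑ j ∈ range J, (ε / 6 * ((S j).card / (2 ^ j : ℝ)) * H * X + 6 * C * H * X / √Z) :=
          Finset.sum_le_sum fun j _ => hblock j
      _ = ε / 6 * H * X * ∑ j ∈ range J, ((S j).card / (2 ^ j : ℝ)) + 6 * C * H * X * (J / √Z) := by
          rw [Finset.sum_add_distrib, Finset.sum_const, Finset.card_range, nsmul_eq_mul, Finset.mul_sum]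
          congr 1
          · exact Finset.sum_congr rfl fun j _ => by ring
          · ring
      _ ≤ ε / 6 * H * X * (2 * M) + 6 * C * H * X * (ε / (18 * C)) :=
          add_le_add (mul_le_mul_of_nonneg_left hcardsum (by positivity))
            (mul_le_mul_of_nonneg_left hJb (by positivity))
      _ = ε / 3 * M * H * X + ε / 3 * H * X := by
          field_simp
          ring
  have hsqrt : C * (2 / √M) ≤ ε / 3 := by
    have h1 : 6 * C / ε ≤ √M := Real.le_sqrt_of_sq_le (by linarith)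
    have h2 : 0 < √M := Real.sqrt_pos.2 hM0
    rw [div_le_iff₀ hε] at h1
    rw [mul_div_assoc', div_le_iff₀ h2]
    linarith
  calc ∑ n ∈ Icc 1 X, GG a n * |∑ h ∈ Ioc y (y + H), b (ArithmeticFunction.cardFactors (n + h))|
      ≤ ∑ n ∈ Icc 1 X, GG a n * ((∑ p ∈ P, Tm b y H n p) / M + 2 * H / √M) :=
        Finset.sum_le_sum fun n _ => mul_le_mul_of_nonneg_left
          (tk_n hb (fun p hp => (hPmem p hp).2.2) hPH hM2 n y) (GG_nonneg a n)
    _ = (∑ n ∈ Icc 1 X, GG a n * ∑ p ∈ P, Tm b y H n p) / M + (∑ n ∈ Icc 1 X, GG a n) * (2 * H / √M) := by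
        rw [Finset.sum_div, Finset.sum_mul, ← Finset.sum_add_distrib]
        exact Finset.sum_congr rfl fun n _ => by ring
    _ ≤ (ε / 3 * M * H * X + ε / 3 * H * X) / M + (C * X) * (2 * H / √M) :=
        add_le_add (div_le_div_of_nonneg_right hall hM0.le) (mul_le_mul_of_nonneg_right hsum (by positivity))
    _ ≤ ε * H * X := by
        have h1 : (ε / 3 * M * H * X + ε / 3 * H * X) / M ≤ ε / 3 * H * X + ε / 3 * H * X := by
          rw [div_le_iff₀ hM0]
          have h2 : 0 ≤ ε / 3 * H * X := by positivity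
          nlinarith
        have h3 : (C * X) * (2 * H / √M) = (C * (2 / √M)) * (H * X) := by ring
        have h4 : (C * (2 / √M)) * (H * X) ≤ ε / 3 * (H * X) :=
          mul_le_mul_of_nonneg_right hsqrt (by positivity)
        rw [h3]
        linarith

end Pool.Agent.Helper8.DW
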