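import Pool.Agent.Helper8.DW.Forms
import Pool.Agent.Helper83.HLD.Mom

/-!
# DW-4: the correlations of the prime tuples on two progressions

`vv a X (d m - h) ≠ 0` means: `d m > h`, `d m - h ≤ X` and all `d m - h + a i` are prime, i.e. the forms `(d, a i - h)` have prime values
at `m` (`((d : ℤ) * m + (a i - h)).toNat = d * m - h + a i` when `h < d * m`).
* If `gcd (d, a i - h) = g > 1` for some `i` (as integers): a prime value is divisible by `g`, so it is a prime dividing `d`, so `≤ d`: then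
  `h < d m ≤ h + d`, at most one `m`.  So the sum is at most `1 ≤ C M / (log X) ^ (2 k)` (`X ≤ M ^ 2`, `log X ≤ 2 log M`,
  `(log M) ^ n ≤ (2 n) ^ n √M ≤ ... M`, see `log_pow_le` in `Count.lean`).
* `cn1_le` (one progression): all forms primitive: `count_forms k` with `s` = image of `i ↦ (d, a i - h)` (`k` different forms, determinants
  `d (a i' - a i) ≠ 0`, `W (d n) ≤ W d * W n`), `W d ≤ C0`, `log X ≤ 2 log M`.
* `cn2_le` (two progressions): all forms primitive: `count_forms (2 k)` with `s` the union of the two images.  The `2 k` forms are different and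
  have nonzero determinants: inside a group as before; between the groups: `d (a j - h') = d' (a i - h)` with both forms primitive gives `d = d'`
  (as `d ∣ d' (a i - h)`, `gcd (d, a i - h) = 1`) and `a i - h = a j - h'`, excluded by hypothesis.
  The product over `offDiag` consists of the factors inside the groups, bounded in terms of `a`, `C0`, and, for all `i, j`, twice
  `W |d' (h - a i) - d (h' - a j)| ^ (2 k)`; so this part is `∏_{i, j} W(..) ^ (4 k)` and by `Helper83.HLD.prod_le_one_add`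
  (over `univ : Finset (Fin k × Fin k)`, which has `k ^ 2` elements) at most `1 + ∑_{i, j} W (..) ^ (4 k * k ^ 2)`.
  In the imprimitive case the bound follows from `1 ≤ 1 + ∑ ..`.
-/

set_option autoImplicit false

namespace Pool.Agent.Helper8.DW

open Finset Pool.Agent.Helper83.HLC

private theorem W_nn (n : ℕ) : 0 ≤ W n := zero_le_one.trans (one_le_W n)

private theorem one_le_prod_r {ι : Type*} (s : Finset ι) (f : ι → ℝ) (hf : ∀ i, 1 ≤ f i) :
    1 ≤ ∏ i ∈ s, f i := by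
  calc (1 : ℝ) = ∏ _i ∈ s, (1 : ℝ) := by simp
    _ ≤ _ := Finset.prod_le_prod (fun _ _ => zero_le_one) fun i _ => hf i

private theorem prod_mono_one {ι : Type*} [DecidableEq ι] {s t : Finset ι} (h : s ⊆ t) (f : ι → ℝ)
    (hf : ∀ i, 1 ≤ f i) : ∏ i ∈ s, f i ≤ ∏ i ∈ t, f i := by
  rw [← Finset.prod_sdiff h]
  have h1 := one_le_prod_r (t \ s) f hf
  have h2 : 0 ≤ ∏ i ∈ s, f i := zero_le_one.trans (one_le_prod_r s f hf)
  nlinarith

private theorem prod_le_const {ι : Type*} (s : Finset ι) (f : ι → ℝ) (c : ℝ)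
    (h0 : ∀ i ∈ s, 0 ≤ f i) (h1 : ∀ i ∈ s, f i ≤ c) : ∏ i ∈ s, f i ≤ c ^ s.card := by
  calc ∏ i ∈ s, f i ≤ ∏ _i ∈ s, c := Finset.prod_le_prod h0 h1
    _ = _ := by rw [Finset.prod_const]

/-- the linear form -/
private def fm {k : ℕ} (a : Fin k → ℕ) (d h : ℕ) (i : Fin k) : ℤ × ℤ := ((d : ℤ), (a i : ℤ) - h)

private theorem fm_inj {k : ℕ} {a : Fin k → ℕ} (ha : Function.Injective a) (d h : ℕ) :
    Function.Injective (fm a d h) := by
  intro i j hij
  have h1 := congrArg Prod.snd hij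
  simp only [fm] at h1
  exact ha (by omega)

private theorem vv_form {k : ℕ} {a : Fin k → ℕ} {X d h m : ℕ} (h1 : vv a X (d * m - h) ≠ 0)
    (i : Fin k) : ((fm a d h i).1 * (m : ℤ) + (fm a d h i).2).toNat = d * m - h + a i ∧
      (d * m - h + a i).Prime ∧ h < d * m := by
  obtain ⟨h2, _, h3⟩ := vv_pos_iff.1 h1
  have hlt : h < d * m := by omega
  refine ⟨?_, h3 i, hlt⟩
  have h4 : (fm a d h i).1 * (m : ℤ) + (fm a d h i).2 = ((d * m - h + a i : ℕ) : ℤ) := by
    simp only [fm]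
    push_cast [Nat.cast_sub hlt.le]
    ring
  rw [h4, Int.toNat_natCast]

private theorem at_most_one {k : ℕ} (a : Fin k → ℕ) (X M d h : ℕ) (hd : 1 ≤ d) (i : Fin k)
    (hg : Int.gcd (fm a d h i).1 (fm a d h i).2 ≠ 1) :
    ∑ m ∈ Icc 1 M, vv a X (d * m - h) ≤ 1 := by
  classical
  have key : ∀ m, vv a X (d * m - h) ≠ 0 →
      Int.gcd (fm a d h i).1 (fm a d h i).2 = d * m - h + a i := by
    intro m hm
    obtain ⟨h1, h2, h3⟩ := vv_form hm i
    have h4 : (Int.gcd (fm a d h i).1 (fm a d h i).2 : ℤ) ∣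
        (fm a d h i).1 * (m : ℤ) + (fm a d h i).2 :=
      dvd_add (Dvd.dvd.mul_right (Int.gcd_dvd_left _ _) _) (Int.gcd_dvd_right _ _)
    have h5 : (fm a d h i).1 * (m : ℤ) + (fm a d h i).2 = ((d * m - h + a i : ℕ) : ℤ) := by
      simp only [fm]
      push_cast [Nat.cast_sub h3.le]
      ring
    rw [h5] at h4
    have h6 : Int.gcd (fm a d h i).1 (fm a d h i).2 ∣ d * m - h + a i := by exact_mod_cast h4
    exact (h2.eq_one_or_self_of_dvd _ h6).resolve_left hg
  have hcard : ((Icc 1 M).filter (fun m => vv a X (d * m - h) ≠ 0)).card ≤ 1 := by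
    rw [Finset.card_le_one]
    intro m1 hm1 m2 hm2
    rw [mem_filter] at hm1 hm2
    have e1 := key m1 hm1.2
    have e2 := key m2 hm2.2
    have l1 := (vv_form hm1.2 i).2.2
    have l2 := (vv_form hm2.2 i).2.2
    have e3 : d * m1 = d * m2 := by omega
    exact Nat.eq_of_mul_eq_mul_left hd e3
  calc ∑ m ∈ Icc 1 M, vv a X (d * m - h)
      = ∑ m ∈ (Icc 1 M).filter (fun m => vv a X (d * m - h) ≠ 0), vv a X (d * m - h) :=
        (Finset.sum_filter_ne_zero _).symm
    _ ≤ ∑ _m ∈ (Icc 1 M).filter (fun m => vv a X (d * m - h) ≠ 0), (1 : ℝ) :=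
        Finset.sum_le_sum fun _ _ => vv_le_one _ _ _
    _ = (((Icc 1 M).filter (fun m => vv a X (d * m - h) ≠ 0)).card : ℝ) := by simp
    _ ≤ 1 := by exact_mod_cast hcard

private theorem log_pow_le (m X : ℕ) (hX : 2 ≤ X) :
    (Real.log X) ^ m ≤ (2 * (m : ℝ)) ^ m * X := by
  have hX1 : (1 : ℝ) ≤ X := by exact_mod_cast (by omega : 1 ≤ X)
  rcases Nat.eq_zero_or_pos m with h0 | h0
  · subst h0
    rw [pow_zero, pow_zero, one_mul]
    exact hX1
  · have hm : (0 : ℝ) < m := by exact_mod_cast h0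
    have h1 := Real.log_le_rpow_div (x := (X : ℝ)) (ε := 1 / (2 * (m : ℝ))) (by positivity)
      (by positivity)
    have hl : 0 ≤ Real.log X := Real.log_nonneg hX1
    have h2 := pow_le_pow_left₀ hl h1 m
    refine h2.trans ?_
    rw [div_pow, ← Real.rpow_natCast ((X : ℝ) ^ (1 / (2 * (m : ℝ)))) m,
      ← Real.rpow_mul (by positivity)]
    have e1 : 1 / (2 * (m : ℝ)) * (m : ℝ) = 1 / 2 := by field_simp
    have e2 : (1 / (2 * (m : ℝ))) ^ m = ((2 * (m : ℝ)) ^ m)⁻¹ := by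
      rw [one_div, inv_pow]
    rw [e1, e2, div_inv_eq_mul, mul_comm]
    refine mul_le_mul_of_nonneg_left ?_ (by positivity)
    calc (X : ℝ) ^ ((1 : ℝ) / 2) ≤ (X : ℝ) ^ (1 : ℝ) :=
          Real.rpow_le_rpow_of_exponent_le hX1 (by norm_num)
      _ = X := Real.rpow_one _

private theorem log_le {X M : ℕ} (hX : 2 ≤ X) (hM : 2 ≤ M) (h : X ≤ M ^ 2) :
    0 < Real.log X ∧ 0 < Real.log M ∧ Real.log X ≤ 2 * Real.log M := by
  have hX1 : (1 : ℝ) < X := by exact_mod_cast (by omega : 1 < X)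
  have hM1 : (1 : ℝ) < M := by exact_mod_cast (by omega : 1 < M)
  refine ⟨Real.log_pos hX1, Real.log_pos hM1, ?_⟩
  have h1 : Real.log X ≤ Real.log ((M : ℝ) ^ 2) :=
    Real.log_le_log (by linarith) (by exact_mod_cast h)
  rwa [Real.log_pow, Nat.cast_ofNat] at h1

private theorem log_cmp {X M : ℕ} (hX : 2 ≤ X) (hM : 2 ≤ M) (h : X ≤ M ^ 2) (n : ℕ) {C : ℝ}
    (hC : 0 ≤ C) : C * M / Real.log M ^ n ≤ C * 2 ^ n * M / Real.log X ^ n := by
  obtain ⟨h1, h2, h3⟩ := log_le hX hM h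
  rw [div_le_div_iff₀ (pow_pos h2 n) (pow_pos h1 n)]
  have h4 : Real.log X ^ n ≤ 2 ^ n * Real.log M ^ n := by
    rw [← mul_pow]
    exact pow_le_pow_left₀ h1.le h3 n
  have h5 : 0 ≤ C * M := mul_nonneg hC (Nat.cast_nonneg _)
  calc C * M * Real.log X ^ n ≤ C * M * (2 ^ n * Real.log M ^ n) :=
        mul_le_mul_of_nonneg_left h4 h5
    _ = _ := by ring

private theorem one_le_bd (n : ℕ) : ∃ C : ℝ, 0 < C ∧ ∀ X M : ℕ, 2 ≤ X → 2 ≤ M → X ≤ M ^ 2 →
    1 ≤ C * M / Real.log X ^ n := by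
  refine ⟨2 ^ n * (2 * (n : ℝ)) ^ n, ?_, ?_⟩
  · rcases Nat.eq_zero_or_pos n with h0 | h0
    · subst h0
      norm_num
    · have : (0 : ℝ) < n := by exact_mod_cast h0
      positivity
  · intro X M hX hM h
    obtain ⟨h1, h2, h3⟩ := log_le hX hM h
    rw [le_div_iff₀ (pow_pos h1 n), one_mul]
    calc Real.log X ^ n ≤ (2 * Real.log M) ^ n := pow_le_pow_left₀ h1.le h3 n
      _ = 2 ^ n * Real.log M ^ n := mul_pow _ _ _
      _ ≤ 2 ^ n * ((2 * (n : ℝ)) ^ n * M) :=
        mul_le_mul_of_nonneg_left (log_pow_le n M hM) (by positivity)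
      _ = _ := by ring

/-- the product over all pairs of shifts -/
private noncomputable def AA {k : ℕ} (a : Fin k → ℕ) : ℝ :=
  ∏ x : Fin k × Fin k, W ((a x.2 : ℤ) - a x.1).natAbs

private theorem one_le_AA {k : ℕ} (a : Fin k → ℕ) : 1 ≤ AA a :=
  one_le_prod_r _ _ fun _ => one_le_W _

private theorem le_AA {k : ℕ} (a : Fin k → ℕ) (i j : Fin k) :
    W ((a j : ℤ) - a i).natAbs ≤ AA a := by
  classical
  have h := prod_mono_one (Finset.subset_univ {((i, j) : Fin k × Fin k)})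
    (fun x : Fin k × Fin k => W ((a x.2 : ℤ) - a x.1).natAbs) fun _ => one_le_W _
  rw [Finset.prod_singleton] at h
  exact h

private theorem dt_self_group {k : ℕ} (a : Fin k → ℕ) (d h : ℕ) (i j : Fin k) :
    dt (fm a d h i) (fm a d h j) = d * ((a j : ℤ) - a i).natAbs := by
  unfold dt fm
  have h1 : (d : ℤ) * ((a j : ℤ) - h) - (d : ℤ) * ((a i : ℤ) - h) = d * ((a j : ℤ) - a i) := by ring
  simp only [h1]
  rw [Int.natAbs_mul, Int.natAbs_natCast]

private theorem W_group {k : ℕ} (a : Fin k → ℕ) {C0 : ℝ} {d : ℕ} (hd : W d ≤ C0) (h : ℕ)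
    (i j : Fin k) (r : ℕ) :
    W (dt (fm a d h i) (fm a d h j)) ^ r ≤ (C0 * AA a) ^ r := by
  refine pow_le_pow_left₀ (W_nn _) ?_ r
  rw [dt_self_group]
  refine (W_mul_le _ _).trans ?_
  exact mul_le_mul hd (le_AA a i j) (W_nn _) ((W_nn d).trans hd)

private theorem prod_group {k : ℕ} (a : Fin k → ℕ) {C0 : ℝ} {d : ℕ} (hd : W d ≤ C0) (h : ℕ)
    (r : ℕ) :
    ∏ i, ∏ j, W (dt (fm a d h i) (fm a d h j)) ^ r ≤ (((C0 * AA a) ^ r) ^ k) ^ k := by
  have h1 : ∀ i : Fin k, ∏ j, W (dt (fm a d h i) (fm a d h j)) ^ r ≤ ((C0 * AA a) ^ r) ^ k := by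
    intro i
    have h2 := prod_le_const (univ : Finset (Fin k))
      (fun j => W (dt (fm a d h i) (fm a d h j)) ^ r) ((C0 * AA a) ^ r)
      (fun j _ => pow_nonneg (W_nn _) _) (fun j _ => W_group a hd h i j r)
    rwa [Finset.card_univ, Fintype.card_fin] at h2
  have h3 := prod_le_const (univ : Finset (Fin k))
    (fun i => ∏ j, W (dt (fm a d h i) (fm a d h j)) ^ r) (((C0 * AA a) ^ r) ^ k)
    (fun i _ => Finset.prod_nonneg fun j _ => pow_nonneg (W_nn _) _) (fun i _ => h1 i)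
  rwa [Finset.card_univ, Fintype.card_fin] at h3

private theorem dt_ne {k : ℕ} {a : Fin k → ℕ} (ha : Function.Injective a) {d : ℕ} (hd : 1 ≤ d)
    (h : ℕ) {i j : Fin k} (hij : fm a d h i ≠ fm a d h j) :
    dt (fm a d h i) (fm a d h j) ≠ 0 := by
  rw [dt_self_group]
  refine mul_ne_zero (by omega) ?_
  rw [Int.natAbs_ne_zero, sub_ne_zero]
  intro h1
  apply hij
  have : a j = a i := by exact_mod_cast h1
  rw [ha this]

theorem cn1_le {k : ℕ} (a : Fin k → ℕ) (ha : Function.Injective a) (C0 : ℝ) : ∃ C : ℝ, 0 < C ∧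
    ∀ X M : ℕ, 2 ≤ X → 2 ≤ M → X ≤ M ^ 2 → ∀ d h : ℕ, 1 ≤ d → W d ≤ C0 →
      ∑ m ∈ Icc 1 M, vv a X (d * m - h) ≤ C * M / Real.log X ^ k := by
  classical
  obtain ⟨C1, hC1, hcf⟩ := count_forms k
  obtain ⟨C2, hC2, hone⟩ := one_le_bd k
  set B : ℝ := max 1 C0 with hB
  have hB1 : 1 ≤ B := le_max_left _ _
  have hA1 := one_le_AA a
  set K : ℝ := (B ^ k) ^ k * (((B * AA a) ^ k) ^ k) ^ k with hK
  have hK0 : 0 < K := by positivity
  refine ⟨C1 * K * 2 ^ k + C2, by positivity, ?_⟩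
  intro X M hX hM hXM d h hd hW
  obtain ⟨hlX, hlM, -⟩ := log_le hX hM hXM
  have hWB : W d ≤ B := hW.trans (le_max_right _ _)
  have hsplit : (C1 * K * 2 ^ k + C2) * M / Real.log X ^ k =
      C1 * K * 2 ^ k * M / Real.log X ^ k + C2 * M / Real.log X ^ k := by ring
  rw [hsplit]
  have hn1 : 0 ≤ C1 * K * 2 ^ k * M / Real.log X ^ k := by positivity
  have hn2 : 0 ≤ C2 * M / Real.log X ^ k := by positivity
  by_cases hprim : ∀ i : Fin k, Int.gcd (fm a d h i).1 (fm a d h i).2 = 1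
  · set s : Finset (ℤ × ℤ) := univ.image (fm a d h) with hs
    have hcard : s.card = k := by
      rw [hs, Finset.card_image_of_injective _ (fm_inj ha d h), Finset.card_univ,
        Fintype.card_fin]
    have h1 := hcf M hM s hcard (by
        intro L hL
        rw [hs, mem_image] at hL
        obtain ⟨i, -, rfl⟩ := hL
        exact ⟨by simp only [fm]; exact_mod_cast hd, hprim i⟩)
      (by
        intro L hL L' hL' hne
        rw [hs, mem_image] at hL hL'
        obtain ⟨i, -, rfl⟩ := hL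
        obtain ⟨j, -, rfl⟩ := hL'
        exact dt_ne ha hd h hne)
    have h2 : ∑ m ∈ Icc 1 M, vv a X (d * m - h) ≤
        ((((Icc 1 M).filter (fun m : ℕ => ∀ L ∈ s,
          (L.1 * (m : ℤ) + L.2).toNat.Prime)).card : ℕ) : ℝ) := by
      rw [Finset.card_filter, Nat.cast_sum]
      refine Finset.sum_le_sum fun m _ => ?_
      by_cases h3 : vv a X (d * m - h) = 0
      · rw [h3]
        positivity
      · have h4 : ∀ L ∈ s, (L.1 * (m : ℤ) + L.2).toNat.Prime := by
          intro L hL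
          rw [hs, mem_image] at hL
          obtain ⟨i, -, rfl⟩ := hL
          obtain ⟨h5, h6, -⟩ := vv_form h3 i
          rw [h5]
          exact h6
        rw [if_pos h4, Nat.cast_one]
        exact vv_le_one _ _ _
    have h3 : (∏ L ∈ s, W L.1.natAbs ^ k) * ∏ x ∈ s.offDiag, W (dt x.1 x.2) ^ k ≤ K := by
      rw [hK]
      refine mul_le_mul ?_ ?_ (Finset.prod_nonneg fun _ _ => pow_nonneg (W_nn _) _)
        (by positivity)
      · have h4 := prod_le_const s (fun L => W L.1.natAbs ^ k) (B ^ k)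
          (fun _ _ => pow_nonneg (W_nn _) _) (by
            intro L hL
            rw [hs, mem_image] at hL
            obtain ⟨i, -, rfl⟩ := hL
            refine pow_le_pow_left₀ (W_nn _) ?_ k
            simp only [fm, Int.natAbs_natCast]
            exact hWB)
        rwa [hcard] at h4
      · calc ∏ x ∈ s.offDiag, W (dt x.1 x.2) ^ k
            ≤ ∏ x ∈ s ×ˢ s, W (dt x.1 x.2) ^ k := by
              refine prod_mono_one ?_ _ fun _ => one_le_pow₀ (one_le_W _)
              intro x hx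
              rw [Finset.mem_offDiag] at hx
              rw [Finset.mem_product]
              exact ⟨hx.1, hx.2.1⟩
          _ = ∏ i, ∏ j, W (dt (fm a d h i) (fm a d h j)) ^ k := by
              rw [Finset.prod_product, hs, Finset.prod_image fun i _ j _ e => fm_inj ha d h e]
              refine Finset.prod_congr rfl fun i _ => ?_
              rw [Finset.prod_image fun i _ j _ e => fm_inj ha d h e]
          _ ≤ _ := prod_group a hWB h k
    calc ∑ m ∈ Icc 1 M, vv a X (d * m - h) ≤ C1 * M / Real.log M ^ k *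
          ((∏ L ∈ s, W L.1.natAbs ^ k) * ∏ x ∈ s.offDiag, W (dt x.1 x.2) ^ k) := h2.trans h1
      _ ≤ C1 * M / Real.log M ^ k * K := mul_le_mul_of_nonneg_left h3 (by positivity)
      _ = C1 * K * M / Real.log M ^ k := by ring
      _ ≤ C1 * K * 2 ^ k * M / Real.log X ^ k := log_cmp hX hM hXM k (by positivity)
      _ ≤ _ := by linarith
  · push Not at hprim
    obtain ⟨i, hi⟩ := hprim
    have h1 := at_most_one a X M d h hd i hi
    have h2 := hone X M hX hM hXM
    linarith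

private theorem dt_cross {k : ℕ} (a : Fin k → ℕ) (d h d' h' : ℕ) (i j : Fin k) :
    dt (fm a d h i) (fm a d' h' j) =
      ((d' : ℤ) * ((h : ℤ) - a i) - d * ((h' : ℤ) - a j)).natAbs := by
  unfold dt fm
  congr 1
  simp only
  ring

private theorem dt_comm (L L' : ℤ × ℤ) : dt L L' = dt L' L := by
  unfold dt
  rw [← Int.natAbs_neg]
  congr 1
  ring

private theorem dt_cross_ne {L L' : ℤ × ℤ} (h1 : 1 ≤ L.1) (h1' : 1 ≤ L'.1)
    (hg : Int.gcd L.1 L.2 = 1) (hg' : Int.gcd L'.1 L'.2 = 1) (hne : L ≠ L') : dt L L' ≠ 0 := by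
  intro h0
  unfold dt at h0
  rw [Int.natAbs_eq_zero, sub_eq_zero] at h0
  have hd : L.1 ∣ L'.1 := by
    have h2 : L.1 ∣ L'.1 * L.2 := ⟨L'.2, h0.symm⟩
    exact (Int.isCoprime_iff_gcd_eq_one.2 hg).dvd_of_dvd_mul_right h2
  have hd' : L'.1 ∣ L.1 := by
    have h2 : L'.1 ∣ L.1 * L'.2 := ⟨L.2, h0⟩
    exact (Int.isCoprime_iff_gcd_eq_one.2 hg').dvd_of_dvd_mul_right h2
  have he : L.1 = L'.1 := Int.dvd_antisymm (by omega) (by omega) hd hd'
  apply hne
  refine Prod.ext he ?_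
  rw [← he] at h0
  exact (mul_left_cancel₀ (by omega : L.1 ≠ 0) h0).symm

theorem cn2_le {k : ℕ} (a : Fin k → ℕ) (ha : Function.Injective a) (C0 : ℝ) : ∃ C : ℝ, 0 < C ∧
    ∀ X M : ℕ, 2 ≤ X → 2 ≤ M → X ≤ M ^ 2 → ∀ d h d' h' : ℕ, 1 ≤ d → 1 ≤ d' → W d ≤ C0 → W d' ≤ C0 →
      (d = d' → ∀ i j, a i + h' ≠ a j + h) →
      ∑ m ∈ Icc 1 M, vv a X (d * m - h) * vv a X (d' * m - h') ≤
        C * M / Real.log X ^ (2 * k) *
          (1 + ∑ i, ∑ j, W ((d' : ℤ) * ((h : ℤ) - a i) - d * ((h' : ℤ) - a j)).natAbs ^ (4 * k ^ 3)) := by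
  classical
  obtain ⟨C1, hC1, hcf⟩ := count_forms (2 * k)
  obtain ⟨C2, hC2, hone⟩ := one_le_bd (2 * k)
  set B : ℝ := max 1 C0 with hB
  have hB1 : 1 ≤ B := le_max_left _ _
  have hA1 := one_le_AA a
  set K : ℝ := (B ^ (2 * k)) ^ (2 * k) *
    ((((B * AA a) ^ (2 * k)) ^ k) ^ k * (((B * AA a) ^ (2 * k)) ^ k) ^ k) with hK
  have hK0 : 0 < K := by positivity
  refine ⟨C1 * K * 2 ^ (2 * k) + C2, by positivity, ?_⟩
  intro X M hX hM hXM d h d' h' hd hd' hW hW' hdisj
  obtain ⟨hlX, hlM, -⟩ := log_le hX hM hXM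
  have hWB : W d ≤ B := hW.trans (le_max_right _ _)
  have hWB' : W d' ≤ B := hW'.trans (le_max_right _ _)
  set S : ℝ := ∑ i, ∑ j,
    W ((d' : ℤ) * ((h : ℤ) - a i) - d * ((h' : ℤ) - a j)).natAbs ^ (4 * k ^ 3) with hS
  have hS0 : 0 ≤ S := Finset.sum_nonneg fun _ _ => Finset.sum_nonneg fun _ _ =>
    pow_nonneg (W_nn _) _
  have hsplit : (C1 * K * 2 ^ (2 * k) + C2) * M / Real.log X ^ (2 * k) * (1 + S) =
      C1 * K * 2 ^ (2 * k) * M / Real.log X ^ (2 * k) * (1 + S) +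
        C2 * M / Real.log X ^ (2 * k) * (1 + S) := by ring
  rw [hsplit]
  have hn1 : 0 ≤ C1 * K * 2 ^ (2 * k) * M / Real.log X ^ (2 * k) * (1 + S) := by positivity
  have hn2 : 0 ≤ C2 * M / Real.log X ^ (2 * k) * (1 + S) := by positivity
  have hlast : 1 ≤ C2 * M / Real.log X ^ (2 * k) * (1 + S) := by
    have h2 := hone X M hX hM hXM
    nlinarith
  by_cases hprim : ∀ i : Fin k, Int.gcd (fm a d h i).1 (fm a d h i).2 = 1
  swap
  · push Not at hprim
    obtain ⟨i, hi⟩ := hprim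
    have h1 := at_most_one a X M d h hd i hi
    have h3 : ∑ m ∈ Icc 1 M, vv a X (d * m - h) * vv a X (d' * m - h') ≤
        ∑ m ∈ Icc 1 M, vv a X (d * m - h) := by
      refine Finset.sum_le_sum fun m _ => ?_
      exact mul_le_of_le_one_right (vv_nonneg _ _ _) (vv_le_one _ _ _)
    linarith
  by_cases hprim' : ∀ i : Fin k, Int.gcd (fm a d' h' i).1 (fm a d' h' i).2 = 1
  swap
  · push Not at hprim'
    obtain ⟨i, hi⟩ := hprim'
    have h1 := at_most_one a X M d' h' hd' i hi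
    have h3 : ∑ m ∈ Icc 1 M, vv a X (d * m - h) * vv a X (d' * m - h') ≤
        ∑ m ∈ Icc 1 M, vv a X (d' * m - h') := by
      refine Finset.sum_le_sum fun m _ => ?_
      exact mul_le_of_le_one_left (vv_nonneg _ _ _) (vv_le_one _ _ _)
    linarith
  set s1 : Finset (ℤ × ℤ) := univ.image (fm a d h) with hs1
  set s2 : Finset (ℤ × ℤ) := univ.image (fm a d' h') with hs2
  have hdis : Disjoint s1 s2 := by
    rw [Finset.disjoint_left]
    intro L hL hL'
    rw [hs1, mem_image] at hL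
    rw [hs2, mem_image] at hL'
    obtain ⟨i, -, rfl⟩ := hL
    obtain ⟨j, -, hj⟩ := hL'
    have e1 := congrArg Prod.fst hj
    have e2 := congrArg Prod.snd hj
    simp only [fm] at e1 e2
    have e3 : d = d' := by omega
    exact hdisj e3 i j (by omega)
  have hcard : (s1 ∪ s2).card = 2 * k := by
    rw [Finset.card_union_of_disjoint hdis, hs1, hs2,
      Finset.card_image_of_injective _ (fm_inj ha d h),
      Finset.card_image_of_injective _ (fm_inj ha d' h'), Finset.card_univ, Fintype.card_fin]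
    ring
  have hmem : ∀ L ∈ s1 ∪ s2, (∃ i, fm a d h i = L) ∨ ∃ i, fm a d' h' i = L := by
    intro L hL
    rw [mem_union, hs1, hs2, mem_image, mem_image] at hL
    rcases hL with ⟨i, -, hi⟩ | ⟨i, -, hi⟩
    · exact Or.inl ⟨i, hi⟩
    · exact Or.inr ⟨i, hi⟩
  have hok : ∀ L ∈ s1 ∪ s2, 1 ≤ L.1 ∧ Int.gcd L.1 L.2 = 1 := by
    intro L hL
    rcases hmem L hL with ⟨i, rfl⟩ | ⟨i, rfl⟩
    · exact ⟨by simp only [fm]; exact_mod_cast hd, hprim i⟩
    · exact ⟨by simp only [fm]; exact_mod_cast hd', hprim' i⟩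
  have h1 := hcf M hM (s1 ∪ s2) hcard hok (by
    intro L hL L' hL' hne
    exact dt_cross_ne (hok L hL).1 (hok L' hL').1 (hok L hL).2 (hok L' hL').2 hne)
  have h2 : ∑ m ∈ Icc 1 M, vv a X (d * m - h) * vv a X (d' * m - h') ≤
      ((((Icc 1 M).filter (fun m : ℕ => ∀ L ∈ s1 ∪ s2,
        (L.1 * (m : ℤ) + L.2).toNat.Prime)).card : ℕ) : ℝ) := by
    rw [Finset.card_filter, Nat.cast_sum]
    refine Finset.sum_le_sum fun m _ => ?_
    by_cases h3 : vv a X (d * m - h) * vv a X (d' * m - h') = 0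
    · rw [h3]
      positivity
    · have h3a : vv a X (d * m - h) ≠ 0 := left_ne_zero_of_mul h3
      have h3b : vv a X (d' * m - h') ≠ 0 := right_ne_zero_of_mul h3
      have h4 : ∀ L ∈ s1 ∪ s2, (L.1 * (m : ℤ) + L.2).toNat.Prime := by
        intro L hL
        rcases hmem L hL with ⟨i, rfl⟩ | ⟨i, rfl⟩
        · obtain ⟨h5, h6, -⟩ := vv_form h3a i
          rw [h5]
          exact h6
        · obtain ⟨h5, h6, -⟩ := vv_form h3b i
          rw [h5]
          exact h6
      rw [if_pos h4, Nat.cast_one]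
      exact mul_le_one₀ (vv_le_one _ _ _) (vv_nonneg _ _ _) (vv_le_one _ _ _)
  have hP1 : ∏ L ∈ s1 ∪ s2, W L.1.natAbs ^ (2 * k) ≤ (B ^ (2 * k)) ^ (2 * k) := by
    have h4 := prod_le_const (s1 ∪ s2) (fun L => W L.1.natAbs ^ (2 * k)) (B ^ (2 * k))
      (fun _ _ => pow_nonneg (W_nn _) _) (by
        intro L hL
        refine pow_le_pow_left₀ (W_nn _) ?_ (2 * k)
        rcases hmem L hL with ⟨i, rfl⟩ | ⟨i, rfl⟩
        · simp only [fm, Int.natAbs_natCast]
          exact hWB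
        · simp only [fm, Int.natAbs_natCast]
          exact hWB')
    rwa [hcard] at h4
  have hcross : (∏ i, ∏ j, W (dt (fm a d h i) (fm a d' h' j)) ^ (2 * k)) *
      (∏ i, ∏ j, W (dt (fm a d' h' i) (fm a d h j)) ^ (2 * k)) ≤ 1 + S := by
    have e1 : ∏ i, ∏ j, W (dt (fm a d' h' i) (fm a d h j)) ^ (2 * k) =
        ∏ i, ∏ j, W (dt (fm a d h i) (fm a d' h' j)) ^ (2 * k) := by
      rw [Finset.prod_comm]
      refine Finset.prod_congr rfl fun i _ => Finset.prod_congr rfl fun j _ => ?_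
      rw [dt_comm]
    rw [e1, ← Finset.prod_mul_distrib]
    have e2 : ∀ i ∈ (univ : Finset (Fin k)),
        (∏ j, W (dt (fm a d h i) (fm a d' h' j)) ^ (2 * k)) *
          (∏ j, W (dt (fm a d h i) (fm a d' h' j)) ^ (2 * k)) =
        ∏ j, W (dt (fm a d h i) (fm a d' h' j)) ^ (4 * k) := by
      intro i _
      rw [← Finset.prod_mul_distrib]
      refine Finset.prod_congr rfl fun j _ => ?_
      rw [← pow_add]
      congr 1
      ring
    rw [Finset.prod_congr rfl e2, ← Finset.prod_product']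
    refine (Pool.Agent.Helper83.HLD.prod_le_one_add
      ((univ : Finset (Fin k)) ×ˢ (univ : Finset (Fin k)))
      (fun x => W (dt (fm a d h x.1) (fm a d' h' x.2)) ^ (4 * k))
      fun x => pow_nonneg (W_nn _) _).trans (le_of_eq ?_)
    rw [hS, ← Finset.sum_product']
    congr 1
    refine Finset.sum_congr rfl fun x _ => ?_
    rw [dt_cross, ← pow_mul, Finset.card_product, Finset.card_univ, Fintype.card_fin]
    congr 1
    ring
  have hP2 : ∏ x ∈ (s1 ∪ s2).offDiag, W (dt x.1 x.2) ^ (2 * k) ≤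
      ((((B * AA a) ^ (2 * k)) ^ k) ^ k * (((B * AA a) ^ (2 * k)) ^ k) ^ k) * (1 + S) := by
    have himg1 : ∀ f : ℤ × ℤ → ℝ, ∏ L ∈ s1, f L = ∏ i, f (fm a d h i) := by
      intro f
      rw [hs1, Finset.prod_image fun i _ j _ e => fm_inj ha d h e]
    have himg2 : ∀ f : ℤ × ℤ → ℝ, ∏ L ∈ s2, f L = ∏ i, f (fm a d' h' i) := by
      intro f
      rw [hs2, Finset.prod_image fun i _ j _ e => fm_inj ha d' h' e]
    calc ∏ x ∈ (s1 ∪ s2).offDiag, W (dt x.1 x.2) ^ (2 * k)
        ≤ ∏ x ∈ (s1 ∪ s2) ×ˢ (s1 ∪ s2), W (dt x.1 x.2) ^ (2 * k) := by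
          refine prod_mono_one ?_ _ fun _ => one_le_pow₀ (one_le_W _)
          intro x hx
          rw [Finset.mem_offDiag] at hx
          rw [Finset.mem_product]
          exact ⟨hx.1, hx.2.1⟩
      _ = ((∏ i, ∏ j, W (dt (fm a d h i) (fm a d h j)) ^ (2 * k)) *
            (∏ i, ∏ j, W (dt (fm a d' h' i) (fm a d' h' j)) ^ (2 * k))) *
          ((∏ i, ∏ j, W (dt (fm a d h i) (fm a d' h' j)) ^ (2 * k)) *
            (∏ i, ∏ j, W (dt (fm a d' h' i) (fm a d h j)) ^ (2 * k))) := by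
          rw [Finset.prod_product, Finset.prod_union hdis, himg1, himg2]
          have e3 : ∀ L : ℤ × ℤ, ∏ y ∈ s1 ∪ s2, W (dt L y) ^ (2 * k) =
              (∏ j, W (dt L (fm a d h j)) ^ (2 * k)) *
                ∏ j, W (dt L (fm a d' h' j)) ^ (2 * k) := by
            intro L
            rw [Finset.prod_union hdis, himg1, himg2]
          simp only [e3]
          rw [Finset.prod_mul_distrib, Finset.prod_mul_distrib]
          ring
      _ ≤ _ := by
          refine mul_le_mul ?_ hcross ?_ (by positivity)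
          · exact mul_le_mul (prod_group a hWB h (2 * k)) (prod_group a hWB' h' (2 * k))
              (Finset.prod_nonneg fun _ _ => Finset.prod_nonneg fun _ _ =>
                pow_nonneg (W_nn _) _) (by positivity)
          · exact mul_nonneg (Finset.prod_nonneg fun _ _ => Finset.prod_nonneg fun _ _ =>
                pow_nonneg (W_nn _) _) (Finset.prod_nonneg fun _ _ => Finset.prod_nonneg
                  fun _ _ => pow_nonneg (W_nn _) _)
  have h3 : (∏ L ∈ s1 ∪ s2, W L.1.natAbs ^ (2 * k)) *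
      ∏ x ∈ (s1 ∪ s2).offDiag, W (dt x.1 x.2) ^ (2 * k) ≤ K * (1 + S) := by
    rw [hK, mul_assoc]
    exact mul_le_mul hP1 hP2 (Finset.prod_nonneg fun _ _ => pow_nonneg (W_nn _) _)
      (by positivity)
  calc ∑ m ∈ Icc 1 M, vv a X (d * m - h) * vv a X (d' * m - h')
      ≤ C1 * M / Real.log M ^ (2 * k) *
        ((∏ L ∈ s1 ∪ s2, W L.1.natAbs ^ (2 * k)) *
          ∏ x ∈ (s1 ∪ s2).offDiag, W (dt x.1 x.2) ^ (2 * k)) := h2.trans h1
    _ ≤ C1 * M / Real.log M ^ (2 * k) * (K * (1 + S)) :=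
        mul_le_mul_of_nonneg_left h3 (by positivity)
    _ = (C1 * K * M / Real.log M ^ (2 * k)) * (1 + S) := by ring
    _ ≤ (C1 * K * 2 ^ (2 * k) * M / Real.log X ^ (2 * k)) * (1 + S) :=
        mul_le_mul_of_nonneg_right (log_cmp hX hM hXM (2 * k) (by positivity)) (by linarith)
    _ ≤ _ := by linarith

end Pool.Agent.Helper8.DW
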