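import Pool.Agent.Helper8.DW.Defs

/-!
# DW-8: exchange of the sums

`∑_{n ≤ X} vv n ∑_{d ∈ S} ∑_{h ∈ mul n d y H} B ((n + h) / d)`: put `m = (n + h) / d`, so `n = d m - h`; for fixed `d, h` the map `n ↦ m` is injective on the
`n` with `d ∣ n + h`, and `1 ≤ m ≤ (X + y + H) / D ≤ M`.  Hence the sum is at most (in fact equal to)
`∑_{m ≤ M} B m ∑_{d ∈ S} ∑_{h ∈ (y, y + H]} vv (d m - h)`; then Cauchy-Schwarz (`Finset.sum_mul_sq_le_sq_mul_sq`).
-/

set_option autoImplicit false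

namespace Pool.Agent.Helper8.DW

open Finset

theorem exch {k : ℕ} (a : Fin k → ℕ) (X D H y M : ℕ) (hD : 1 ≤ D) (S : Finset ℕ) (hS : ∀ d ∈ S, D ≤ d)
    (hM : X + y + H ≤ D * M) (B : ℕ → ℝ) (hB : ∀ m, 0 ≤ B m) :
    ∑ n ∈ Icc 1 X, vv a X n * ∑ d ∈ S, ∑ h ∈ mul n d y H, B ((n + h) / d) ≤
      ∑ m ∈ Icc 1 M, B m * NN a X S y H m := by
  classical
  have hL : ∑ n ∈ Icc 1 X, vv a X n * ∑ d ∈ S, ∑ h ∈ mul n d y H, B ((n + h) / d) =
      ∑ d ∈ S, ∑ h ∈ Ioc y (y + H), ∑ n ∈ (Icc 1 X).filter (fun n => d ∣ n + h),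
        vv a X n * B ((n + h) / d) := by
    have h1 : ∀ n ∈ Icc 1 X, vv a X n * ∑ d ∈ S, ∑ h ∈ mul n d y H, B ((n + h) / d) =
        ∑ d ∈ S, ∑ h ∈ Ioc y (y + H), if d ∣ n + h then vv a X n * B ((n + h) / d) else 0 := by
      intro n _
      rw [Finset.mul_sum]
      refine Finset.sum_congr rfl fun d _ => ?_
      rw [Finset.mul_sum, mul, Finset.sum_filter]
    rw [Finset.sum_congr rfl h1, Finset.sum_comm]
    refine Finset.sum_congr rfl fun d _ => ?_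
    rw [Finset.sum_comm]
    refine Finset.sum_congr rfl fun h _ => ?_
    rw [Finset.sum_filter]
  have hR : ∑ m ∈ Icc 1 M, B m * NN a X S y H m =
      ∑ d ∈ S, ∑ h ∈ Ioc y (y + H), ∑ m ∈ Icc 1 M, B m * vv a X (d * m - h) := by
    have h1 : ∀ m ∈ Icc 1 M, B m * NN a X S y H m =
        ∑ d ∈ S, ∑ h ∈ Ioc y (y + H), B m * vv a X (d * m - h) := by
      intro m _
      rw [NN, Finset.mul_sum]
      refine Finset.sum_congr rfl fun d _ => ?_
      rw [Finset.mul_sum]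
    rw [Finset.sum_congr rfl h1, Finset.sum_comm]
    refine Finset.sum_congr rfl fun d _ => ?_
    rw [Finset.sum_comm]
  rw [hL, hR]
  refine Finset.sum_le_sum fun d hd => Finset.sum_le_sum fun h hh => ?_
  have hd1 : D ≤ d := hS d hd
  have hd0 : 0 < d := lt_of_lt_of_le (by omega) hd1
  have hh2 : h ≤ y + H := (Finset.mem_Ioc.1 hh).2
  have hh1 : y < h := (Finset.mem_Ioc.1 hh).1
  have hinj : ∀ n ∈ (Icc 1 X).filter (fun n => d ∣ n + h),
      d * ((n + h) / d) = n + h := fun n hn => Nat.mul_div_cancel' (Finset.mem_filter.1 hn).2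
  have hinj' : Set.InjOn (fun n => (n + h) / d)
      ((Icc 1 X).filter (fun n => d ∣ n + h) : Finset ℕ) := by
    intro n hn n' hn' he
    have h1 := hinj n hn
    have h2 := hinj n' hn'
    have he' : (n + h) / d = (n' + h) / d := he
    rw [he'] at h1
    omega
  have h3 : ∑ n ∈ (Icc 1 X).filter (fun n => d ∣ n + h), vv a X n * B ((n + h) / d) =
      ∑ m ∈ ((Icc 1 X).filter (fun n => d ∣ n + h)).image (fun n => (n + h) / d),
        B m * vv a X (d * m - h) := by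
    rw [Finset.sum_image hinj']
    refine Finset.sum_congr rfl fun n hn => ?_
    rw [hinj n hn, Nat.add_sub_cancel, mul_comm]
  rw [h3]
  apply Finset.sum_le_sum_of_subset_of_nonneg
  · intro m hm
    obtain ⟨n, hn, rfl⟩ := Finset.mem_image.1 hm
    have hn1 := Finset.mem_Icc.1 (Finset.mem_filter.1 hn).1
    have h4 := hinj n hn
    rw [Finset.mem_Icc]
    constructor
    · rcases Nat.eq_zero_or_pos ((n + h) / d) with h5 | h5
      · rw [h5] at h4
        omega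
      · exact h5
    · by_contra hc
      have h5 : M < (n + h) / d := by omega
      have h6 : D * M < d * ((n + h) / d) := by
        calc D * M ≤ d * M := Nat.mul_le_mul_right _ hd1
          _ < d * ((n + h) / d) := Nat.mul_lt_mul_of_pos_left h5 hd0
      rw [h4] at h6
      omega
  · intro m _ _
    exact mul_nonneg (hB m) (vv_nonneg _ _ _)

theorem exch_sq {k : ℕ} (a : Fin k → ℕ) (X D H y M : ℕ) (hD : 1 ≤ D) (S : Finset ℕ) (hS : ∀ d ∈ S, D ≤ d)
    (hM : X + y + H ≤ D * M) (B : ℕ → ℝ) (hB : ∀ m, 0 ≤ B m) (P Q : ℝ)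
    (hP : ∑ m ∈ Icc 1 M, B m ^ 2 ≤ P) (hQ : ∑ m ∈ Icc 1 M, NN a X S y H m ^ 2 ≤ Q) :
    ∑ n ∈ Icc 1 X, vv a X n * ∑ d ∈ S, ∑ h ∈ mul n d y H, B ((n + h) / d) ≤ √(P * Q) := by
  refine (exch a X D H y M hD S hS hM B hB).trans ?_
  apply Real.le_sqrt_of_sq_le
  refine (Finset.sum_mul_sq_le_sq_mul_sq _ _ _).trans ?_
  have h0 : 0 ≤ ∑ m ∈ Icc 1 M, B m ^ 2 := Finset.sum_nonneg fun _ _ => sq_nonneg _
  have h1 : 0 ≤ ∑ m ∈ Icc 1 M, NN a X S y H m ^ 2 := Finset.sum_nonneg fun _ _ => sq_nonneg _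
  exact mul_le_mul hP hQ h1 (h0.trans hP)

end Pool.Agent.Helper8.DW
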