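import Pool.Agent.Helper8.DW.Main

/-!
# DW-11: the theorem with von Mangoldt weights

Split the `n ≤ X` according to `vv a X n ≠ 0` or `= 0`.
* `≠ 0`: `GG_good`, `main0` with `C0 ^ 2` (`W_le_totient`) and `ε / 2 ^ (k + 1)`; the powers of `log X` cancel.
* `= 0`: `|b| ≤ 1`, `card_mul`: the sum over `d` is at most `|S| (H / D + 1) ≤ 2 |S| H / D` (`D ≤ d`, `D ≤ H`); `GG_bad` with `η = ε / 4`.
-/

set_option autoImplicit false

namespace Pool.Agent.Helper8.DW

open Finset Pool.Agent.Helper83.HLC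

private theorem inner_le {q : ℕ} {b : ℕ → ℝ} (hb : Per q b) (D H y n : ℕ) (hD : 1 ≤ D) (hDH : D ≤ H)
    (S : Finset ℕ) (hS : S ⊆ Ico D (2 * D)) :
    ∑ d ∈ S, |∑ h ∈ mul n d y H, b (ArithmeticFunction.cardFactors (n + h))| ≤
      (S.card : ℝ) * (2 * H / D) := by
  have hD0 : (0 : ℝ) < D := by exact_mod_cast hD
  have h1 : ∀ d ∈ S, |∑ h ∈ mul n d y H, b (ArithmeticFunction.cardFactors (n + h))| ≤
      2 * H / D := by
    intro d hd
    have hd1 := Finset.mem_Ico.1 (hS hd)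
    have hd0 : 1 ≤ d := hD.trans hd1.1
    have e1 : |∑ h ∈ mul n d y H, b (ArithmeticFunction.cardFactors (n + h))| ≤
        (mul n d y H).card := by
      refine (Finset.abs_sum_le_sum_abs _ _).trans ?_
      refine (Finset.sum_le_sum fun h _ => hb.le _).trans ?_
      simp
    refine e1.trans ((card_mul n d y H hd0).trans ?_)
    have e2 : (H : ℝ) / d ≤ H / D :=
      div_le_div_of_nonneg_left (Nat.cast_nonneg _) hD0 (by exact_mod_cast hd1.1)
    have e3 : (1 : ℝ) ≤ H / D := by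
      rw [le_div_iff₀ hD0, one_mul]
      exact_mod_cast hDH
    have e4 : (2 : ℝ) * H / D = H / D + H / D := by ring
    rw [e4]
    linarith
  refine (Finset.sum_le_sum h1).trans ?_
  rw [Finset.sum_const, nsmul_eq_mul]

theorem final {k : ℕ} (a : Fin k → ℕ) (ha : Function.Injective a) {q : ℕ} {b : ℕ → ℝ} (hb : Per q b) (C0 c ε : ℝ)
    (hc : 0 < c) (hε : 0 < ε) : ∃ H0 X0 : ℕ, ∀ X : ℕ, X0 ≤ X → ∀ D H y : ℕ, 1 ≤ D → D ^ 2 ≤ X → H0 * D ≤ H → H ≤ X → y ≤ X →
      ∀ S ⊆ Ico D (2 * D), (∀ d ∈ S, (d : ℝ) ≤ C0 * Nat.totient d) → c * Real.log X ^ k ≤ S.card * H →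
      ∑ n ∈ Icc 1 X, GG a n * ∑ d ∈ S, |∑ h ∈ mul n d y H, b (ArithmeticFunction.cardFactors (n + h))| ≤
        ε * (S.card / D) * H * X := by
  obtain ⟨H1, X1, h1⟩ := main0 a ha hb (C0 ^ 2) c (ε / 2 ^ (k + 1)) hc (by positivity)
  obtain ⟨X2, h2⟩ := GG_bad a (ε / 4) (by linarith)
  refine ⟨max H1 1, max (max X1 X2) (max 3 (∑ i, a i)), ?_⟩
  intro X hX D H y hD hDX hH hHX hyX S hS hSC hcS
  have hX1 : X1 ≤ X := (le_max_left _ _).trans ((le_max_left _ _).trans hX)
  have hX2 : X2 ≤ X := (le_max_right _ _).trans ((le_max_left _ _).trans hX)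
  have hX3 : 3 ≤ X := (le_max_left _ _).trans ((le_max_right _ _).trans hX)
  have hXa : ∑ i, a i ≤ X := (le_max_right _ _).trans ((le_max_right _ _).trans hX)
  have hH1 : H1 * D ≤ H := (Nat.mul_le_mul_right D (le_max_left _ _)).trans hH
  have hDH : D ≤ H := by
    have := (Nat.mul_le_mul_right D (le_max_right H1 1)).trans hH
    omega
  have hD0 : (0 : ℝ) < D := by exact_mod_cast hD
  have hX0 : (0 : ℝ) < X := by
    have : 0 < X := by omega
    exact_mod_cast this
  have hL : 0 < Real.log X := Real.log_pos (by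
    have : 1 < X := by omega
    exact_mod_cast this)
  set T : ℕ → ℝ := fun n => ∑ d ∈ S, |∑ h ∈ mul n d y H, b (ArithmeticFunction.cardFactors (n + h))|
    with hT
  have hT0 : ∀ n, 0 ≤ T n := fun n => Finset.sum_nonneg fun _ _ => abs_nonneg _
  have hTle : ∀ n, T n ≤ (S.card : ℝ) * (2 * H / D) := fun n => inner_le hb D H y n hD hDH S hS
  have hm := h1 X hX1 D H y hD hDX hH1 hHX hyX S hS (fun d hd =>
    W_le_totient (hD.trans (Finset.mem_Ico.1 (hS hd)).1) (hSC d hd)) hcS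
  have hbad := h2 X hX2
  change ∑ n ∈ Icc 1 X, GG a n * T n ≤ _
  rw [← Finset.sum_filter_add_sum_filter_not (Icc 1 X) (fun n => vv a X n = 0)]
  have hA : ∑ n ∈ (Icc 1 X).filter (fun n => vv a X n = 0), GG a n * T n ≤
      ε / 2 * ((S.card / D) * H * X) := by
    have e1 : ∑ n ∈ (Icc 1 X).filter (fun n => vv a X n = 0), GG a n * T n ≤
        ∑ n ∈ (Icc 1 X).filter (fun n => vv a X n = 0), GG a n * ((S.card : ℝ) * (2 * H / D)) :=
      Finset.sum_le_sum fun n _ => mul_le_mul_of_nonneg_left (hTle n) (GG_nonneg _ _)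
    rw [← Finset.sum_mul] at e1
    have hnn : 0 ≤ (S.card : ℝ) * (2 * H / D) := by positivity
    have e2 := mul_le_mul_of_nonneg_right hbad hnn
    refine (e1.trans e2).trans (le_of_eq ?_)
    field_simp
    ring
  have hB : ∑ n ∈ (Icc 1 X).filter (fun n => ¬ vv a X n = 0), GG a n * T n ≤
      ε / 2 * ((S.card / D) * H * X) := by
    have e1 : ∑ n ∈ (Icc 1 X).filter (fun n => ¬ vv a X n = 0), GG a n * T n ≤
        ∑ n ∈ (Icc 1 X).filter (fun n => ¬ vv a X n = 0),
          (2 * Real.log X) ^ k * (vv a X n * T n) := by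
      refine Finset.sum_le_sum fun n hn => ?_
      rw [Finset.mem_filter] at hn
      rw [← mul_assoc]
      exact mul_le_mul_of_nonneg_right (GG_good a X n (by omega) hXa hn.1 hn.2) (hT0 n)
    have e2 : ∑ n ∈ (Icc 1 X).filter (fun n => ¬ vv a X n = 0),
        (2 * Real.log X) ^ k * (vv a X n * T n) ≤
        (2 * Real.log X) ^ k * ∑ n ∈ Icc 1 X, vv a X n * T n := by
      rw [Finset.mul_sum]
      exact Finset.sum_le_sum_of_subset_of_nonneg (Finset.filter_subset _ _) fun n _ _ =>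
        mul_nonneg (by positivity) (mul_nonneg (vv_nonneg _ _ _) (hT0 n))
    have e3 := mul_le_mul_of_nonneg_left hm (by positivity : 0 ≤ (2 * Real.log X) ^ k)
    refine ((e1.trans e2).trans e3).trans (le_of_eq ?_)
    have hLk : Real.log X ^ k ≠ 0 := by positivity
    have h2k : (2 : ℝ) ^ k ≠ 0 := by positivity
    rw [mul_pow, pow_succ]
    field_simp
  calc _ ≤ ε / 2 * ((S.card / D) * H * X) + ε / 2 * ((S.card / D) * H * X) := add_le_add hA hB
    _ = ε * (S.card / D) * H * X := by ring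

end Pool.Agent.Helper8.DW
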