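import Pool.Agent.Helper8.DW.Root
import Pool.Agent.Helper13.Om.BT

/-!
# DW-3: upper bound sieve for linear forms

Copy and adapt `Helper83/HLC/Count.lean` (the case `L.1 = 1` of all forms).  Use `Helper13.Om.sieve_upper` with `D = ∅`, `t = r`,
`b = 1`, `E = Nat.log 2 M / 80`, `P` = the primes in `(r, 2 ^ (E + 1))` and
`Z q` = the `x ∈ range q` such that `q ∣ L.1 * x + L.2` for some `L ∈ s` (as integers).
* `Z q` has at most `r` elements: `L` with `q ∣ L.1` gives nothing (then `q ∤ L.2` as `gcd = 1`), every other `L` gives exactly one `x`.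
* `n % q ∈ Z q` iff `q ∣ L.1 * n + L.2` for some `L ∈ s`.
* if `q` divides no `L.1` and no determinant `L.1 * L'.2 - L'.1 * L.2` (`L ≠ L'`) then `(Z q).card = r` (a common root `x` of `L`, `L'` gives
  `q ∣ L'.1 (L.1 x + L.2) - L.1 (L'.1 x + L'.2)`) and the factor is `1 - r / q ≤ (1 - 1 / q) ^ r`;
  otherwise the factor is `≤ 1 ≤ (1 - 1/q) ^ r (1 + 2/q) ^ r`.  Hence
  `∏_{q ∈ P} (1 - |Z q| / q) ≤ (∏_{q ∈ P} (1 - 1/q)) ^ r * ∏_{L ∈ s} W (L.1) ^ r * ∏_{x ∈ s.offDiag} W (det) ^ r`.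
* if all `L.1 * m + L.2` are prime and `> 2 ^ (E + 1)` then `m % q ∉ Z q` for `q ∈ P`.  The `m` with some `1 ≤ L.1 * m + L.2 ≤ 2 ^ (E + 1)` are at
  most `r 2 ^ (E + 1)` (the map `m ↦ L.1 * m + L.2` is injective).
* the rest (Mertens, error terms) as in `Count.lean`.
-/

set_option autoImplicit false

namespace Pool.Agent.Helper8.DW

open Finset Pool.Agent.Helper83.HLC

/-- The determinant of two forms. -/
def dt (L L' : ℤ × ℤ) : ℕ := (L.1 * L'.2 - L'.1 * L.2).natAbs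

/-- The roots of a form modulo `q`. -/
private def R (q : ℕ) (L : ℤ × ℤ) : Finset ℕ :=
  (range q).filter (fun x : ℕ => (q : ℤ) ∣ L.1 * (x : ℤ) + L.2)

private def Z (s : Finset (ℤ × ℤ)) (q : ℕ) : Finset ℕ := s.biUnion (R q)

private theorem not_dvd_fst {q : ℕ} (hq : q.Prime) {L : ℤ × ℤ} (hg : Int.gcd L.1 L.2 = 1) {x : ℤ}
    (hx : (q : ℤ) ∣ L.1 * x + L.2) : ¬ (q : ℤ) ∣ L.1 := by
  intro h
  have h2 : (q : ℤ) ∣ L.2 := (Int.dvd_add_right (h.mul_right x)).1 hx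
  have h3 : q ∣ Int.gcd L.1 L.2 := by
    have := Int.dvd_coe_gcd h h2
    exact_mod_cast this
  rw [hg] at h3
  exact hq.one_lt.ne' (Nat.dvd_one.1 h3)

private theorem eq_of_dvd_sub {q x y : ℕ} (hx : x < q) (hy : y < q) (h : (q : ℤ) ∣ (x : ℤ) - y) :
    x = y := by
  have h1 : (x : ℤ) ≡ y [ZMOD q] := ((Int.modEq_iff_dvd).2 h).symm
  have h2 : x ≡ y [MOD q] := (Int.natCast_modEq_iff).1 h1
  unfold Nat.ModEq at h2
  rwa [Nat.mod_eq_of_lt hx, Nat.mod_eq_of_lt hy] at h2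

private theorem R_card_le {q : ℕ} (hq : q.Prime) {L : ℤ × ℤ} (hg : Int.gcd L.1 L.2 = 1) :
    (R q L).card ≤ 1 := by
  rw [Finset.card_le_one]
  intro x hx y hy
  unfold R at hx hy
  rw [Finset.mem_filter, Finset.mem_range] at hx hy
  refine eq_of_dvd_sub hx.1 hy.1 ?_
  have h1 : (q : ℤ) ∣ L.1 * ((x : ℤ) - y) := by
    have := Int.dvd_sub hx.2 hy.2
    have e : L.1 * (x : ℤ) + L.2 - (L.1 * (y : ℤ) + L.2) = L.1 * ((x : ℤ) - y) := by ring
    rwa [e] at this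
  rcases (Nat.prime_iff_prime_int.1 hq).dvd_or_dvd h1 with h | h
  · exact absurd h (not_dvd_fst hq hg hx.2)
  · exact h

private theorem R_card {q : ℕ} (hq : q.Prime) {L : ℤ × ℤ} (hg : Int.gcd L.1 L.2 = 1)
    (hL : ¬ (q : ℤ) ∣ L.1) : (R q L).card = 1 := by
  refine le_antisymm (R_card_le hq hg) ?_
  rw [Nat.one_le_iff_ne_zero, ← Nat.pos_iff_ne_zero, Finset.card_pos]
  have hp := Nat.prime_iff_prime_int.1 hq
  have hcop : IsCoprime L.1 (q : ℤ) := by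
    have h1 : IsCoprime (q : ℤ) L.1 := (Prime.coprime_iff_not_dvd hp).2 hL
    exact h1.symm
  obtain ⟨a, b, hab⟩ := hcop
  have hq0 : (0 : ℤ) < q := by exact_mod_cast hq.pos
  have hnn : 0 ≤ (-(L.2 * a)) % (q : ℤ) := Int.emod_nonneg _ hq0.ne'
  have hlt : (-(L.2 * a)) % (q : ℤ) < q := Int.emod_lt_of_pos _ hq0
  refine ⟨((-(L.2 * a)) % (q : ℤ)).toNat, ?_⟩
  unfold R
  rw [Finset.mem_filter, Finset.mem_range]
  refine ⟨by omega, ?_⟩
  rw [Int.toNat_of_nonneg hnn]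
  have h1 : (q : ℤ) ∣ (-(L.2 * a)) - (-(L.2 * a)) % (q : ℤ) := Int.dvd_self_sub_emod
  obtain ⟨c, hc⟩ := h1
  have h2 : (-(L.2 * a)) % (q : ℤ) = -(L.2 * a) - q * c := by linarith
  rw [h2]
  refine ⟨L.2 * b - L.1 * c, ?_⟩
  have h3 : a * L.1 = 1 - b * (q : ℤ) := by linarith
  calc L.1 * (-(L.2 * a) - (q : ℤ) * c) + L.2
      = -(L.2 * (a * L.1)) - (q : ℤ) * (L.1 * c) + L.2 := by ring
    _ = _ := by rw [h3]; ring

private theorem R_disj {q : ℕ} {L L' : ℤ × ℤ} (hd : ¬ q ∣ dt L L') : Disjoint (R q L) (R q L') := by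
  rw [Finset.disjoint_left]
  intro x hx hx'
  unfold R at hx hx'
  rw [Finset.mem_filter] at hx hx'
  apply hd
  unfold dt
  rw [← Int.natCast_dvd]
  have h1 := Int.dvd_sub (hx'.2.mul_left L.1) (hx.2.mul_left L'.1)
  have e : L.1 * (L'.1 * (x : ℤ) + L'.2) - L'.1 * (L.1 * (x : ℤ) + L.2) =
      L.1 * L'.2 - L'.1 * L.2 := by ring
  rwa [e] at h1

private theorem Z_sub (s : Finset (ℤ × ℤ)) (q : ℕ) : Z s q ⊆ range q := by
  intro x hx
  unfold Z at hx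
  obtain ⟨L, _, hL⟩ := Finset.mem_biUnion.1 hx
  unfold R at hL
  exact (Finset.mem_filter.1 hL).1

private theorem Z_card_le {q : ℕ} (hq : q.Prime) {s : Finset (ℤ × ℤ)}
    (hs : ∀ L ∈ s, 1 ≤ L.1 ∧ Int.gcd L.1 L.2 = 1) : (Z s q).card ≤ s.card := by
  unfold Z
  have := Finset.card_biUnion_le_card_mul s (R q) 1 (fun L hL => R_card_le hq (hs L hL).2)
  rwa [mul_one] at this

private theorem Z_card {q : ℕ} (hq : q.Prime) {s : Finset (ℤ × ℤ)}
    (hs : ∀ L ∈ s, 1 ≤ L.1 ∧ Int.gcd L.1 L.2 = 1) (h1 : ∀ L ∈ s, ¬ q ∣ L.1.natAbs)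
    (h2 : ∀ x ∈ s.offDiag, ¬ q ∣ dt x.1 x.2) : (Z s q).card = s.card := by
  unfold Z
  rw [Finset.card_biUnion]
  · rw [Finset.sum_congr rfl (fun L hL => R_card hq (hs L hL).2 (fun h => h1 L hL
      (Int.natCast_dvd.1 h))), Finset.sum_const, smul_eq_mul, mul_one]
  · intro L hL L' hL' hne
    exact R_disj (h2 (L, L') (Finset.mem_offDiag.2 ⟨hL, hL', hne⟩))

private theorem one_le_ite (q m : ℕ) (d : ℕ) :
    (1 : ℝ) ≤ if q ∣ d then (1 + 2 / (q : ℝ)) ^ m else 1 := by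
  split_ifs
  · have : (0 : ℝ) ≤ 2 / (q : ℝ) := by positivity
    exact one_le_pow₀ (by linarith)
  · exact le_rfl

private theorem one_le_pr {ι : Type*} (A : Finset ι) (f : ι → ℝ) (h : ∀ x ∈ A, 1 ≤ f x) :
    1 ≤ ∏ x ∈ A, f x := by
  calc (1 : ℝ) = ∏ x ∈ A, (1 : ℝ) := by simp
    _ ≤ _ := Finset.prod_le_prod (fun _ _ => zero_le_one) h

private theorem pr_ge {ι : Type*} (A : Finset ι) (d : ι → ℕ) (q m : ℕ)
    (h : ∃ x ∈ A, q ∣ d x) : (1 + 2 / (q : ℝ)) ^ m ≤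
      ∏ x ∈ A, (if q ∣ d x then (1 + 2 / (q : ℝ)) ^ m else 1) := by
  classical
  obtain ⟨x0, hx0, hd⟩ := h
  rw [← Finset.mul_prod_erase _ _ hx0, if_pos hd]
  have h5 : (0 : ℝ) ≤ (1 + 2 / (q : ℝ)) ^ m := by positivity
  exact le_mul_of_one_le_right h5 (one_le_pr _ _ fun x _ => one_le_ite q m _)

private theorem factor_bound {q m : ℕ} (hq : q.Prime) (s : Finset (ℤ × ℤ)) (hc : s.card = m)
    (hs : ∀ L ∈ s, 1 ≤ L.1 ∧ Int.gcd L.1 L.2 = 1) :
    1 - ((Z s q).card : ℝ) / q ≤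
      (1 - 1 / (q : ℝ)) ^ m *
        ((∏ L ∈ s, (if q ∣ L.1.natAbs then (1 + 2 / (q : ℝ)) ^ m else 1)) *
        ∏ x ∈ s.offDiag, (if q ∣ dt x.1 x.2 then (1 + 2 / (q : ℝ)) ^ m else 1)) := by
  classical
  have hq2 : (2 : ℝ) ≤ q := by exact_mod_cast hq.two_le
  have hq0 : (0 : ℝ) < q := by linarith
  have hinv : 1 / (q : ℝ) ≤ 1 / 2 := one_div_le_one_div_of_le (by norm_num) hq2
  have hinv0 : 0 < 1 / (q : ℝ) := by positivity
  have hA1 : (1 : ℝ) ≤ ∏ L ∈ s, (if q ∣ L.1.natAbs then (1 + 2 / (q : ℝ)) ^ m else 1) :=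
    one_le_pr _ _ fun x _ => one_le_ite q m _
  have hB1 : (1 : ℝ) ≤ ∏ x ∈ s.offDiag, (if q ∣ dt x.1 x.2 then (1 + 2 / (q : ℝ)) ^ m else 1) :=
    one_le_pr _ _ fun x _ => one_le_ite q m _
  by_cases h : (∃ L ∈ s, q ∣ L.1.natAbs) ∨ ∃ x ∈ s.offDiag, q ∣ dt x.1 x.2
  · have h1 : 1 - ((Z s q).card : ℝ) / q ≤ 1 := by
      have : 0 ≤ ((Z s q).card : ℝ) / q := by positivity
      linarith
    have h2 : (1 : ℝ) ≤ ((1 - 1 / (q : ℝ)) * (1 + 2 / (q : ℝ))) ^ m := by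
      refine one_le_pow₀ ?_
      have e1 : (1 - 1 / (q : ℝ)) * (1 + 2 / (q : ℝ)) =
          1 + (1 / (q : ℝ)) * (1 - 2 * (1 / (q : ℝ))) := by ring
      rw [e1]
      have : 0 ≤ (1 / (q : ℝ)) * (1 - 2 * (1 / (q : ℝ))) :=
        mul_nonneg hinv0.le (by linarith)
      linarith
    have h3 : (1 + 2 / (q : ℝ)) ^ m ≤
        (∏ L ∈ s, (if q ∣ L.1.natAbs then (1 + 2 / (q : ℝ)) ^ m else 1)) *
        ∏ x ∈ s.offDiag, (if q ∣ dt x.1 x.2 then (1 + 2 / (q : ℝ)) ^ m else 1) := by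
      rcases h with h | h
      · exact (pr_ge s (fun L => L.1.natAbs) q m h).trans
          (le_mul_of_one_le_right (zero_le_one.trans hA1) hB1)
      · exact (pr_ge s.offDiag (fun x => dt x.1 x.2) q m h).trans
          (le_mul_of_one_le_left (zero_le_one.trans hB1) hA1)
    have h6 : 0 ≤ (1 - 1 / (q : ℝ)) ^ m := pow_nonneg (by linarith) m
    calc 1 - ((Z s q).card : ℝ) / q ≤ 1 := h1
      _ ≤ ((1 - 1 / (q : ℝ)) * (1 + 2 / (q : ℝ))) ^ m := h2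
      _ = (1 - 1 / (q : ℝ)) ^ m * (1 + 2 / (q : ℝ)) ^ m := mul_pow _ _ _
      _ ≤ _ := mul_le_mul_of_nonneg_left h3 h6
  · have ha : ∀ L ∈ s, ¬ q ∣ L.1.natAbs := fun L hL hd => h (Or.inl ⟨L, hL, hd⟩)
    have hb : ∀ x ∈ s.offDiag, ¬ q ∣ dt x.1 x.2 := fun x hx hd => h (Or.inr ⟨x, hx, hd⟩)
    rw [Z_card hq hs ha hb, hc]
    have e1 : (1 - (m : ℝ) / q) ≤ (1 - 1 / (q : ℝ)) ^ m := by
      have h1 := one_add_mul_le_pow (a := -(1 / (q : ℝ))) (by linarith) m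
      have e1 : 1 - (m : ℝ) / q = 1 + (m : ℝ) * -(1 / (q : ℝ)) := by ring
      have e2 : (1 - 1 / (q : ℝ)) = 1 + -(1 / (q : ℝ)) := by ring
      rw [e1, e2]
      exact h1
    have h6 : 0 ≤ (1 - 1 / (q : ℝ)) ^ m := pow_nonneg (by linarith) m
    refine e1.trans (le_mul_of_one_le_right h6 ?_)
    calc (1 : ℝ) = 1 * 1 := by norm_num
      _ ≤ _ := mul_le_mul hA1 hB1 zero_le_one (zero_le_one.trans hA1)

private theorem W_bound (P : Finset ℕ) (hP : ∀ q ∈ P, q.Prime) (m d : ℕ) (hd : d ≠ 0) :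
    ∏ q ∈ P, (if q ∣ d then (1 + 2 / (q : ℝ)) ^ m else 1) ≤ W d ^ m := by
  classical
  rw [← Finset.prod_filter, Finset.prod_pow]
  refine pow_le_pow_left₀ (Finset.prod_nonneg fun q _ => by positivity) ?_ m
  have hsub : P.filter (fun q => q ∣ d) ⊆ d.primeFactors := by
    intro q hq
    rw [Finset.mem_filter] at hq
    exact Nat.mem_primeFactors.2 ⟨hP q hq.1, hq.2, hd⟩
  unfold W
  rw [← Finset.prod_sdiff hsub]
  have h1 : (1 : ℝ) ≤ ∏ q ∈ d.primeFactors \ P.filter (fun q => q ∣ d), (1 + 2 / (q : ℝ)) := by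
    refine one_le_pr _ _ fun q _ => ?_
    have : (0 : ℝ) ≤ 2 / (q : ℝ) := by positivity
    linarith
  have h2 : (0 : ℝ) ≤ ∏ q ∈ P.filter (fun q => q ∣ d), (1 + 2 / (q : ℝ)) :=
    Finset.prod_nonneg fun q _ => by positivity
  exact le_mul_of_one_le_left h2 h1

private theorem pr_W {ι : Type*} (P : Finset ℕ) (hP : ∀ q ∈ P, q.Prime) (m : ℕ) (A : Finset ι)
    (d : ι → ℕ) (hd : ∀ x ∈ A, d x ≠ 0) :
    ∏ q ∈ P, ∏ x ∈ A, (if q ∣ d x then (1 + 2 / (q : ℝ)) ^ m else 1) ≤ ∏ x ∈ A, W (d x) ^ m := by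
  rw [Finset.prod_comm]
  refine Finset.prod_le_prod (fun x _ => ?_) fun x hx => W_bound P hP m _ (hd x hx)
  exact Finset.prod_nonneg fun q _ => zero_le_one.trans (one_le_ite q m _)

private theorem prod_bound (P : Finset ℕ) (hP : ∀ q ∈ P, q.Prime) (m : ℕ)
    (hm : ∀ q ∈ P, m < q) (s : Finset (ℤ × ℤ)) (hc : s.card = m)
    (hs : ∀ L ∈ s, 1 ≤ L.1 ∧ Int.gcd L.1 L.2 = 1)
    (hd : ∀ L ∈ s, ∀ L' ∈ s, L ≠ L' → dt L L' ≠ 0) :
    ∏ q ∈ P, (1 - ((Z s q).card : ℝ) / q) ≤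
      (∏ q ∈ P, (1 - 1 / (q : ℝ))) ^ m *
        ((∏ L ∈ s, W L.1.natAbs ^ m) * ∏ x ∈ s.offDiag, W (dt x.1 x.2) ^ m) := by
  classical
  have h1 : ∏ q ∈ P, (1 - ((Z s q).card : ℝ) / q) ≤
      ∏ q ∈ P, ((1 - 1 / (q : ℝ)) ^ m *
        ((∏ L ∈ s, (if q ∣ L.1.natAbs then (1 + 2 / (q : ℝ)) ^ m else 1)) *
        ∏ x ∈ s.offDiag, (if q ∣ dt x.1 x.2 then (1 + 2 / (q : ℝ)) ^ m else 1))) := by
    refine Finset.prod_le_prod (fun q hq => ?_) fun q hq => factor_bound (hP q hq) s hc hs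
    have hc2 : ((Z s q).card : ℝ) ≤ q := by
      have h2 : (Z s q).card ≤ q :=
        ((Z_card_le (hP q hq) hs).trans (le_of_eq hc)).trans (hm q hq).le
      exact_mod_cast h2
    have hq0 : (0 : ℝ) < q := by exact_mod_cast (hP q hq).pos
    have : ((Z s q).card : ℝ) / q ≤ 1 := by
      rw [div_le_one hq0]
      exact hc2
    linarith
  refine h1.trans ?_
  rw [Finset.prod_mul_distrib, Finset.prod_pow, Finset.prod_mul_distrib]
  have h0 : 0 ≤ (∏ q ∈ P, (1 - 1 / (q : ℝ))) ^ m := by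
    refine pow_nonneg (Finset.prod_nonneg fun q hq => ?_) m
    have hq2 : (2 : ℝ) ≤ q := by exact_mod_cast (hP q hq).two_le
    have : 1 / (q : ℝ) ≤ 1 / 2 := one_div_le_one_div_of_le (by norm_num) hq2
    linarith
  refine mul_le_mul_of_nonneg_left ?_ h0
  refine mul_le_mul (pr_W P hP m s _ fun L hL => ?_) (pr_W P hP m s.offDiag _ fun x hx => ?_)
    (Finset.prod_nonneg fun q _ => Finset.prod_nonneg fun x _ =>
      zero_le_one.trans (one_le_ite q m _))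
    (Finset.prod_nonneg fun L _ => pow_nonneg (zero_le_one.trans (one_le_W _)) m)
  · have := (hs L hL).1
    omega
  · rw [Finset.mem_offDiag] at hx
    exact hd _ hx.1 _ hx.2.1 hx.2.2

private theorem small_primes (m N : ℕ) :
    ∏ q ∈ N.primesBelow.filter (fun q => m < q), (1 - 1 / (q : ℝ)) ≤
      2 ^ m * ∏ q ∈ N.primesBelow, (1 - 1 / (q : ℝ)) := by
  classical
  have hfac : ∀ q ∈ N.primesBelow, (1 : ℝ) / 2 ≤ 1 - 1 / (q : ℝ) := by
    intro q hq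
    have hqp := Nat.prime_of_mem_primesBelow hq
    have hq2 : (2 : ℝ) ≤ q := by exact_mod_cast hqp.two_le
    have : 1 / (q : ℝ) ≤ 1 / 2 := one_div_le_one_div_of_le (by norm_num) hq2
    linarith
  rw [← Finset.prod_filter_mul_prod_filter_not N.primesBelow (fun q => m < q)]
  have h1 : (1 / 2 : ℝ) ^ m ≤
      ∏ q ∈ N.primesBelow.filter (fun q => ¬ m < q), (1 - 1 / (q : ℝ)) := by
    have hc : (N.primesBelow.filter (fun q => ¬ m < q)).card ≤ m := by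
      have hsub : N.primesBelow.filter (fun q => ¬ m < q) ⊆ Icc 1 m := by
        intro q hq
        rw [Finset.mem_filter] at hq
        have hqp := Nat.prime_of_mem_primesBelow hq.1
        rw [Finset.mem_Icc]
        exact ⟨hqp.pos, not_lt.1 hq.2⟩
      have := Finset.card_le_card hsub
      rwa [Nat.card_Icc, Nat.add_sub_cancel] at this
    calc (1 / 2 : ℝ) ^ m ≤ (1 / 2 : ℝ) ^ (N.primesBelow.filter (fun q => ¬ m < q)).card :=
          pow_le_pow_of_le_one (by norm_num) (by norm_num) hc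
      _ = ∏ q ∈ N.primesBelow.filter (fun q => ¬ m < q), (1 / 2 : ℝ) := by
          rw [Finset.prod_const]
      _ ≤ _ := Finset.prod_le_prod (fun _ _ => by norm_num)
            fun q hq => hfac q (Finset.mem_filter.1 hq).1
  have h2 : 0 ≤ ∏ q ∈ N.primesBelow.filter (fun q => m < q), (1 - 1 / (q : ℝ)) :=
    Finset.prod_nonneg fun q hq => by linarith [hfac q (Finset.mem_filter.1 hq).1]
  have h3 : (2 : ℝ) ^ m * (1 / 2 : ℝ) ^ m = 1 := by
    rw [← mul_pow]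
    norm_num
  calc ∏ q ∈ N.primesBelow.filter (fun q => m < q), (1 - 1 / (q : ℝ))
      = (2 : ℝ) ^ m * ((∏ q ∈ N.primesBelow.filter (fun q => m < q), (1 - 1 / (q : ℝ))) *
          (1 / 2 : ℝ) ^ m) := by
        rw [mul_comm (∏ q ∈ N.primesBelow.filter (fun q => m < q), (1 - 1 / (q : ℝ))),
          ← mul_assoc, h3, one_mul]
    _ ≤ _ := mul_le_mul_of_nonneg_left (mul_le_mul_of_nonneg_left h1 h2) (by positivity)

private theorem log_pow_le (m X : ℕ) (hX : 2 ≤ X) :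
    (Real.log X) ^ m ≤ (2 * (m : ℝ)) ^ m * Real.sqrt X := by
  have hX1 : (1 : ℝ) ≤ X := by exact_mod_cast (by omega : 1 ≤ X)
  rcases Nat.eq_zero_or_pos m with h0 | h0
  · subst h0
    rw [pow_zero, pow_zero, one_mul]
    exact Real.one_le_sqrt.2 hX1
  · have hm : (0 : ℝ) < m := by exact_mod_cast h0
    have h1 := Real.log_le_rpow_div (x := (X : ℝ)) (ε := 1 / (2 * (m : ℝ))) (by positivity)
      (by positivity)
    have hl : 0 ≤ Real.log X := Real.log_nonneg hX1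
    have h2 := pow_le_pow_left₀ hl h1 m
    refine h2.trans (le_of_eq ?_)
    rw [div_pow, ← Real.rpow_natCast ((X : ℝ) ^ (1 / (2 * (m : ℝ)))) m,
      ← Real.rpow_mul (by positivity)]
    have e1 : 1 / (2 * (m : ℝ)) * (m : ℝ) = 1 / 2 := by field_simp
    rw [e1, Real.sqrt_eq_rpow]
    have e2 : (1 / (2 * (m : ℝ))) ^ m = ((2 * (m : ℝ)) ^ m)⁻¹ := by
      rw [one_div, inv_pow]
    rw [e2, div_inv_eq_mul, mul_comm]

private theorem exc_card (M N : ℕ) (s : Finset (ℤ × ℤ)) (hs : ∀ L ∈ s, 1 ≤ L.1) :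
    (s.biUnion (fun L => (Icc 1 M).filter (fun m : ℕ => 1 ≤ (L.1 * (m : ℤ) + L.2).toNat ∧
      (L.1 * (m : ℤ) + L.2).toNat ≤ N))).card ≤ s.card * N := by
  refine Finset.card_biUnion_le_card_mul _ _ _ fun L hL => ?_
  have h1 : ((Icc 1 M).filter (fun m : ℕ => 1 ≤ (L.1 * (m : ℤ) + L.2).toNat ∧
      (L.1 * (m : ℤ) + L.2).toNat ≤ N)).card ≤ (Icc 1 N).card := by
    refine Finset.card_le_card_of_injOn (fun m : ℕ => (L.1 * (m : ℤ) + L.2).toNat) ?_ ?_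
    · intro m hm
      have hm2 := (Finset.mem_filter.1 (Finset.mem_coe.1 hm)).2
      exact Finset.mem_coe.2 (Finset.mem_Icc.2 hm2)
    · intro m hm m' hm' he
      have hm2 := (Finset.mem_filter.1 (Finset.mem_coe.1 hm)).2
      have hm3 := (Finset.mem_filter.1 (Finset.mem_coe.1 hm')).2
      have he' : (L.1 * (m : ℤ) + L.2).toNat = (L.1 * (m' : ℤ) + L.2).toNat := he
      have h2 : L.1 * (m : ℤ) + L.2 = L.1 * (m' : ℤ) + L.2 := by omega
      have h3 : L.1 * (m : ℤ) = L.1 * (m' : ℤ) := by linarith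
      have h4 : (L.1 : ℤ) ≠ 0 := by
        have := hs L hL
        omega
      have h5 := mul_left_cancel₀ h4 h3
      exact_mod_cast h5
  rwa [Nat.card_Icc, Nat.add_sub_cancel] at h1

theorem count_forms (r : ℕ) : ∃ C : ℝ, 0 < C ∧ ∀ M : ℕ, 2 ≤ M → ∀ s : Finset (ℤ × ℤ), s.card = r →
    (∀ L ∈ s, 1 ≤ L.1 ∧ Int.gcd L.1 L.2 = 1) → (∀ L ∈ s, ∀ L' ∈ s, L ≠ L' → dt L L' ≠ 0) →
    ((((Icc 1 M).filter (fun m : ℕ => ∀ L ∈ s, (L.1 * (m : ℤ) + L.2).toNat.Prime)).card : ℕ) : ℝ) ≤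
      C * M / (Real.log M) ^ r * ((∏ L ∈ s, W L.1.natAbs ^ r) * ∏ x ∈ s.offDiag, W (dt x.1 x.2) ^ r) := by
  classical
  refine ⟨(80 * 2 ^ r) ^ r * Real.exp (Helper13.Om.Kt r) + (1 + 2 * (r : ℝ)) * (2 * (r : ℝ)) ^ r,
    by positivity, ?_⟩
  intro X hX s hs hL1 hdt
  have hX0 : (0 : ℝ) < X := by exact_mod_cast (by omega : 0 < X)
  have hL : 0 < Real.log X := Real.log_pos (by exact_mod_cast hX)
  set E : ℕ := Nat.log 2 X / 80 with hE
  set N : ℕ := 2 ^ (E + 1) with hN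
  set P : Finset ℕ := N.primesBelow.filter (fun q => r < q) with hP
  have hPp : ∀ q ∈ P, q.Prime := fun q hq =>
    Nat.prime_of_mem_primesBelow (Finset.mem_filter.1 hq).1
  have hPN : ∀ q ∈ P, q < N := fun q hq =>
    Nat.lt_of_mem_primesBelow (Finset.mem_filter.1 hq).1
  have hPm : ∀ q ∈ P, r < q := fun q hq => (Finset.mem_filter.1 hq).2
  set V : ℝ := (∏ L ∈ s, W L.1.natAbs ^ r) * ∏ x ∈ s.offDiag, W (dt x.1 x.2) ^ r with hV
  have hV1 : 1 ≤ V := by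
    rw [hV]
    have hA : 1 ≤ ∏ L ∈ s, W L.1.natAbs ^ r := one_le_pr _ _ fun x _ => one_le_pow₀ (one_le_W _)
    have hB : 1 ≤ ∏ x ∈ s.offDiag, W (dt x.1 x.2) ^ r :=
      one_le_pr _ _ fun x _ => one_le_pow₀ (one_le_W _)
    calc (1 : ℝ) = 1 * 1 := by norm_num
      _ ≤ _ := mul_le_mul hA hB zero_le_one (zero_le_one.trans hA)
  -- the sieve
  have hsieve := Helper13.Om.sieve_upper P ∅ (Finset.disjoint_empty_left _) hPp (by simp) r hPm E
    (by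
      intro q hq
      have h1 : Nat.log 2 q < E + 1 := Nat.log_lt_of_lt_pow (hPp q hq).ne_zero (hPN q hq)
      omega)
    (Z s)
    (by
      intro q hq
      exact ⟨Z_sub s q, (Z_card_le (hPp q hq) hL1).trans (le_of_eq hs)⟩)
    (by simp) 1 le_rfl X
  rw [Finset.prod_empty, Finset.prod_empty, one_mul, one_mul] at hsieve
  -- the counting
  have hsub : (Icc 1 X).filter (fun m : ℕ => ∀ L ∈ s, (L.1 * (m : ℤ) + L.2).toNat.Prime) ⊆
      ((Icc 1 X).filter (fun n => (∀ q ∈ (∅ : Finset ℕ), n % q ∈ Z s q) ∧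
        ∀ q ∈ P, n % q ∉ Z s q)) ∪
      s.biUnion (fun L => (Icc 1 X).filter (fun m : ℕ => 1 ≤ (L.1 * (m : ℤ) + L.2).toNat ∧
        (L.1 * (m : ℤ) + L.2).toNat ≤ N)) := by
    intro n hn
    rw [Finset.mem_filter] at hn
    rw [Finset.mem_union]
    by_cases hex : ∃ L ∈ s, (L.1 * (n : ℤ) + L.2).toNat ≤ N
    · right
      obtain ⟨L, hLs, hLN⟩ := hex
      exact Finset.mem_biUnion.2 ⟨L, hLs, Finset.mem_filter.2 ⟨hn.1, (hn.2 L hLs).pos, hLN⟩⟩
    · left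
      rw [Finset.mem_filter]
      refine ⟨hn.1, by simp, ?_⟩
      intro q hq hmem
      unfold Z at hmem
      obtain ⟨L, hLs, hx⟩ := Finset.mem_biUnion.1 hmem
      unfold R at hx
      have hx2 := (Finset.mem_filter.1 hx).2
      have hpr := hn.2 L hLs
      have hdvd : (q : ℤ) ∣ L.1 * (n : ℤ) + L.2 := by
        have h1 : (q : ℤ) ∣ (n : ℤ) - ((n % q : ℕ) : ℤ) := by
          rw [Int.natCast_mod]
          exact Int.dvd_self_sub_emod
        have h2 := Int.dvd_add (h1.mul_left L.1) hx2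
        have e : L.1 * ((n : ℤ) - ((n % q : ℕ) : ℤ)) + (L.1 * ((n % q : ℕ) : ℤ) + L.2) =
            L.1 * (n : ℤ) + L.2 := by ring
        rwa [e] at h2
      have hpos : 0 ≤ L.1 * (n : ℤ) + L.2 := by
        have := hpr.pos
        omega
      have hdvd2 : q ∣ (L.1 * (n : ℤ) + L.2).toNat := by
        have h1 : (q : ℤ) ∣ (((L.1 * (n : ℤ) + L.2).toNat : ℕ) : ℤ) := by
          rw [Int.toNat_of_nonneg hpos]
          exact hdvd
        exact_mod_cast h1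
      have h3 := (Nat.prime_dvd_prime_iff_eq (hPp q hq) hpr).1 hdvd2
      have h4 := hPN q hq
      exact hex ⟨L, hLs, by omega⟩
  have hcard : ((((Icc 1 X).filter
      (fun m : ℕ => ∀ L ∈ s, (L.1 * (m : ℤ) + L.2).toNat.Prime)).card : ℕ) : ℝ) ≤
      ((((Icc 1 X).filter (fun n => (∀ q ∈ (∅ : Finset ℕ), n % q ∈ Z s q) ∧
        ∀ q ∈ P, n % q ∉ Z s q)).card : ℕ) : ℝ) + (r : ℝ) * (N : ℝ) := by
    have h1 := (Finset.card_le_card hsub).trans (Finset.card_union_le _ _)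
    have h2 := exc_card X N s (fun L hL => (hL1 L hL).1)
    rw [hs] at h2
    have h3 := h1.trans (Nat.add_le_add_left h2 _)
    exact_mod_cast h3
  -- the main term
  have hprod := prod_bound P hPp r hPm s hs hL1 hdt
  have hlogN : Real.log X / 80 ≤ Real.log ((N : ℕ) : ℝ) := by
    rw [hN]
    push_cast
    rw [Real.log_pow]
    have h1 : X < 2 ^ (Nat.log 2 X + 1) := Nat.lt_pow_succ_log_self (by norm_num) X
    have h2 : Real.log X ≤ ((Nat.log 2 X + 1 : ℕ) : ℝ) * Real.log 2 := by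
      rw [← Real.log_pow]
      refine Real.log_le_log hX0 ?_
      exact_mod_cast h1.le
    have h3 : Nat.log 2 X + 1 ≤ 80 * (E + 1) := by omega
    have h4 : ((Nat.log 2 X + 1 : ℕ) : ℝ) ≤ 80 * ((E : ℝ) + 1) := by exact_mod_cast h3
    have h5 : 0 < Real.log 2 := Real.log_pos (by norm_num)
    have h6 := mul_le_mul_of_nonneg_right h4 h5.le
    push_cast at h2 h6 ⊢
    linarith
  have hlogNpos : 0 < Real.log ((N : ℕ) : ℝ) := by
    linarith [div_pos hL (by norm_num : (0 : ℝ) < 80)]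
  have hmer := Helper13.Om.mertens_prod N (by
    rw [hN]
    calc 2 = 2 ^ 1 := by norm_num
      _ ≤ 2 ^ (E + 1) := Nat.pow_le_pow_right (by norm_num) (by omega))
  have hP1 : ∏ q ∈ P, (1 - 1 / (q : ℝ)) ≤ 80 * 2 ^ r / Real.log X := by
    refine (small_primes r N).trans ?_
    have h1 : 1 / Real.log ((N : ℕ) : ℝ) ≤ 80 / Real.log X := by
      rw [div_le_div_iff₀ hlogNpos hL]
      linarith
    calc (2 : ℝ) ^ r * ∏ q ∈ N.primesBelow, (1 - 1 / (q : ℝ))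
        ≤ 2 ^ r * (80 / Real.log X) :=
          mul_le_mul_of_nonneg_left (hmer.trans h1) (by positivity)
      _ = 80 * 2 ^ r / Real.log X := by ring
  have hP0 : 0 ≤ ∏ q ∈ P, (1 - 1 / (q : ℝ)) := by
    refine Finset.prod_nonneg fun q hq => ?_
    have hq2 : (2 : ℝ) ≤ q := by exact_mod_cast (hPp q hq).two_le
    have : 1 / (q : ℝ) ≤ 1 / 2 := one_div_le_one_div_of_le (by norm_num) hq2
    linarith
  have hmain : (X : ℝ) * (∏ q ∈ P, (1 - ((Z s q).card : ℝ) / q)) *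
      Real.exp (Helper13.Om.Kt r / ((1 : ℕ) : ℝ)) ≤
      ((80 * 2 ^ r) ^ r * Real.exp (Helper13.Om.Kt r)) * X / (Real.log X) ^ r * V := by
    have h1 : (∏ q ∈ P, (1 - 1 / (q : ℝ))) ^ r ≤ (80 * 2 ^ r / Real.log X) ^ r :=
      pow_le_pow_left₀ hP0 hP1 r
    have h2 : ∏ q ∈ P, (1 - ((Z s q).card : ℝ) / q) ≤
        (80 * 2 ^ r / Real.log X) ^ r * V :=
      hprod.trans (mul_le_mul_of_nonneg_right h1 (by linarith))
    have h3 : Real.exp (Helper13.Om.Kt r / ((1 : ℕ) : ℝ)) = Real.exp (Helper13.Om.Kt r) := by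
      rw [Nat.cast_one, div_one]
    rw [h3]
    have h4 := mul_le_mul_of_nonneg_left h2 hX0.le
    have h5 := mul_le_mul_of_nonneg_right h4 (Real.exp_pos (Helper13.Om.Kt r)).le
    refine h5.trans (le_of_eq ?_)
    rw [div_pow]
    ring
  -- the error terms
  have hXs : (2 : ℝ) ^ (40 * E) ≤ Real.sqrt X := by
    apply Real.le_sqrt_of_sq_le
    rw [← pow_mul]
    have h1 : 2 ^ Nat.log 2 X ≤ X := Nat.pow_log_le_self 2 (by omega)
    have h2 : 2 ^ (40 * E * 2) ≤ X :=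
      (Nat.pow_le_pow_right (by norm_num) (by omega)).trans h1
    exact_mod_cast h2
  have hNle : (N : ℝ) ≤ 2 * Real.sqrt X := by
    rw [hN]
    push_cast
    rw [pow_succ]
    have h1 : (2 : ℝ) ^ E ≤ 2 ^ (40 * E) := pow_le_pow_right₀ (by norm_num) (by omega)
    linarith
  have hrN : (r : ℝ) * (N : ℝ) ≤ 2 * (r : ℝ) * Real.sqrt X := by
    have h1 := mul_le_mul_of_nonneg_left hNle (Nat.cast_nonneg r : (0 : ℝ) ≤ (r : ℝ))
    linarith
  have herr : Real.sqrt X ≤ (2 * (r : ℝ)) ^ r * X / (Real.log X) ^ r := by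
    rw [le_div_iff₀ (pow_pos hL r)]
    have h1 := log_pow_le r X hX
    have h2 : Real.sqrt X * Real.sqrt X = X := Real.mul_self_sqrt hX0.le
    calc Real.sqrt X * (Real.log X) ^ r ≤ Real.sqrt X * ((2 * (r : ℝ)) ^ r * Real.sqrt X) :=
          mul_le_mul_of_nonneg_left h1 (Real.sqrt_nonneg _)
      _ = (2 * (r : ℝ)) ^ r * (Real.sqrt X * Real.sqrt X) := by ring
      _ = _ := by rw [h2]
  have herr2 : (1 + 2 * (r : ℝ)) * Real.sqrt X ≤
      ((1 + 2 * (r : ℝ)) * (2 * (r : ℝ)) ^ r) * X / (Real.log X) ^ r * V := by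
    have h1 : 0 ≤ ((1 + 2 * (r : ℝ)) * (2 * (r : ℝ)) ^ r) * X / (Real.log X) ^ r := by positivity
    calc (1 + 2 * (r : ℝ)) * Real.sqrt X
        ≤ (1 + 2 * (r : ℝ)) * ((2 * (r : ℝ)) ^ r * X / (Real.log X) ^ r) :=
          mul_le_mul_of_nonneg_left herr (by positivity)
      _ = ((1 + 2 * (r : ℝ)) * (2 * (r : ℝ)) ^ r) * X / (Real.log X) ^ r := by ring
      _ ≤ _ := le_mul_of_one_le_right h1 hV1
  have h40 : 20 * E * (1 + 1) = 40 * E := by ring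
  rw [h40] at hsieve
  have hfin : ((80 * 2 ^ r) ^ r * Real.exp (Helper13.Om.Kt r) +
      (1 + 2 * (r : ℝ)) * (2 * (r : ℝ)) ^ r) * X / (Real.log X) ^ r * V =
      ((80 * 2 ^ r) ^ r * Real.exp (Helper13.Om.Kt r)) * X / (Real.log X) ^ r * V +
        ((1 + 2 * (r : ℝ)) * (2 * (r : ℝ)) ^ r) * X / (Real.log X) ^ r * V := by ring
  rw [hfin]
  linarith

end Pool.Agent.Helper8.DW
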