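import Pool.Agent.Helper8.DW.Mom
import Pool.Agent.Helper8.DW.Smooth
import Pool.Agent.Helper8.DW.Exch
import Pool.Agent.Helper8.DW.Bad

/-!
# DW-10: the main theorem for the indicator function

Let `C1` be the constant of `sum_vv`, `C` the one of `second_moment` (with `C0`, `c`), `δ` with `4 √(δ C (1 + 1 / c)) ≤ ε / 2`, `M`, `x0` from `window_sq` for `δ`,
`H0 ≥ 1` with `M C1 ≤ (ε / 2) H0`.  Let `X0` be large (`X0 ≥ 16`, `log X ≥ 1`, `∑ a i ≤ X`, `√X ≥ x0`).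
* `M' = 3 X / D + 1`: `X + y + H ≤ 3 X ≤ D M'`, `X ≤ M' ^ 2` (as `D ^ 2 ≤ X`), `x0 ≤ M'`, `M' ≤ 4 X / D` (real division).
* `smooth` for all `n` with `vv n ≠ 0`, `d ∈ S`: the sum is at most `∑_n vv n ∑_{d ∈ S} ∑_{h ∈ mul} BB q b M ((n + h) / d - 1) + |S| M ∑_n vv n`.
  The second part is `≤ |S| M C1 X / L ^ k ≤ (ε / 2) |S| H X / (D L ^ k)` as `H ≥ H0 D`.
* The first part: `exch_sq` with `B m = BB q b M (m - 1)`, `P = δ M'`, `Q = C M' (|S| ^ 2 H ^ 2 / L ^ (2 k) + |S| H / L ^ k)`, and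
  `|S| H / L ^ k ≤ (1 / c) (|S| H / L ^ k) ^ 2` as `c L ^ k ≤ |S| H`.  So `√(P Q) ≤ M' (|S| H / L ^ k) √(δ C (1 + 1 / c))`.
* hypotheses of `second_moment`: `D ≤ H` (`H0 ≥ 1`), `2 D ≤ X` (`D ^ 2 ≤ X`, `X ≥ 4`), `|S| ≤ D ≤ H`, so `c log X ≤ c (log X) ^ k ≤ |S| H ≤ H ^ 2` if `k ≠ 0`.
-/

set_option autoImplicit false

namespace Pool.Agent.Helper8.DW

open Finset Pool.Agent.Helper83.HLC

theorem main0 {k : ℕ} (a : Fin k → ℕ) (ha : Function.Injective a) {q : ℕ} {b : ℕ → ℝ} (hb : Per q b) (C0 c ε : ℝ)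
    (hc : 0 < c) (hε : 0 < ε) : ∃ H0 X0 : ℕ, ∀ X : ℕ, X0 ≤ X → ∀ D H y : ℕ, 1 ≤ D → D ^ 2 ≤ X → H0 * D ≤ H → H ≤ X → y ≤ X →
      ∀ S ⊆ Ico D (2 * D), (∀ d ∈ S, W d ≤ C0) → c * Real.log X ^ k ≤ S.card * H →
      ∑ n ∈ Icc 1 X, vv a X n * ∑ d ∈ S, |∑ h ∈ mul n d y H, b (ArithmeticFunction.cardFactors (n + h))| ≤
        ε * S.card * H * X / (D * Real.log X ^ k) := by
  obtain ⟨C1, hC1, hsv⟩ := sum_vv a ha
  obtain ⟨C, hC, hsm⟩ := second_moment a ha C0 c hc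
  set A : ℝ := C * (1 + 1 / c) with hA
  have hA0 : 0 < A := by positivity
  obtain ⟨δ, hδ0, hδ⟩ : ∃ δ : ℝ, 0 < δ ∧ δ * A = (ε / 8) ^ 2 :=
    ⟨(ε / 8) ^ 2 / A, by positivity, div_mul_cancel₀ _ hA0.ne'⟩
  obtain ⟨M, hM, x0, hx0⟩ := window_sq hb δ hδ0
  obtain ⟨H0, hH0⟩ := exists_nat_ge (max 1 (M * C1 / (ε / 2)))
  have hH1 : 1 ≤ H0 := by exact_mod_cast (le_max_left _ _).trans hH0
  have hH2 : M * C1 ≤ ε / 2 * H0 := by
    have h1 : M * C1 / (ε / 2) ≤ H0 := (le_max_right _ _).trans hH0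
    rw [div_le_iff₀ (by positivity)] at h1
    linarith
  refine ⟨H0, 16 + x0 ^ 2 + ∑ i, a i, fun X hX D H y hD hDX hHD hHX hyX S hS hSW hcl => ?_⟩
  have hX16 : 16 ≤ X := by omega
  have hXa : ∑ i, a i ≤ X := by omega
  have hXx : x0 ^ 2 ≤ X := by omega
  have hXR : (16 : ℝ) ≤ X := by exact_mod_cast hX16
  have hX0 : (0 : ℝ) < X := by linarith
  have hL1 : 1 ≤ Real.log X := by
    rw [Real.le_log_iff_exp_le hX0]
    linarith [Real.exp_one_lt_d9]
  have hL0 : 0 < Real.log X ^ k := by positivity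
  have hDR : (1 : ℝ) ≤ D := by exact_mod_cast hD
  have hD0 : (0 : ℝ) < D := by linarith
  have hDH : D ≤ H := le_trans (Nat.le_mul_of_pos_left D (by omega)) hHD
  have hcard : S.card ≤ D := by
    refine (Finset.card_le_card hS).trans ?_
    rw [Nat.card_Ico]
    omega
  set M' : ℕ := 3 * X / D + 1 with hM'
  have hDM : 3 * X ≤ D * M' := by
    rw [hM', mul_add, mul_one]
    have h1 := Nat.div_add_mod (3 * X) D
    have h2 := Nat.mod_lt (3 * X) (by omega : 0 < D)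
    omega
  have hDM2 : 9 * X ≤ M' ^ 2 := by
    have h1 : (3 * X) ^ 2 ≤ (D * M') ^ 2 := Nat.pow_le_pow_left hDM 2
    have h2 : (D * M') ^ 2 ≤ X * M' ^ 2 := by
      rw [mul_pow]
      exact Nat.mul_le_mul_right _ hDX
    have h3 : X * (9 * X) ≤ X * M' ^ 2 := by
      calc X * (9 * X) = (3 * X) ^ 2 := by ring
        _ ≤ _ := h1.trans h2
    exact Nat.le_of_mul_le_mul_left h3 (by omega)
  have hXM : X ≤ M' ^ 2 := by omega
  have hxM : x0 ≤ M' := by
    by_contra hcon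
    push Not at hcon
    have h1 : M' ^ 2 < x0 ^ 2 := Nat.pow_lt_pow_left hcon (by norm_num)
    omega
  have hM2 : 2 ≤ M' := by
    by_contra hcon
    have h1 : M' ^ 2 ≤ 1 ^ 2 := Nat.pow_le_pow_left (by omega) 2
    omega
  have hDleX : D ≤ X := le_trans (Nat.le_self_pow (by norm_num) D) hDX
  have hM'R : (M' : ℝ) ≤ 4 * X / D := by
    have h1 : ((3 * X / D : ℕ) : ℝ) ≤ ((3 * X : ℕ) : ℝ) / D := Nat.cast_div_le
    have h2 : (1 : ℝ) ≤ X / D := by
      rw [le_div_iff₀ hD0, one_mul]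
      exact_mod_cast hDleX
    rw [hM']
    push_cast at h1 ⊢
    calc ((3 * X / D : ℕ) : ℝ) + 1 ≤ 3 * X / D + X / D := add_le_add h1 h2
      _ = 4 * X / D := by ring
  have h2D : 2 * D ≤ X := by
    by_cases h1 : D = 1
    · omega
    · have h2 : 2 ≤ D := by omega
      have h3 : 2 * D ≤ D ^ 2 := by
        rw [pow_two]
        exact Nat.mul_le_mul_right D h2
      omega
  have hSD : ∀ d ∈ S, D ≤ d := fun d hd => (Finset.mem_Ico.1 (hS hd)).1
  have hcR : (0 : ℝ) ≤ S.card := by positivity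
  have hHR : (0 : ℝ) ≤ H := by positivity
  have hkc : k ≠ 0 → c * Real.log X ≤ (H : ℝ) ^ 2 := by
    intro hk
    have h1 : Real.log X ≤ Real.log X ^ k := le_self_pow₀ hL1 hk
    have h2 : (S.card : ℝ) ≤ H := by exact_mod_cast hcard.trans hDH
    calc c * Real.log X ≤ c * Real.log X ^ k := mul_le_mul_of_nonneg_left h1 hc.le
      _ ≤ S.card * H := hcl
      _ ≤ H * H := mul_le_mul_of_nonneg_right h2 hHR
      _ = (H : ℝ) ^ 2 := by ring
  have hQ := hsm X M' D H y (by omega) hM2 hXM hXa hD h2D hDH hHX hyX hkc S hS hSW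
  have hP := hx0 M' hxM
  set B : ℕ → ℝ := fun m => BB q b M (m - 1) with hBdef
  have hBn : ∀ m, 0 ≤ B m := fun m => BB_nonneg _ _ _ _
  have hex := exch_sq a X D H y M' hD S hSD (by omega) B hBn _ _ hP hQ
  -- the square root
  set T : ℝ := S.card * H / Real.log X ^ k with hT
  have hTc : c ≤ T := by
    rw [hT, le_div_iff₀ hL0]
    exact hcl
  have hT0 : 0 ≤ T := hc.le.trans hTc
  have hM'0 : (0 : ℝ) ≤ M' := by positivity
  have hT2 : (S.card : ℝ) ^ 2 * H ^ 2 / Real.log X ^ (2 * k) = T ^ 2 := by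
    rw [hT, div_pow, mul_pow, ← pow_mul, mul_comm k 2]
  have hsqrt : √(δ * M' * (C * M' * ((S.card : ℝ) ^ 2 * H ^ 2 / Real.log X ^ (2 * k) +
      S.card * H / Real.log X ^ k))) ≤ ε / 2 * T * X / D := by
    rw [hT2, ← hT]
    have h1 : T ≤ 1 / c * T ^ 2 := by
      rw [div_mul_eq_mul_div, one_mul, le_div_iff₀ hc]
      nlinarith
    have h2 : δ * M' * (C * M' * (T ^ 2 + T)) ≤ (ε / 8 * M' * T) ^ 2 := by
      calc δ * M' * (C * M' * (T ^ 2 + T)) = δ * C * (M' ^ 2 * (T ^ 2 + T)) := by ring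
        _ ≤ δ * C * (M' ^ 2 * (T ^ 2 + 1 / c * T ^ 2)) := by
          apply mul_le_mul_of_nonneg_left _ (by positivity)
          apply mul_le_mul_of_nonneg_left _ (by positivity)
          linarith
        _ = δ * A * (M' ^ 2 * T ^ 2) := by rw [hA]; ring
        _ = (ε / 8 * M' * T) ^ 2 := by rw [hδ]; ring
    have h3 : 0 ≤ ε / 8 * M' * T := by positivity
    refine (Real.sqrt_le_sqrt h2).trans ?_
    rw [Real.sqrt_sq h3]
    calc ε / 8 * M' * T ≤ ε / 8 * (4 * X / D) * T := by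
          apply mul_le_mul_of_nonneg_right _ hT0
          exact mul_le_mul_of_nonneg_left hM'R (by positivity)
      _ = ε / 2 * T * X / D := by ring
  -- the bound for the smooth part
  have hstep : ∑ n ∈ Icc 1 X, vv a X n * ∑ d ∈ S,
      |∑ h ∈ mul n d y H, b (ArithmeticFunction.cardFactors (n + h))| ≤
      ∑ n ∈ Icc 1 X, vv a X n * ∑ d ∈ S, ∑ h ∈ mul n d y H, B ((n + h) / d) +
        M * S.card * ∑ n ∈ Icc 1 X, vv a X n := by
    rw [Finset.mul_sum, ← Finset.sum_add_distrib]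
    refine Finset.sum_le_sum fun n hn => ?_
    have hn1 : 1 ≤ n := (Finset.mem_Icc.1 hn).1
    have h1 : ∑ d ∈ S, |∑ h ∈ mul n d y H, b (ArithmeticFunction.cardFactors (n + h))| ≤
        ∑ d ∈ S, ∑ h ∈ mul n d y H, B ((n + h) / d) + M * S.card := by
      calc ∑ d ∈ S, |∑ h ∈ mul n d y H, b (ArithmeticFunction.cardFactors (n + h))| ≤
          ∑ d ∈ S, (∑ h ∈ mul n d y H, B ((n + h) / d) + M) :=
            Finset.sum_le_sum fun d hd => smooth hb M hM n d y H hn1 (hD.trans (hSD d hd))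
        _ = ∑ d ∈ S, ∑ h ∈ mul n d y H, B ((n + h) / d) + M * S.card := by
          rw [Finset.sum_add_distrib, Finset.sum_const, nsmul_eq_mul, mul_comm (M : ℝ)]
    calc vv a X n * ∑ d ∈ S, |∑ h ∈ mul n d y H, b (ArithmeticFunction.cardFactors (n + h))| ≤
        vv a X n * (∑ d ∈ S, ∑ h ∈ mul n d y H, B ((n + h) / d) + M * S.card) :=
          mul_le_mul_of_nonneg_left h1 (vv_nonneg a X n)
      _ = _ := by ring
  have hsec : M * S.card * ∑ n ∈ Icc 1 X, vv a X n ≤ ε / 2 * T * X / D := by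
    have h1 := hsv X (by omega)
    have h2 : M * C1 ≤ ε / 2 * (H / D) := by
      refine hH2.trans (mul_le_mul_of_nonneg_left ?_ (by positivity))
      rw [le_div_iff₀ hD0]
      exact_mod_cast hHD
    calc M * S.card * ∑ n ∈ Icc 1 X, vv a X n ≤ M * S.card * (C1 * X / Real.log X ^ k) :=
          mul_le_mul_of_nonneg_left h1 (by positivity)
      _ = (M * C1) * (S.card * X / Real.log X ^ k) := by ring
      _ ≤ (ε / 2 * (H / D)) * (S.card * X / Real.log X ^ k) :=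
          mul_le_mul_of_nonneg_right h2 (by positivity)
      _ = ε / 2 * T * X / D := by rw [hT]; ring
  calc _ ≤ _ := hstep
    _ ≤ ε / 2 * T * X / D + ε / 2 * T * X / D := add_le_add (hex.trans hsqrt) hsec
    _ = ε * S.card * H * X / (D * Real.log X ^ k) := by
      rw [hT]
      field_simp
      ring

end Pool.Agent.Helper8.DW
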