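import Pool.Agent.Helper8.DW.Cnt
import Pool.Agent.Helper8.DW.Pair

/-!
# DW-5: the second moment

Expand the square: `∑_m NN ^ 2 = ∑_{d, h} ∑_{d', h'} ∑_m vv (d m - h) vv (d' m - h')`.
* The quadruples with `d = d'` and `a i + h' = a j + h` for some `i, j`: for given `(d, h)` at most `k ^ 2` values `h'`; the inner sum is
  `≤ ∑_m vv (d m - h) ≤ C1 M / L ^ k` (`cn1_le`, `vv ≤ 1`).  Total `≤ k ^ 2 |S| H C1 M / L ^ k`.
* The others: `cn2_le`; and `∑_{h, h'} (1 + ∑_{i, j} W (..) ^ p) ≤ H ^ 2 + k ^ 2 C2 H ^ 2 W (gcd d d') ^ p ≤ C H ^ 2` by `pair_sum`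
  (`W (gcd d d') ≤ W d ≤ C0` by `W_le_of_dvd`; `Y = X`, `a i ≤ X` from `∑ i, a i ≤ X`).  Total `≤ C M |S| ^ 2 H ^ 2 / L ^ (2 k)`.
For `k = 0` all is trivial: `NN ≤ |S| H`, `L ^ 0 = 1`.
(For `d, d' ∈ [D, 2 D)`: `d' ≤ 2 d`, `d ≤ 2 D ≤ 2 H`, `d ≤ X` as `2 D ≤ X`.)
-/

set_option autoImplicit false

namespace Pool.Agent.Helper8.DW

open Finset Pool.Agent.Helper83.HLC

/-- The pairs of shifts with a coincidence. -/
private def bad {k : ℕ} (a : Fin k → ℕ) (q q' : ℕ × ℕ) : Prop :=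
  q.1 = q'.1 ∧ ∃ i j, a i + q'.2 = a j + q.2

open Classical in
private theorem card_bad {k : ℕ} (a : Fin k → ℕ) (P : Finset (ℕ × ℕ)) (q : ℕ × ℕ) :
    (P.filter (fun q' => bad a q q')).card ≤ k ^ 2 := by
  have h1 : P.filter (fun q' => bad a q q') ⊆
      (univ : Finset (Fin k × Fin k)).image (fun t => (q.1, a t.2 + q.2 - a t.1)) := by
    intro q' hq'
    rw [mem_filter] at hq'
    obtain ⟨_, h1, i, j, hij⟩ := hq'
    rw [mem_image]
    refine ⟨(i, j), mem_univ _, ?_⟩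
    apply Prod.ext
    · exact h1
    · change a j + q.2 - a i = q'.2
      omega
  refine (card_le_card h1).trans (card_image_le.trans ?_)
  rw [card_univ, Fintype.card_prod, Fintype.card_fin, sq]

theorem second_moment {k : ℕ} (a : Fin k → ℕ) (ha : Function.Injective a) (C0 c : ℝ) (hc : 0 < c) :
    ∃ C : ℝ, 0 < C ∧ ∀ X M D H y : ℕ, 2 ≤ X → 2 ≤ M → X ≤ M ^ 2 → ∑ i, a i ≤ X → 1 ≤ D → 2 * D ≤ X → D ≤ H →
      H ≤ X → y ≤ X → (k ≠ 0 → c * Real.log X ≤ (H : ℝ) ^ 2) → ∀ S ⊆ Ico D (2 * D), (∀ d ∈ S, W d ≤ C0) →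
      ∑ m ∈ Icc 1 M, NN a X S y H m ^ 2 ≤
        C * M * ((S.card : ℝ) ^ 2 * H ^ 2 / Real.log X ^ (2 * k) + S.card * H / Real.log X ^ k) := by
  classical
  obtain ⟨C1, hC1, h1⟩ := cn1_le a ha C0
  obtain ⟨C2, hC2, h2⟩ := cn2_le a ha C0
  obtain ⟨C3, hC3, h3⟩ := pair_sum (4 * k ^ 3) c hc
  set r := 4 * k ^ 3 with hr
  set Kc : ℝ := max C0 1 with hKc
  have hK1 : 1 ≤ Kc := le_max_right _ _
  have hK0 : 0 < Kc := by linarith
  refine ⟨(k : ℝ) ^ 2 * C1 + C2 * (1 + (k : ℝ) ^ 2 * (C3 * Kc ^ r)), by positivity, ?_⟩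
  intro X M D H y hX hM hXM haX hD hDX hDH hHX hyX hcl S hS hW
  have hL : 0 < Real.log X := Real.log_pos (by exact_mod_cast hX)
  set L := Real.log X with hLdef
  have hM0 : (0 : ℝ) ≤ M := Nat.cast_nonneg M
  set I := Ioc y (y + H) with hI
  set P := S ×ˢ I with hP
  have hIc : (I.card : ℝ) = H := by
    rw [hI, Nat.card_Ioc, Nat.add_sub_cancel_left]
  have hPc : (P.card : ℝ) = S.card * H := by
    rw [hP, card_product]
    push_cast
    rw [hIc]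
  have hSd : ∀ d ∈ S, D ≤ d ∧ d < 2 * D := fun d hd => mem_Ico.1 (hS hd)
  have hNN : ∀ m, NN a X S y H m = ∑ q ∈ P, vv a X (q.1 * m - q.2) := by
    intro m
    unfold NN
    rw [hP, Finset.sum_product]
  have hsum : ∑ m ∈ Icc 1 M, NN a X S y H m ^ 2 =
      ∑ q ∈ P, ∑ q' ∈ P, ∑ m ∈ Icc 1 M, vv a X (q.1 * m - q.2) * vv a X (q'.1 * m - q'.2) := by
    have e1 : ∀ m ∈ Icc 1 M, NN a X S y H m ^ 2 =
        ∑ q ∈ P, ∑ q' ∈ P, vv a X (q.1 * m - q.2) * vv a X (q'.1 * m - q'.2) := by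
      intro m _
      rw [hNN, sq, Finset.sum_mul_sum]
    rw [Finset.sum_congr rfl e1, Finset.sum_comm]
    refine Finset.sum_congr rfl fun q _ => ?_
    rw [Finset.sum_comm]
  set B1 : ℝ := C1 * M / L ^ k with hB1
  set B2 : ℝ := C2 * M / L ^ (2 * k) with hB2
  have hB10 : 0 ≤ B1 := by positivity
  have hB20 : 0 ≤ B2 := by positivity
  -- the sum over `i`, `j`
  have hWnn : ∀ t : ℕ, 0 ≤ W t ^ r := fun t => pow_nonneg (by linarith [one_le_W t]) _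
  have hT : ∀ q ∈ P, ∀ q' ∈ P,
      ∑ m ∈ Icc 1 M, vv a X (q.1 * m - q.2) * vv a X (q'.1 * m - q'.2) ≤
        (if bad a q q' then B1 else 0) + B2 * (1 + ∑ i, ∑ j,
          W ((q'.1 : ℤ) * ((q.2 : ℤ) - a i) - q.1 * ((q'.2 : ℤ) - a j)).natAbs ^ r) := by
    intro q hq q' hq'
    rw [hP, mem_product] at hq hq'
    have hd := hSd _ hq.1
    have hd' := hSd _ hq'.1
    have hnn : 0 ≤ B2 * (1 + ∑ i, ∑ j,
          W ((q'.1 : ℤ) * ((q.2 : ℤ) - a i) - q.1 * ((q'.2 : ℤ) - a j)).natAbs ^ r) := by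
      apply mul_nonneg hB20
      have : 0 ≤ ∑ i, ∑ j,
          W ((q'.1 : ℤ) * ((q.2 : ℤ) - a i) - q.1 * ((q'.2 : ℤ) - a j)).natAbs ^ r :=
        Finset.sum_nonneg fun i _ => Finset.sum_nonneg fun j _ => hWnn _
      linarith
    by_cases hbad : bad a q q'
    · rw [if_pos hbad]
      have e1 : ∑ m ∈ Icc 1 M, vv a X (q.1 * m - q.2) * vv a X (q'.1 * m - q'.2) ≤
          ∑ m ∈ Icc 1 M, vv a X (q.1 * m - q.2) := by
        refine Finset.sum_le_sum fun m _ => ?_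
        exact mul_le_of_le_one_right (vv_nonneg _ _ _) (vv_le_one _ _ _)
      have e2 := h1 X M hX hM hXM q.1 q.2 (by omega) (hW _ hq.1)
      linarith
    · rw [if_neg hbad, zero_add]
      refine h2 X M hX hM hXM q.1 q.2 q'.1 q'.2 (by omega) (by omega) (hW _ hq.1)
        (hW _ hq'.1) ?_
      intro hdd i j hij
      exact hbad ⟨hdd, i, j, hij⟩
  -- the coincidences
  have hbadsum : ∑ q ∈ P, ∑ q' ∈ P, (if bad a q q' then B1 else 0) ≤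
      (S.card * H : ℝ) * ((k : ℝ) ^ 2 * B1) := by
    rw [← hPc, ← nsmul_eq_mul, ← Finset.sum_const]
    refine Finset.sum_le_sum fun q _ => ?_
    rw [← Finset.sum_filter, Finset.sum_const, nsmul_eq_mul]
    apply mul_le_mul_of_nonneg_right _ hB10
    exact_mod_cast card_bad a P q
  -- the pairs
  have hpair : ∀ i j : Fin k, ∑ q ∈ P, ∑ q' ∈ P,
      W ((q'.1 : ℤ) * ((q.2 : ℤ) - a i) - q.1 * ((q'.2 : ℤ) - a j)).natAbs ^ r ≤
        (S.card : ℝ) * ((S.card : ℝ) * (C3 * H ^ 2 * Kc ^ r)) := by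
    intro i j
    have hk0 : k ≠ 0 := by
      rintro rfl
      exact i.elim0
    have hai : ∀ i, a i ≤ X := fun i =>
      (Finset.single_le_sum (fun _ _ => Nat.zero_le _) (mem_univ i)).trans haX
    rw [hP, Finset.sum_product, ← nsmul_eq_mul (S.card) ((S.card : ℝ) * (C3 * H ^ 2 * Kc ^ r)),
      ← Finset.sum_const]
    refine Finset.sum_le_sum fun d hd => ?_
    have e1 : ∑ h ∈ I, ∑ q' ∈ S ×ˢ I,
        W ((q'.1 : ℤ) * (((d, h) : ℕ × ℕ).2 - a i : ℤ) - ((d, h) : ℕ × ℕ).1 *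
          ((q'.2 : ℤ) - a j)).natAbs ^ r =
        ∑ d' ∈ S, ∑ h ∈ I, ∑ h' ∈ I,
          W ((d' : ℤ) * ((h : ℤ) - a i) - d * ((h' : ℤ) - a j)).natAbs ^ r := by
      have e0 : ∀ h ∈ I, ∑ q' ∈ S ×ˢ I,
          W ((q'.1 : ℤ) * (((d, h) : ℕ × ℕ).2 - a i : ℤ) - ((d, h) : ℕ × ℕ).1 *
            ((q'.2 : ℤ) - a j)).natAbs ^ r =
          ∑ d' ∈ S, ∑ h' ∈ I, W ((d' : ℤ) * ((h : ℤ) - a i) - d * ((h' : ℤ) - a j)).natAbs ^ r := by
        intro h _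
        rw [Finset.sum_product]
      rw [Finset.sum_congr rfl e0, Finset.sum_comm]
    rw [e1, ← nsmul_eq_mul, ← Finset.sum_const]
    refine Finset.sum_le_sum fun d' hd' => ?_
    have hdd := hSd _ hd
    have hdd' := hSd _ hd'
    have e2 := h3 X hX y H d d' (by omega) (hcl hk0) (by omega) (by omega) (by omega) (by omega)
      (by omega) (by omega) (by omega) (a i) (a j) (hai i) (hai j)
    refine e2.trans ?_
    have e3 : W (Nat.gcd d d') ≤ Kc :=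
      (W_le_of_dvd (Nat.gcd_dvd_left d d') (by omega)).trans ((hW d hd).trans (le_max_left _ _))
    have e4 : W (Nat.gcd d d') ^ r ≤ Kc ^ r :=
      pow_le_pow_left₀ (by linarith [one_le_W (Nat.gcd d d')]) e3 _
    exact mul_le_mul_of_nonneg_left e4 (by positivity)
  have hpairs : ∑ q ∈ P, ∑ q' ∈ P, B2 * (1 + ∑ i, ∑ j,
      W ((q'.1 : ℤ) * ((q.2 : ℤ) - a i) - q.1 * ((q'.2 : ℤ) - a j)).natAbs ^ r) ≤
        B2 * ((S.card : ℝ) ^ 2 * H ^ 2 * (1 + (k : ℝ) ^ 2 * (C3 * Kc ^ r))) := by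
    have e1 : ∑ q ∈ P, ∑ q' ∈ P, B2 * (1 + ∑ i, ∑ j,
        W ((q'.1 : ℤ) * ((q.2 : ℤ) - a i) - q.1 * ((q'.2 : ℤ) - a j)).natAbs ^ r) =
        B2 * ((P.card : ℝ) * P.card + ∑ i, ∑ j, ∑ q ∈ P, ∑ q' ∈ P,
          W ((q'.1 : ℤ) * ((q.2 : ℤ) - a i) - q.1 * ((q'.2 : ℤ) - a j)).natAbs ^ r) := by
      have e2 : ∀ q ∈ P, ∑ q' ∈ P, B2 * (1 + ∑ i, ∑ j,
          W ((q'.1 : ℤ) * ((q.2 : ℤ) - a i) - q.1 * ((q'.2 : ℤ) - a j)).natAbs ^ r) =
          B2 * (P.card + ∑ i, ∑ j, ∑ q' ∈ P,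
            W ((q'.1 : ℤ) * ((q.2 : ℤ) - a i) - q.1 * ((q'.2 : ℤ) - a j)).natAbs ^ r) := by
        intro q _
        rw [← Finset.mul_sum, Finset.sum_add_distrib, Finset.sum_const, nsmul_eq_mul, mul_one]
        congr 2
        rw [Finset.sum_comm]
        refine Finset.sum_congr rfl fun i _ => ?_
        rw [Finset.sum_comm]
      rw [Finset.sum_congr rfl e2, ← Finset.mul_sum, Finset.sum_add_distrib, Finset.sum_const,
        nsmul_eq_mul]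
      congr 2
      rw [Finset.sum_comm]
      refine Finset.sum_congr rfl fun i _ => ?_
      rw [Finset.sum_comm]
    rw [e1]
    apply mul_le_mul_of_nonneg_left _ hB20
    have e3 : ∑ i : Fin k, ∑ j : Fin k, ∑ q ∈ P, ∑ q' ∈ P,
        W ((q'.1 : ℤ) * ((q.2 : ℤ) - a i) - q.1 * ((q'.2 : ℤ) - a j)).natAbs ^ r ≤
        ∑ i : Fin k, ∑ j : Fin k, (S.card : ℝ) * ((S.card : ℝ) * (C3 * H ^ 2 * Kc ^ r)) :=
      Finset.sum_le_sum fun i _ => Finset.sum_le_sum fun j _ => hpair i j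
    rw [Finset.sum_const, Finset.sum_const, card_univ, Fintype.card_fin, nsmul_eq_mul,
      nsmul_eq_mul] at e3
    rw [hPc]
    refine (add_le_add (le_refl _) e3).trans (le_of_eq ?_)
    ring
  -- conclusion
  rw [hsum]
  have hfin : ∑ q ∈ P, ∑ q' ∈ P, ∑ m ∈ Icc 1 M,
      vv a X (q.1 * m - q.2) * vv a X (q'.1 * m - q'.2) ≤
      (S.card * H : ℝ) * ((k : ℝ) ^ 2 * B1) +
        B2 * ((S.card : ℝ) ^ 2 * H ^ 2 * (1 + (k : ℝ) ^ 2 * (C3 * Kc ^ r))) := by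
    refine (Finset.sum_le_sum fun q hq => Finset.sum_le_sum fun q' hq' => hT q hq q' hq').trans ?_
    rw [Finset.sum_congr rfl (fun q _ => Finset.sum_add_distrib), Finset.sum_add_distrib]
    exact add_le_add hbadsum hpairs
  refine hfin.trans ?_
  have hs0 : (0 : ℝ) ≤ S.card := Nat.cast_nonneg _
  have hH0 : (0 : ℝ) ≤ H := Nat.cast_nonneg _
  set u1 : ℝ := (S.card : ℝ) * H / L ^ k with hu1
  set u2 : ℝ := (S.card : ℝ) ^ 2 * H ^ 2 / L ^ (2 * k) with hu2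
  have hu10 : 0 ≤ u1 := by positivity
  have hu20 : 0 ≤ u2 := by positivity
  have f1 : (S.card * H : ℝ) * ((k : ℝ) ^ 2 * B1) = (k : ℝ) ^ 2 * C1 * (M * u1) := by
    rw [hB1, hu1]
    ring
  have f2 : B2 * ((S.card : ℝ) ^ 2 * H ^ 2 * (1 + (k : ℝ) ^ 2 * (C3 * Kc ^ r))) =
      C2 * (1 + (k : ℝ) ^ 2 * (C3 * Kc ^ r)) * (M * u2) := by
    rw [hB2, hu2]
    ring
  rw [f1, f2]
  have g1 : 0 ≤ (k : ℝ) ^ 2 * C1 := by positivity
  have g2 : 0 ≤ C2 * (1 + (k : ℝ) ^ 2 * (C3 * Kc ^ r)) := by positivity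
  have g3 : 0 ≤ (M : ℝ) * u1 := by positivity
  have g4 : 0 ≤ (M : ℝ) * u2 := by positivity
  nlinarith [mul_nonneg g1 g4, mul_nonneg g2 g3]

end Pool.Agent.Helper8.DW
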