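import Pool.Agent.Helper8.DW.Main

/-!
# DW-12: sign changes of the Liouville function next to prime tuples at the scale `(log X) ^ (k / 2)`

`good_d`: `d / φ(d) = ∏ p / (p - 1) ≤ ∏ (1 + 2 / p) = W d` and `∑_{d ≤ 2 D} W d ≤ C 2 D` (`Helper83.HLC.sum_W_pow 1`), so with `C0 = 4 C`
at most `D / 2` of the `d ∈ [D, 2 D)` have `W d > C0`.
`sign_changes`: let `C0` be as in `good_d`, `H0, X0` from `main0` with `c = 1`, `ε / 4` (and `b m = (-1) ^ m`, `q = 2`), w.l.o.g. `H0 ≥ 4`.  Let `H' = ⌈K √(L ^ k)⌉₊ ≤ H`,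
`D = H' / H0` (so `H0 D ≤ H'`, `D ≥ H' / (2 H0)` for `H' ≥ H0`), `S` = the `d ∈ [D, 2 D)` with `W d ≤ C0`, `|S| ≥ D / 2`.
`|S| H' ≥ H' ^ 2 / (4 H0) ≥ K ^ 2 L ^ k / (4 H0) ≥ L ^ k` for `K ≥ 2 √H0 + H0`; `D ^ 2 ≤ X` for large `X`.
For `n` counted, `λ` is constant on `(n + y, n + y + H']`, so `∑_{d ∈ S} |∑_{h ∈ mul n d y H'} λ (n + h)| = ∑_{d ∈ S} |mul n d y H'| ≥ |S| (H' / (2 D) - 1) ≥ |S| H' / (4 D)`
(`le_card_mul`, `H' ≥ 4 D`).  So the number of these `n` times `|S| H' / (4 D)` is at most `(ε / 4) |S| H' X / (D L ^ k)`.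
-/

set_option autoImplicit false

namespace Pool.Agent.Helper8.DW

open Finset Pool.Agent.Helper83.HLC

theorem good_d : ∃ C0 : ℝ, 0 < C0 ∧ ∀ D : ℕ, 1 ≤ D → (D : ℝ) / 2 ≤ ((Ico D (2 * D)).filter (fun d => W d ≤ C0)).card := by
  obtain ⟨C, hC, hs⟩ := sum_W_pow 1
  refine ⟨4 * C, by positivity, fun D hD => ?_⟩
  have h1 := hs (2 * D)
  simp only [pow_one] at h1
  have h2 := Finset.card_filter_add_card_filter_not (s := Ico D (2 * D)) (fun d => W d ≤ 4 * C)
  rw [Nat.card_Ico] at h2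
  have h3 : (((Ico D (2 * D)).filter (fun d => ¬ W d ≤ 4 * C)).card : ℝ) * (4 * C) ≤
      C * ((2 * D : ℕ) : ℝ) := by
    refine le_trans ?_ h1
    calc (((Ico D (2 * D)).filter (fun d => ¬ W d ≤ 4 * C)).card : ℝ) * (4 * C) =
        ∑ _d ∈ (Ico D (2 * D)).filter (fun d => ¬ W d ≤ 4 * C), 4 * C := by
          rw [Finset.sum_const, nsmul_eq_mul]
      _ ≤ ∑ d ∈ (Ico D (2 * D)).filter (fun d => ¬ W d ≤ 4 * C), W d :=
          Finset.sum_le_sum fun d hd => (not_le.1 (Finset.mem_filter.1 hd).2).le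
      _ ≤ ∑ d ∈ Icc 1 (2 * D), W d := by
          refine Finset.sum_le_sum_of_subset_of_nonneg ?_ fun d _ _ =>
            zero_le_one.trans (one_le_W d)
          intro d hd
          have h4 := Finset.mem_Ico.1 (Finset.mem_filter.1 hd).1
          rw [Finset.mem_Icc]
          omega
  push_cast at h3
  have h5 : (((Ico D (2 * D)).filter (fun d => ¬ W d ≤ 4 * C)).card : ℝ) ≤ D / 2 := by
    nlinarith
  have h6 : (((Ico D (2 * D)).filter (fun d => W d ≤ 4 * C)).card : ℝ) +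
      ((Ico D (2 * D)).filter (fun d => ¬ W d ≤ 4 * C)).card = D := by
    have h7 : 2 * D - D = D := by omega
    rw [h7] at h2
    exact_mod_cast h2
  linarith

private noncomputable def lb (m : ℕ) : ℝ := (-1) ^ m

private theorem lb_per : Per 2 lb where
  pos := by norm_num
  le m := by
    unfold lb
    rw [abs_pow, abs_neg, abs_one, one_pow]
  per m := by
    unfold lb
    rw [pow_add]
    norm_num
  zero := by
    rw [Finset.sum_range_succ, Finset.sum_range_succ, Finset.sum_range_zero]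
    unfold lb
    norm_num

open Classical in
theorem sign_changes {k : ℕ} (a : Fin k → ℕ) (ha : Function.Injective a) (ε : ℝ) (hε : 0 < ε) : ∃ K : ℝ, ∃ X0 : ℕ,
    ∀ X : ℕ, X0 ≤ X → ∀ H y : ℕ, K * √(Real.log X ^ k) ≤ H → H ≤ X → y ≤ X →
      ((((Icc 1 X).filter (fun n => (∀ i, (n + a i).Prime) ∧ ∀ h ∈ Ioc y (y + H), ∀ h' ∈ Ioc y (y + H),
        (-1 : ℤ) ^ ArithmeticFunction.cardFactors (n + h) = (-1) ^ ArithmeticFunction.cardFactors (n + h'))).card : ℕ) : ℝ) ≤
        ε * X / Real.log X ^ k := by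
  obtain ⟨C0, hC0, hgood⟩ := good_d
  obtain ⟨H0, X0, hmain⟩ := main0 a ha lb_per C0 1 (ε / 4) one_pos (by positivity)
  set Z : ℕ := H0 + 4 with hZ
  have hZR : (4 : ℝ) ≤ Z := by
    rw [hZ]
    push_cast
    linarith [(Nat.cast_nonneg H0 : (0 : ℝ) ≤ H0)]
  set K : ℝ := 2 * √Z + Z with hK
  have hsZ : 0 ≤ √(Z : ℝ) := Real.sqrt_nonneg _
  have hKZ : (Z : ℝ) ≤ K := by rw [hK]; linarith
  have hK2 : 4 * (Z : ℝ) ≤ K ^ 2 := by
    have h1 : √(Z : ℝ) ^ 2 = Z := Real.sq_sqrt (by linarith)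
    have h2 : (2 * √(Z : ℝ)) ^ 2 ≤ K ^ 2 := pow_le_pow_left₀ (by positivity) (by rw [hK]; linarith) 2
    calc 4 * (Z : ℝ) = (2 * √(Z : ℝ)) ^ 2 := by rw [mul_pow, h1]; ring
      _ ≤ K ^ 2 := h2
  have hK0 : 0 < K := by linarith
  have hlit : ∀ᶠ x : ℝ in Filter.atTop, ‖Real.log x ^ k‖ ≤ (1 / (4 * K ^ 2)) * ‖x‖ :=
    (Real.isLittleO_pow_log_id_atTop (n := k)).bound (by positivity)
  obtain ⟨X1, hX1⟩ := Filter.eventually_atTop.1 (tendsto_natCast_atTop_atTop.eventually hlit)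
  refine ⟨K, X0 + X1 + 16, fun X hX H y hKH hHX hyX => ?_⟩
  have hXR : (16 : ℝ) ≤ X := by exact_mod_cast (by omega : 16 ≤ X)
  have hXpos : (0 : ℝ) < X := by linarith
  have hL1 : 1 ≤ Real.log X := by
    rw [Real.le_log_iff_exp_le hXpos]
    linarith [Real.exp_one_lt_d9]
  have hLk1 : 1 ≤ Real.log X ^ k := one_le_pow₀ hL1
  have hLk : 0 < Real.log X ^ k := by linarith
  have hLX : 4 * K ^ 2 * Real.log X ^ k ≤ X := by
    have h1 := hX1 X (by omega)
    rw [Real.norm_of_nonneg hLk.le, Real.norm_of_nonneg hXpos.le, one_div_mul_eq_div,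
      le_div_iff₀ (by positivity)] at h1
    linarith
  set R : ℝ := √(Real.log X ^ k) with hR
  have hR1 : 1 ≤ R := Real.one_le_sqrt.2 hLk1
  have hR2 : R ^ 2 = Real.log X ^ k := Real.sq_sqrt hLk.le
  set H' : ℕ := ⌈K * R⌉₊ with hH'
  have hH'H : H' ≤ H := Nat.ceil_le.2 hKH
  have hH'X : H' ≤ X := hH'H.trans hHX
  have hH'1 : K * R ≤ H' := Nat.le_ceil _
  have hKR : K ≤ K * R := by nlinarith
  have hH'2 : (H' : ℝ) ≤ 2 * (K * R) := by
    have h1 : (H' : ℝ) < K * R + 1 := Nat.ceil_lt_add_one (by positivity)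
    linarith
  have hZH' : Z ≤ H' := by
    have h1 : (Z : ℝ) ≤ H' := by linarith
    exact_mod_cast h1
  have hH'0 : (0 : ℝ) < H' := by linarith
  have hZ0 : (0 : ℝ) < Z := by linarith
  set D : ℕ := H' / Z with hD
  have hZpos : 0 < Z := by omega
  have hD1 : 1 ≤ D := (Nat.one_le_div_iff hZpos).2 hZH'
  have hZD : Z * D ≤ H' := Nat.mul_div_le H' Z
  have hDhalf : (H' : ℝ) / (2 * Z) ≤ D := by
    have h1 : H' < Z * D + Z := by
      have h2 := Nat.div_add_mod H' Z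
      have h3 := Nat.mod_lt H' hZpos
      rw [← hD] at h2
      omega
    have h4 : H' ≤ 2 * (Z * D) := by
      have h5 : Z * 1 ≤ Z * D := Nat.mul_le_mul_left Z hD1
      omega
    rw [div_le_iff₀ (by positivity)]
    have h6 : (H' : ℝ) ≤ 2 * (Z * D) := by exact_mod_cast h4
    linarith
  have hDR : (1 : ℝ) ≤ D := by exact_mod_cast hD1
  have hD0 : (0 : ℝ) < D := by linarith
  have hDX : D ^ 2 ≤ X := by
    have h1 : (D : ℝ) ≤ H' := by
      have h2 : D ≤ H' := Nat.div_le_self _ _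
      exact_mod_cast h2
    have h3 : (D : ℝ) ^ 2 ≤ X := by
      calc (D : ℝ) ^ 2 ≤ (2 * (K * R)) ^ 2 :=
            pow_le_pow_left₀ hD0.le (h1.trans hH'2) 2
        _ = 4 * K ^ 2 * Real.log X ^ k := by rw [← hR2]; ring
        _ ≤ X := hLX
    exact_mod_cast h3
  set S : Finset ℕ := (Ico D (2 * D)).filter (fun d => W d ≤ C0) with hS
  have hScard : (D : ℝ) / 2 ≤ S.card := hgood D hD1
  have hS0 : (0 : ℝ) < S.card := by linarith
  have hcl : 1 * Real.log X ^ k ≤ S.card * H' := by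
    have h1 : (H' : ℝ) / (4 * Z) ≤ S.card := by
      refine le_trans ?_ hScard
      calc (H' : ℝ) / (4 * Z) = H' / (2 * Z) / 2 := by ring
        _ ≤ D / 2 := by linarith
    calc 1 * Real.log X ^ k = R ^ 2 := by rw [hR2, one_mul]
      _ ≤ K ^ 2 / (4 * Z) * R ^ 2 := by
          have h2 : 1 ≤ K ^ 2 / (4 * Z) := by
            rw [le_div_iff₀ (by positivity), one_mul]
            exact hK2
          nlinarith [sq_nonneg R]
      _ = (K * R) ^ 2 / (4 * Z) := by ring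
      _ ≤ (H' : ℝ) ^ 2 / (4 * Z) := by
          apply div_le_div_of_nonneg_right _ (by positivity)
          exact pow_le_pow_left₀ (by positivity) hH'1 2
      _ = (H' : ℝ) / (4 * Z) * H' := by ring
      _ ≤ S.card * H' := mul_le_mul_of_nonneg_right h1 hH'0.le
  have hm := hmain X (by omega) D H' y hD1 hDX
    (le_trans (Nat.mul_le_mul_right D (by omega)) hZD) hH'X hyX S (Finset.filter_subset _ _)
    (fun d hd => (Finset.mem_filter.1 hd).2) hcl
  -- the lower bound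
  set N : Finset ℕ := (Icc 1 X).filter (fun n => (∀ i, (n + a i).Prime) ∧ ∀ h ∈ Ioc y (y + H),
    ∀ h' ∈ Ioc y (y + H), (-1 : ℤ) ^ ArithmeticFunction.cardFactors (n + h) =
      (-1) ^ ArithmeticFunction.cardFactors (n + h')) with hN
  have hlow : ∀ n ∈ N, (S.card : ℝ) * (H' / (4 * D)) ≤
      vv a X n * ∑ d ∈ S, |∑ h ∈ mul n d y H', lb (ArithmeticFunction.cardFactors (n + h))| := by
    intro n hn
    obtain ⟨hn1, hn2, hn3⟩ := Finset.mem_filter.1 hn
    rw [Finset.mem_Icc] at hn1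
    have hvv : vv a X n = 1 := by
      unfold vv
      rw [if_pos ⟨hn1.1, hn1.2, hn2⟩]
    have hy1 : y + 1 ∈ Ioc y (y + H) := by
      rw [Finset.mem_Ioc]
      omega
    rw [hvv, one_mul, ← nsmul_eq_mul]
    refine Finset.card_nsmul_le_sum _ _ _ fun d hd => ?_
    have hd1 := Finset.mem_Ico.1 (Finset.mem_filter.1 hd).1
    have hconst : ∀ h ∈ mul n d y H', lb (ArithmeticFunction.cardFactors (n + h)) =
        lb (ArithmeticFunction.cardFactors (n + (y + 1))) := by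
      intro h hh
      have hh1 := Finset.mem_Ioc.1 (Finset.mem_filter.1 hh).1
      have h2 := hn3 h (by rw [Finset.mem_Ioc]; omega) (y + 1) hy1
      unfold lb
      exact_mod_cast congrArg (fun z : ℤ => (z : ℝ)) h2
    rw [Finset.sum_congr rfl hconst, Finset.sum_const, nsmul_eq_mul, abs_mul]
    have h3 : |lb (ArithmeticFunction.cardFactors (n + (y + 1)))| = 1 := by
      unfold lb
      rw [abs_pow, abs_neg, abs_one, one_pow]
    rw [h3, mul_one, abs_of_nonneg (Nat.cast_nonneg _)]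
    have h4 := le_card_mul n d y H' (by omega)
    have hd0 : (0 : ℝ) < d := by exact_mod_cast (by omega : 0 < d)
    have h5 : (H' : ℝ) / (2 * D) ≤ H' / d := by
      apply div_le_div_of_nonneg_left hH'0.le hd0
      have h6 : d ≤ 2 * D := by omega
      exact_mod_cast h6
    have h7 : (1 : ℝ) ≤ H' / (4 * D) := by
      rw [le_div_iff₀ (by positivity), one_mul]
      have h8 : 4 * D ≤ H' := le_trans (Nat.mul_le_mul_right D (by omega)) hZD
      exact_mod_cast h8
    have h9 : (H' : ℝ) / (2 * D) = H' / (4 * D) + H' / (4 * D) := by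
      field_simp
      norm_num
    linarith
  have hsum : (N.card : ℝ) * (S.card * (H' / (4 * D))) ≤
      ε / 4 * S.card * H' * X / (D * Real.log X ^ k) := by
    refine le_trans ?_ hm
    rw [← nsmul_eq_mul]
    refine (Finset.card_nsmul_le_sum _ _ _ hlow).trans ?_
    refine Finset.sum_le_sum_of_subset_of_nonneg (Finset.filter_subset _ _) fun n _ _ => ?_
    exact mul_nonneg (vv_nonneg a X n) (Finset.sum_nonneg fun _ _ => abs_nonneg _)
  have hfin : (N.card : ℝ) * (S.card * (H' / (4 * D))) ≤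
      (ε * X / Real.log X ^ k) * (S.card * (H' / (4 * D))) := by
    refine hsum.trans (le_of_eq ?_)
    field_simp
  exact le_of_mul_le_mul_right hfin (by positivity)

end Pool.Agent.Helper8.DW
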