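import Pool.Agent.Helper8.DW.Defs
import Pool.Agent.Helper13.MRF.Final
import Pool.Agent.Helper83.HLD.Near

/-!
# DW-6: the Matomäki-Radziwiłł input

`MRC.expx_bridge MRP.mrchi0x_holds MRP.mrchi1x_holds MRP.lawx : MRP.EXPx` (see `Pool/Agent/Results/MP_e6fa8b_nt/PrimeNeighbourhoods.lean` and
how `Helper83.HLD.near_final` uses it) with `α = 0`: for every `δ` there is `M` and `x0` such that for all `x ≥ x0` and all `b` bounded by `1`
`∑_{j ≤ x} |∑_{i ≤ M} b (Ω (j + i)) - M * mA x b| ≤ δ M x`.  Apply it to `b (s + ·)`, `s < q`.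
The mean: `MRP.lawx` gives `|mA x (up 1 b) - mA x b| ≤ δ'`, so `|mA x (b (s + ·)) - mA x b| ≤ s δ'`, and the sum over `s < q` of
`mA x (b (s + ·))` is `0` (a full period of `b` starting at any place has sum `0`), so `q |mA x b| ≤ q ^ 2 δ'`; for `b (s + ·)` the same.
-/

set_option autoImplicit false

namespace Pool.Agent.Helper8.DW

open Finset

private theorem win_eC_zero : MRP.eC ((0 : ℝ)) = 1 := by
  unfold MRP.eC
  simp

/-- A full period of `b` starting at any place has sum zero. -/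
private theorem win_period {q : ℕ} {b : ℕ → ℝ} (hb : Per q b) (m : ℕ) :
    ∑ i ∈ range q, b (m + i) = 0 := by
  induction m with
  | zero =>
    simpa using hb.zero
  | succ m ih =>
    have h1 := Finset.sum_range_succ (fun i => b (m + i)) q
    have h2 := Finset.sum_range_succ' (fun i => b (m + i)) q
    have h3 : ∑ i ∈ range q, b (m + (i + 1)) = ∑ i ∈ range q, b (m + 1 + i) :=
      Finset.sum_congr rfl fun i _ => by rw [show m + (i + 1) = m + 1 + i by omega]
    rw [h3] at h2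
    have h4 := hb.per m
    simp only [Nat.add_zero] at h2
    linarith

private theorem win_mx {q : ℕ} {b : ℕ → ℝ} (hb : Per q b) (δ : ℝ) (hδ : 0 < δ) : ∃ x0 : ℕ,
    ∀ x : ℕ, x0 ≤ x → ∀ s : ℕ, |MRP.mx x (MRP.up s b)| ≤ δ := by
  have hq : (0 : ℝ) < q := by exact_mod_cast hb.pos
  obtain ⟨x0, h0⟩ := MRP.lawx (δ / q) (by positivity) 1 le_rfl
  refine ⟨x0, fun x hx s => ?_⟩
  have hstep : ∀ t, |MRP.mx x (MRP.up (t + 1) b) - MRP.mx x (MRP.up t b)| ≤ δ / q := by
    intro t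
    have h1 := (h0 x hx (MRP.up t b) (fun m => hb.le _)).1
    have h2 : MRP.up 1 (MRP.up t b) = MRP.up (t + 1) b := by
      funext m
      unfold MRP.up
      rw [show m + 1 + t = m + (t + 1) by omega]
    rwa [h2] at h1
  have hk : ∀ k, |MRP.mx x (MRP.up (s + k) b) - MRP.mx x (MRP.up s b)| ≤ k * (δ / q) := by
    intro k
    induction k with
    | zero => simp
    | succ k ih =>
      have h1 := hstep (s + k)
      have h2 := abs_sub_le (MRP.mx x (MRP.up (s + (k + 1)) b)) (MRP.mx x (MRP.up (s + k) b))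
        (MRP.mx x (MRP.up s b))
      rw [show s + (k + 1) = s + k + 1 by omega] at h2 ⊢
      push_cast
      linarith
  have hsum : ∑ k ∈ range q, MRP.mx x (MRP.up (s + k) b) = 0 := by
    unfold MRP.mx MRP.up
    rw [← Finset.sum_div, Finset.sum_comm]
    have h1 : ∀ n ∈ Icc 1 x, ∑ k ∈ range q, b (MRP.Om n + (s + k)) = 0 := by
      intro n _
      have h2 := win_period hb (MRP.Om n + s)
      rw [← h2]
      exact Finset.sum_congr rfl fun i _ => by rw [Nat.add_assoc]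
    rw [Finset.sum_eq_zero h1, zero_div]
  have h3 : (q : ℝ) * MRP.mx x (MRP.up s b) =
      ∑ k ∈ range q, (MRP.mx x (MRP.up s b) - MRP.mx x (MRP.up (s + k) b)) := by
    rw [Finset.sum_sub_distrib, hsum, Finset.sum_const, card_range, nsmul_eq_mul, sub_zero]
  have h4 : (q : ℝ) * |MRP.mx x (MRP.up s b)| ≤ q * δ := by
    rw [← abs_of_pos hq, ← abs_mul, h3, abs_of_pos hq]
    refine (Finset.abs_sum_le_sum_abs _ _).trans ?_
    have h5 : ∀ k ∈ range q, |MRP.mx x (MRP.up s b) - MRP.mx x (MRP.up (s + k) b)| ≤ δ := by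
      intro k hk'
      rw [abs_sub_comm]
      refine (hk k).trans ?_
      have h6 : (k : ℝ) ≤ q := by exact_mod_cast (Finset.mem_range.1 hk').le
      calc (k : ℝ) * (δ / q) ≤ q * (δ / q) := by gcongr
        _ = δ := by field_simp
    refine (Finset.sum_le_card_nsmul _ _ _ h5).trans ?_
    rw [card_range, nsmul_eq_mul]
  exact le_of_mul_le_mul_left h4 hq

theorem window {q : ℕ} {b : ℕ → ℝ} (hb : Per q b) (δ : ℝ) (hδ : 0 < δ) : ∃ M : ℕ, 1 ≤ M ∧ ∃ x0 : ℕ,
    ∀ x : ℕ, x0 ≤ x → ∑ j ∈ Icc 1 x, BB q b M j ≤ δ * x := by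
  have hq : (0 : ℝ) < q := by exact_mod_cast hb.pos
  obtain ⟨H0, h0⟩ := MRC.expx_bridge MRP.mrchi0x_holds MRP.mrchi1x_holds MRP.lawx (δ / (2 * q))
    (by positivity)
  obtain ⟨x1, h1⟩ := h0 (max H0 1) (le_max_left _ _)
  obtain ⟨x2, h2⟩ := win_mx hb (δ / (2 * q)) (by positivity)
  have hM1 : 1 ≤ max H0 1 := le_max_right _ _
  generalize max H0 1 = M at h1 hM1
  have hM : (0 : ℝ) < M := by exact_mod_cast hM1
  refine ⟨M, hM1, max x1 x2, fun x hx => ?_⟩
  have hx1 := h1 x ((le_max_left _ _).trans hx)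
  have hx2 := h2 x ((le_max_right _ _).trans hx)
  have hx0 : (0 : ℝ) ≤ x := Nat.cast_nonneg _
  -- one class
  have key : ∀ s ∈ range q, ∑ j ∈ Icc 1 x,
      |∑ i ∈ Icc 1 M, b (s + ArithmeticFunction.cardFactors (j + i))| ≤ δ / q * M * x := by
    intro s _
    have h3 := hx1 (MRP.up s b) (fun m => hb.le _) 0
    have h4 := hx2 s
    have h5 : ∀ j ∈ Icc 1 x, |∑ i ∈ Icc 1 M, b (s + ArithmeticFunction.cardFactors (j + i))| ≤
        ‖∑ i ∈ Icc 1 M, ((MRP.up s b (MRP.Om (j + i)) - MRP.mx x (MRP.up s b) : ℝ) : ℂ) *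
          MRP.eC ((i : ℝ) * 0)‖ + M * (δ / (2 * q)) := by
      intro j _
      have h6 : ∑ i ∈ Icc 1 M, ((MRP.up s b (MRP.Om (j + i)) - MRP.mx x (MRP.up s b) : ℝ) : ℂ) *
          MRP.eC ((i : ℝ) * 0) = ((∑ i ∈ Icc 1 M, b (s + ArithmeticFunction.cardFactors (j + i)) -
            M * MRP.mx x (MRP.up s b) : ℝ) : ℂ) := by
        have h7 : (M : ℝ) * MRP.mx x (MRP.up s b) = ∑ _i ∈ Icc 1 M, MRP.mx x (MRP.up s b) := by
          rw [Finset.sum_const, Nat.card_Icc, nsmul_eq_mul, Nat.add_sub_cancel]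
        rw [h7, ← Finset.sum_sub_distrib, Complex.ofReal_sum]
        refine Finset.sum_congr rfl fun i _ => ?_
        rw [mul_zero, win_eC_zero, mul_one]
        have h8 : MRP.up s b (MRP.Om (j + i)) = b (s + ArithmeticFunction.cardFactors (j + i)) := by
          unfold MRP.up
          rw [Nat.add_comm]
        rw [h8]
      rw [h6, Complex.norm_real, Real.norm_eq_abs]
      have h9 := abs_sub_abs_le_abs_sub (∑ i ∈ Icc 1 M, b (s + ArithmeticFunction.cardFactors (j + i)))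
        (M * MRP.mx x (MRP.up s b))
      have h10 : |(M : ℝ) * MRP.mx x (MRP.up s b)| ≤ M * (δ / (2 * q)) := by
        rw [abs_mul, abs_of_pos hM]
        gcongr
      linarith
    refine (Finset.sum_le_sum h5).trans ?_
    rw [Finset.sum_add_distrib, Finset.sum_const, Nat.card_Icc, nsmul_eq_mul, Nat.add_sub_cancel]
    have h11 : δ / q * M * x = δ / (2 * q) * M * x + x * (M * (δ / (2 * q))) := by
      field_simp
      ring
    rw [h11]
    linarith
  unfold BB
  rw [← Finset.mul_sum, Finset.sum_comm]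
  have h12 : ∑ s ∈ range q, ∑ j ∈ Icc 1 x,
      |∑ i ∈ Icc 1 M, b (s + ArithmeticFunction.cardFactors (j + i))| ≤ q * (δ / q * M * x) := by
    refine (Finset.sum_le_card_nsmul _ _ _ key).trans ?_
    rw [card_range, nsmul_eq_mul]
  calc 1 / (M : ℝ) * ∑ s ∈ range q, ∑ j ∈ Icc 1 x,
        |∑ i ∈ Icc 1 M, b (s + ArithmeticFunction.cardFactors (j + i))| ≤
      1 / (M : ℝ) * (q * (δ / q * M * x)) := by gcongr
    _ = δ * x := by field_simp

/-- `BB ≤ q`. -/
theorem BB_le {q : ℕ} {b : ℕ → ℝ} (hb : Per q b) (M j : ℕ) (hM : 1 ≤ M) : BB q b M j ≤ q := by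
  have hM0 : (0 : ℝ) < M := by exact_mod_cast hM
  have h1 : ∀ s ∈ range q, |∑ i ∈ Icc 1 M, b (s + ArithmeticFunction.cardFactors (j + i))| ≤ M := by
    intro s _
    refine (Finset.abs_sum_le_sum_abs _ _).trans ?_
    refine (Finset.sum_le_card_nsmul _ _ 1 fun i _ => hb.le _).trans ?_
    rw [Nat.card_Icc, nsmul_eq_mul, Nat.add_sub_cancel, mul_one]
  have h2 := Finset.sum_le_card_nsmul _ _ _ h1
  rw [card_range, nsmul_eq_mul] at h2
  unfold BB
  calc 1 / (M : ℝ) * ∑ s ∈ range q, |∑ i ∈ Icc 1 M, b (s + ArithmeticFunction.cardFactors (j + i))| ≤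
      1 / (M : ℝ) * (q * M) := by gcongr
    _ = q := by field_simp

/-- The sum of the squares over `m = 1, ..., N` of `BB (m - 1)`: the term `m = 1` is at most `q ^ 2`, the others are at most
`q * BB (m - 1)`. -/
theorem window_sq {q : ℕ} {b : ℕ → ℝ} (hb : Per q b) (δ : ℝ) (hδ : 0 < δ) : ∃ M : ℕ, 1 ≤ M ∧ ∃ x0 : ℕ,
    ∀ x : ℕ, x0 ≤ x → ∑ m ∈ Icc 1 x, BB q b M (m - 1) ^ 2 ≤ δ * x := by
  have hq : (0 : ℝ) < q := by exact_mod_cast hb.pos
  obtain ⟨M, hM, x0, h0⟩ := window hb (δ / (2 * q)) (by positivity)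
  obtain ⟨x1, h1⟩ := exists_nat_ge (2 * (q : ℝ) ^ 2 / δ)
  refine ⟨M, hM, max (max x0 x1) 1, fun x hx => ?_⟩
  have hx0 : x0 ≤ x := (le_max_left _ _).trans ((le_max_left _ _).trans hx)
  have hx1 : (x1 : ℝ) ≤ x := by
    exact_mod_cast (le_max_right _ _).trans ((le_max_left _ _).trans hx)
  have hx2 : 1 ≤ x := (le_max_right _ _).trans hx
  have h2 : (q : ℝ) ^ 2 ≤ δ / 2 * x := by
    have h3 := h1.trans hx1
    rw [div_le_iff₀ hδ] at h3
    linarith
  have hsq : ∀ j, BB q b M j ^ 2 ≤ q * BB q b M j := by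
    intro j
    rw [sq]
    exact mul_le_mul_of_nonneg_right (BB_le hb M j hM) (BB_nonneg _ _ _ _)
  -- split off the first term
  have h4 : Icc 1 x = insert 1 (Icc 2 x) := by
    ext m
    simp only [Finset.mem_insert, Finset.mem_Icc]
    omega
  rw [h4, Finset.sum_insert (by simp)]
  have h5 : ∑ m ∈ Icc 2 x, BB q b M (m - 1) ^ 2 ≤ q * ∑ j ∈ Icc 1 x, BB q b M j := by
    have h6 : ∑ m ∈ Icc 2 x, BB q b M (m - 1) ^ 2 = ∑ j ∈ Icc 1 (x - 1), BB q b M j ^ 2 := by
      refine Finset.sum_bij (fun m _ => m - 1) ?_ ?_ ?_ ?_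
      · intro m hm
        rw [Finset.mem_Icc] at hm ⊢
        omega
      · intro m hm m' hm' h
        rw [Finset.mem_Icc] at hm hm'
        omega
      · intro j hj
        rw [Finset.mem_Icc] at hj
        exact ⟨j + 1, by rw [Finset.mem_Icc]; omega, by omega⟩
      · intro m _
        rfl
    rw [h6]
    calc ∑ j ∈ Icc 1 (x - 1), BB q b M j ^ 2 ≤ ∑ j ∈ Icc 1 (x - 1), q * BB q b M j :=
          Finset.sum_le_sum fun j _ => hsq j
      _ ≤ ∑ j ∈ Icc 1 x, q * BB q b M j := by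
          refine Finset.sum_le_sum_of_subset_of_nonneg (Finset.Icc_subset_Icc_right (by omega)) ?_
          intro j _ _
          exact mul_nonneg hq.le (BB_nonneg _ _ _ _)
      _ = q * ∑ j ∈ Icc 1 x, BB q b M j := by rw [Finset.mul_sum]
  have h7 := h0 x hx0
  have h8 : (q : ℝ) * ∑ j ∈ Icc 1 x, BB q b M j ≤ δ / 2 * x := by
    calc (q : ℝ) * ∑ j ∈ Icc 1 x, BB q b M j ≤ q * (δ / (2 * q) * x) := by gcongr
      _ = δ / 2 * x := by field_simp
  have h9 : BB q b M (1 - 1) ^ 2 ≤ (q : ℝ) ^ 2 :=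
    pow_le_pow_left₀ (BB_nonneg _ _ _ _) (BB_le hb M _ hM) 2
  linarith

end Pool.Agent.Helper8.DW
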